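import Mathlib

/-! Abstract group theory used for the preimage tree of `x ^ 2 - 1`. -/

namespace Pool.Agent.Lib.MP_dd5d2d_nt

open Subgroup
open scoped commutatorElement

/-- In a nilpotent group a subgroup that generates modulo the commutator subgroup is everything. -/
theorem eq_top_of_sup_commutator {G : Type*} [Group G] [h : Group.IsNilpotent G] :
    ∀ H : Subgroup G, H ⊔ commutator G = ⊤ → H = ⊤ := by
  apply @Group.nilpotent_center_quotient_ind _ G _ _ <;> clear! G
  · intro G _ _ H _
    exact @Subsingleton.elim _ Unique.instSubsingleton _ _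
  · intro G _ _ ih H hH
    have hsur : Function.Surjective (QuotientGroup.mk' (center G)) := Quot.mk_surjective
    have h1 : H.map (QuotientGroup.mk' (center G)) = ⊤ := by
      apply ih
      have := congrArg (Subgroup.map (QuotientGroup.mk' (center G))) hH
      rw [Subgroup.map_sup, commutator_def, Subgroup.map_commutator,
        map_top_of_surjective _ hsur] at this
      exact this
    have h2 : ∀ g : G, ∃ a ∈ H, ∃ z ∈ center G, g = a * z := by
      intro g
      have : (QuotientGroup.mk' (center G)) g ∈ H.map (QuotientGroup.mk' (center G)) := by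
        rw [h1]; trivial
      obtain ⟨a, ha, hag⟩ := this
      refine ⟨a, ha, a⁻¹ * g, ?_, by group⟩
      exact QuotientGroup.eq.1 hag
    have h3 : commutator G ≤ H := by
      rw [commutator_def, Subgroup.commutator_le]
      intro g _ g' _
      obtain ⟨a, ha, z, hz, rfl⟩ := h2 g
      obtain ⟨a', ha', z', hz', rfl⟩ := h2 g'
      have e1 := mem_center_iff.1 hz
      have e2 := mem_center_iff.1 hz'
      have : ⁅a * z, a' * z'⁆ = ⁅a, a'⁆ := by
        simp only [commutatorElement_def, mul_inv_rev]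
        calc a * z * (a' * z') * (z⁻¹ * a⁻¹) * (z'⁻¹ * a'⁻¹)
            = a * (z * (a' * z')) * z⁻¹ * (a⁻¹ * z'⁻¹) * a'⁻¹ := by group
          _ = a * ((a' * z') * z) * z⁻¹ * (a⁻¹ * z'⁻¹) * a'⁻¹ := by rw [e1 (a' * z')]
          _ = a * a' * (z' * a⁻¹) * z'⁻¹ * a'⁻¹ := by group
          _ = a * a' * (a⁻¹ * z') * z'⁻¹ * a'⁻¹ := by rw [e2 a⁻¹]
          _ = a * a' * a⁻¹ * a'⁻¹ := by group
      rw [this, commutatorElement_def]
      exact H.mul_mem (H.mul_mem (H.mul_mem ha ha') (H.inv_mem ha)) (H.inv_mem ha')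
    rw [← hH]
    exact (sup_eq_left.2 h3).symm

/-- Goursat type lemma. -/
theorem commutator_le_of_cyclic {B : Type*} [Group B] (S S' : Subgroup B) [S.Normal] [S'.Normal]
    [S.FiniteIndex] (N : ℕ) (hp : ∀ b : B, b ^ (2 ^ N) ∈ S) (α : B)
    (hgen : zpowers α ⊔ S ⊔ S' ⊔ commutator B = ⊤) :
    commutator B ≤ (commutator B ⊓ S') ⊔ S := by
  have hP : IsPGroup 2 (B ⧸ S) := by
    intro q
    obtain ⟨b, rfl⟩ := QuotientGroup.mk_surjective q
    refine ⟨N, ?_⟩
    rw [← QuotientGroup.mk_pow, QuotientGroup.eq_one_iff]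
    exact hp b
  have : Fact (Nat.Prime 2) := ⟨Nat.prime_two⟩
  have : Group.IsNilpotent (B ⧸ S) := hP.isNilpotent
  have hsur : Function.Surjective (QuotientGroup.mk' S) := Quot.mk_surjective
  have h1 : (zpowers α ⊔ S ⊔ S').map (QuotientGroup.mk' S) = ⊤ := by
    apply eq_top_of_sup_commutator
    have := congrArg (Subgroup.map (QuotientGroup.mk' S)) hgen
    rw [Subgroup.map_sup, commutator_def, Subgroup.map_commutator,
      map_top_of_surjective _ hsur] at this
    exact this
  have h2 : zpowers α ⊔ S ⊔ S' = ⊤ := by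
    have hk : (QuotientGroup.mk' S).ker ≤ zpowers α ⊔ S ⊔ S' := by
      rw [QuotientGroup.ker_mk']
      exact le_trans le_sup_right le_sup_left
    rw [← comap_map_eq_self hk, h1]; rfl
  set D : Subgroup B := (commutator B ⊓ S') ⊔ S with hD
  have : D.Normal := by rw [hD]; infer_instance
  let Z : Subgroup B := (center (B ⧸ D)).comap (QuotientGroup.mk' D)
  have : Z.Normal := by infer_instance
  have hSZ : S ≤ Z := by
    intro s hs
    have : (QuotientGroup.mk' D) s = 1 := by
      rw [QuotientGroup.mk'_apply, QuotientGroup.eq_one_iff]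
      exact (le_sup_right : S ≤ D) hs
    show (QuotientGroup.mk' D) s ∈ center (B ⧸ D)
    rw [this]; exact one_mem _
  have hS'Z : S' ≤ Z := by
    intro s hs
    show (QuotientGroup.mk' D) s ∈ center (B ⧸ D)
    rw [mem_center_iff]
    intro q
    obtain ⟨b, rfl⟩ := QuotientGroup.mk_surjective q
    rw [← commutatorElement_eq_one_iff_mul_comm, QuotientGroup.mk'_apply]
    have : (⁅(b : B ⧸ D), (s : B ⧸ D)⁆) = ((⁅b, s⁆ : B) : B ⧸ D) := by
      simp [commutatorElement_def]
    rw [this, QuotientGroup.eq_one_iff]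
    apply (le_sup_left : commutator B ⊓ S' ≤ D)
    refine ⟨Subgroup.commutator_mem_commutator (mem_top _) (mem_top _), ?_⟩
    rw [commutatorElement_def]
    exact S'.mul_mem (Subgroup.Normal.conj_mem inferInstance s hs b) (S'.inv_mem hs)
  have h3 : ∀ b : B, ∃ m : ℤ, ∃ z ∈ Z, b = α ^ m * z := by
    intro b
    have : b ∈ zpowers α ⊔ Z := by
      have hle : zpowers α ⊔ S ⊔ S' ≤ zpowers α ⊔ Z :=
        sup_le (sup_le le_sup_left (hSZ.trans le_sup_right)) (hS'Z.trans le_sup_right)
      apply hle; rw [h2]; trivial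
    obtain ⟨y, ⟨m, rfl⟩, z, hz, rfl⟩ := mem_sup_of_normal_right.1 this
    exact ⟨m, z, hz, rfl⟩
  rw [commutator_def, Subgroup.commutator_le]
  intro g _ g' _
  obtain ⟨m, z, hz, rfl⟩ := h3 g
  obtain ⟨m', z', hz', rfl⟩ := h3 g'
  rw [← QuotientGroup.eq_one_iff]
  have e1 : ∀ q, q * (z : B ⧸ D) = z * q := mem_center_iff.1 hz
  have e2 : ∀ q, q * (z' : B ⧸ D) = z' * q := mem_center_iff.1 hz'
  have : ((⁅α ^ m * z, α ^ m' * z'⁆ : B) : B ⧸ D)
      = ⁅(α : B ⧸ D) ^ m * (z : B ⧸ D), (α : B ⧸ D) ^ m' * (z' : B ⧸ D)⁆ := by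
    simp [commutatorElement_def]
  rw [this, commutatorElement_eq_one_iff_mul_comm]
  set a : B ⧸ D := (α : B ⧸ D)
  calc a ^ m * z * (a ^ m' * z') = a ^ m * ((z : B ⧸ D) * (a ^ m' * z')) := by group
    _ = a ^ m * ((a ^ m' * z') * z) := by rw [e1]
    _ = a ^ m' * (a ^ m * z') * z := by group
    _ = a ^ m' * (z' * a ^ m) * z := by rw [e2]
    _ = a ^ m' * z' * (a ^ m * z) := by group

/-- A subgroup of the three-dimensional Boolean cube not killed by any nonzero form is everything. -/
theorem cube_full : ∀ V : Bool → Bool → Bool → Bool, V false false false = true →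
    (∀ a b c a' b' c', V a b c = true → V a' b' c' = true →
      V (xor a a') (xor b b') (xor c c') = true) →
    (∀ l m n : Bool, (l || m || n) = true →
      ∃ a b c, V a b c = true ∧ xor (xor (l && a) (m && b)) (n && c) = true) →
    ∀ a b c, V a b c = true := by
  decide +kernel

end Pool.Agent.Lib.MP_dd5d2d_nt
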