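import Mathlib
import Pool.Agent.Lib.MP_dd5d2d_nt.Grp

/-! Elementary Kummer theory for a group acting on a field. -/

namespace Pool.Agent.Lib.MP_dd5d2d_nt

variable {Ω : Type} [Field Ω]

/-- `u` is a non-square relative to `A`: each square root of `u` is moved by `A`. -/
def NS (A : Type) [Group A] [MulSemiringAction A Ω] (u : Ω) : Prop :=
  ∀ w : Ω, w ^ 2 = u → ∃ a : A, a • w ≠ w

/-- `A` fixes all roots of unity of order a power of two. -/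
def FixMu (A : Type) [Group A] (Ω : Type) [Field Ω] [MulSemiringAction A Ω] : Prop :=
  ∀ (a : A) (η : Ω) (k : ℕ), η ^ (2 ^ k) = 1 → a • η = η

variable {A : Type} [Group A] [MulSemiringAction A Ω]

theorem NS.ne_zero {u : Ω} (h : NS A u) : u ≠ 0 := by
  rintro rfl
  obtain ⟨a, ha⟩ := h 0 (by simp)
  exact ha (smul_zero a)

theorem NS.of_mul_sq {u v c : Ω} (h : NS A u) (hc : ∀ a : A, a • c = c) (hc0 : c ≠ 0)
    (hv : v = u * c ^ 2) : NS A v := by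
  intro w hw
  obtain ⟨a, ha⟩ := h (w / c) (by rw [div_pow, hw, hv]; field_simp)
  refine ⟨a, fun h' => ha ?_⟩
  rw [div_eq_mul_inv, smul_mul', smul_inv'', hc, h']

theorem NS.neg [IsAlgClosed Ω] (hm : FixMu A Ω) {u : Ω} (h : NS A u) : NS A (-u) := by
  obtain ⟨i, hi⟩ := IsAlgClosed.exists_pow_nat_eq (-1 : Ω) (n := 2) (by norm_num)
  refine h.of_mul_sq (c := i) (fun a => hm a i 2 ?_) ?_ (by rw [hi]; ring)
  · rw [show (2 : ℕ) ^ 2 = 2 * 2 by norm_num, pow_mul, hi]; ring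
  · rintro rfl; simp at hi

theorem smul_sq_cases (a : A) {w u : Ω} (hw : w ^ 2 = u) (hu : a • u = u) :
    a • w = w ∨ a • w = -w := by
  have : (a • w) ^ 2 = w ^ 2 := by rw [← smul_pow', hw, hu]
  exact sq_eq_sq_iff_eq_or_eq_neg.1 this

theorem pow_smul_eq (a : A) {w θ : Ω} (h : a • w = θ * w) (hθ : a • θ = θ) (n : ℕ) :
    (a ^ n) • w = θ ^ n * w := by
  induction n with
  | zero => simp
  | succ n ih => rw [pow_succ', mul_smul, ih, smul_mul', smul_pow', hθ, h]; ring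

theorem inv_smul_eq (a : A) {w θ : Ω} (h : a • w = θ * w) (hθ : a • θ = θ) (h0 : θ ≠ 0) :
    a⁻¹ • w = θ⁻¹ * w := by
  rw [inv_smul_eq_iff, smul_mul', smul_inv'', hθ, h]; field_simp

/-- The scaling factor only depends on a high two-power of the element. -/
theorem same_ratio (hm : FixMu A Ω) (a : A) {w w' θ : Ω} {k : ℕ} (h0 : w ≠ 0)
    (hw : w' ^ (2 ^ k) = w ^ (2 ^ k)) (h : a • w = θ * w) : a • w' = θ * w' := by
  have h1 : a • (w' / w) = w' / w := hm a _ k (by rw [div_pow, hw]; field_simp)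
  have h2 : w' = w' / w * w := by field_simp
  rw [h2, smul_mul', h1, h]; ring

theorem exists_ratio (a : A) {w u : Ω} {k : ℕ} (h0 : u ≠ 0) (hw : w ^ (2 ^ k) = u)
    (hu : a • u = u) : ∃ θ : Ω, θ ^ (2 ^ k) = 1 ∧ a • w = θ * w := by
  have hw0 : w ≠ 0 := by
    rintro rfl
    rw [zero_pow (by positivity)] at hw
    exact h0 hw.symm
  refine ⟨a • w / w, ?_, by field_simp⟩
  rw [div_pow, ← smul_pow', hw, hu]; field_simp

/-- Three elements independent modulo squares. -/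
structure Ind3 (A : Type) [Group A] [MulSemiringAction A Ω] (u₁ u₂ u₃ : Ω) : Prop where
  mu : FixMu A Ω
  f1 : ∀ a : A, a • u₁ = u₁
  f2 : ∀ a : A, a • u₂ = u₂
  f3 : ∀ a : A, a • u₃ = u₃
  n1 : NS A u₁
  n2 : NS A u₂
  n3 : NS A u₃
  n12 : NS A (u₁ * u₂)
  n13 : NS A (u₁ * u₃)
  n23 : NS A (u₂ * u₃)
  n123 : NS A (u₁ * u₂ * u₃)

/-- The sign attached to a Boolean. -/
def sg (Ω : Type) [Field Ω] (b : Bool) : Ω := if b then -1 else 1

theorem exists_sg (a : A) {w u : Ω} (hw : w ^ 2 = u) (hu : a • u = u) :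
    ∃ b : Bool, a • w = sg Ω b * w := by
  rcases smul_sq_cases a hw hu with h | h
  · exact ⟨false, by simp [sg, h]⟩
  · exact ⟨true, by simp [sg, h]⟩

theorem smul_sg (a : A) (b : Bool) : a • sg Ω b = sg Ω b := by
  cases b <;> simp [sg]

theorem sg_xor (b c : Bool) : sg Ω (xor b c) = sg Ω b * sg Ω c := by
  cases b <;> cases c <;> simp [sg]

theorem Ind3.signs {u₁ u₂ u₃ : Ω} (h : Ind3 A u₁ u₂ u₃) {w₁ w₂ w₃ : Ω} (h1 : w₁ ^ 2 = u₁)
    (h2 : w₂ ^ 2 = u₂) (h3 : w₃ ^ 2 = u₃) (a b c : Bool) :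
    ∃ β : A, β • w₁ = sg Ω a * w₁ ∧ β • w₂ = sg Ω b * w₂ ∧ β • w₃ = sg Ω c * w₃ := by
  classical
  have := cube_full (fun a b c => decide (∃ β : A, β • w₁ = sg Ω a * w₁ ∧ β • w₂ = sg Ω b * w₂ ∧
    β • w₃ = sg Ω c * w₃)) ?_ ?_ ?_ a b c
  · simpa using this
  · simp only [decide_eq_true_eq]
    exact ⟨1, by simp [sg]⟩
  · simp only [decide_eq_true_eq]
    rintro a b c a' b' c' ⟨β, e1, e2, e3⟩ ⟨β', e1', e2', e3'⟩
    refine ⟨β * β', ?_, ?_, ?_⟩ <;>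
      simp only [mul_smul, e1, e2, e3, e1', e2', e3', smul_mul', smul_sg, sg_xor] <;> ring
  · intro l m n hlmn
    have key : ∃ β : A, β • ((if l then w₁ else 1) * (if m then w₂ else 1) *
        (if n then w₃ else 1)) ≠ (if l then w₁ else 1) * (if m then w₂ else 1) *
        (if n then w₃ else 1) := by
      cases l <;> cases m <;> cases n
      · simp at hlmn
      · exact h.n3 _ (by simp [h3])
      · exact h.n2 _ (by simp [h2])
      · exact h.n23 _ (by simp [mul_pow, h2, h3])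
      · exact h.n1 _ (by simp [h1])
      · exact h.n13 _ (by simp [mul_pow, h1, h3])
      · exact h.n12 _ (by simp [mul_pow, h1, h2])
      · exact h.n123 _ (by simp [mul_pow, h1, h2, h3])
    obtain ⟨β, hβ⟩ := key
    obtain ⟨a, ha⟩ := exists_sg β h1 (h.f1 β)
    obtain ⟨b, hb⟩ := exists_sg β h2 (h.f2 β)
    obtain ⟨c, hc⟩ := exists_sg β h3 (h.f3 β)
    refine ⟨a, b, c, by simpa using ⟨β, ha, hb, hc⟩, ?_⟩
    by_contra hne
    apply hβ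
    cases l <;> cases m <;> cases n <;> cases a <;> cases b <;> cases c <;>
      simp_all [sg, smul_mul']

/-- Joint surjectivity of the three Kummer characters. -/
theorem Ind3.kummer {u₁ u₂ u₃ : Ω} (h : Ind3 A u₁ u₂ u₃) {k : ℕ} {w₁ w₂ w₃ : Ω}
    (h1 : w₁ ^ (2 ^ k) = u₁) (h2 : w₂ ^ (2 ^ k) = u₂) (h3 : w₃ ^ (2 ^ k) = u₃) :
    ∀ j ≤ k, ∀ ζ₁ ζ₂ ζ₃ : Ω, ζ₁ ^ (2 ^ j) = 1 → ζ₂ ^ (2 ^ j) = 1 → ζ₃ ^ (2 ^ j) = 1 →
      ∃ β : A, β • w₁ = ζ₁ * w₁ ∧ β • w₂ = ζ₂ * w₂ ∧ β • w₃ = ζ₃ * w₃ := by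
  intro j
  induction j with
  | zero =>
    intro _ ζ₁ ζ₂ ζ₃ e1 e2 e3
    simp only [pow_zero, pow_one] at e1 e2 e3
    exact ⟨1, by simp [e1, e2, e3]⟩
  | succ j ih =>
    intro hj ζ₁ ζ₂ ζ₃ e1 e2 e3
    obtain ⟨d, rfl⟩ := Nat.exists_eq_add_of_le hj
    have sq : ∀ ζ : Ω, ζ ^ (2 ^ (j + 1)) = 1 → ∃ b : Bool, ζ ^ (2 ^ j) = sg Ω b := by
      intro ζ e
      have : (ζ ^ (2 ^ j)) ^ 2 = 1 ^ 2 := by rw [← pow_mul, ← pow_succ, e, one_pow]
      rcases sq_eq_sq_iff_eq_or_eq_neg.1 this with h | h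
      · exact ⟨false, by simp [sg, h]⟩
      · exact ⟨true, by simp [sg, h]⟩
    obtain ⟨a, ha⟩ := sq ζ₁ e1
    obtain ⟨b, hb⟩ := sq ζ₂ e2
    obtain ⟨c, hc⟩ := sq ζ₃ e3
    have pw : ∀ w : Ω, (w ^ (2 ^ (j + d))) ^ 2 = w ^ (2 ^ (j + 1 + d)) := by
      intro w; rw [← pow_mul, ← pow_succ]; congr 2; ring
    obtain ⟨γ, g1, g2, g3⟩ := h.signs ((pw w₁).trans h1) ((pw w₂).trans h2) ((pw w₃).trans h3) a b c
    have step : ∀ (w u ζ : Ω) (s : Bool), u ≠ 0 → γ • u = u → w ^ (2 ^ (j + 1 + d)) = u →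
        γ • (w ^ (2 ^ (j + d))) = sg Ω s * w ^ (2 ^ (j + d)) → ζ ^ (2 ^ j) = sg Ω s →
        ∃ ξ : Ω, ξ ≠ 0 ∧ (∀ a : A, a • ξ = ξ) ∧ (γ ^ (2 ^ d)) • w = ξ * w ∧
          (ζ / ξ) ^ (2 ^ j) = 1 := by
      intro w u ζ s hu hγ hw hs hζ
      obtain ⟨θ, hθ, hθw⟩ := exists_ratio γ hu hw hγ
      have hw0 : w ≠ 0 := by
        rintro rfl
        rw [zero_pow (by positivity)] at hw
        exact hu hw.symm
      have hθ0 : θ ≠ 0 := by
        rintro rfl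
        rw [zero_pow (by positivity)] at hθ
        exact zero_ne_one hθ
      have hθs : θ ^ (2 ^ (j + d)) = sg Ω s := by
        rw [smul_pow', hθw, mul_pow] at hs
        exact mul_right_cancel₀ (pow_ne_zero _ hw0) hs
      refine ⟨θ ^ (2 ^ d), pow_ne_zero _ hθ0, fun a => ?_,
        pow_smul_eq γ hθw (h.mu γ θ _ hθ) _, ?_⟩
      · rw [smul_pow', h.mu a θ _ hθ]
      · rw [div_pow, hζ, ← pow_mul, ← pow_add, add_comm d j, hθs]
        cases s <;> simp [sg]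
    obtain ⟨ξ₁, z1, x1, y1, t1⟩ := step w₁ u₁ ζ₁ a h.n1.ne_zero (h.f1 γ) h1 g1 ha
    obtain ⟨ξ₂, z2, x2, y2, t2⟩ := step w₂ u₂ ζ₂ b h.n2.ne_zero (h.f2 γ) h2 g2 hb
    obtain ⟨ξ₃, z3, x3, y3, t3⟩ := step w₃ u₃ ζ₃ c h.n3.ne_zero (h.f3 γ) h3 g3 hc
    obtain ⟨β, b1, b2, b3⟩ := ih (by omega) _ _ _ t1 t2 t3
    refine ⟨β * γ ^ (2 ^ d), ?_, ?_, ?_⟩
    · rw [mul_smul, y1, smul_mul', x1, b1]; field_simp
    · rw [mul_smul, y2, smul_mul', x2, b2]; field_simp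
    · rw [mul_smul, y3, smul_mul', x3, b3]; field_simp

end Pool.Agent.Lib.MP_dd5d2d_nt
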