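import Mathlib
import Pool.Agent.Lib.MP_dd5d2d_nt.Kummer

/-! The Galois action on the preimage tree of `x ^ 2 - 1`: branching over the commutator
subgroup. -/

namespace Pool.Agent.Lib.MP_dd5d2d_nt

open scoped commutatorElement

/-- The map `x ↦ x ^ 2 - 1`. -/
def bf {R : Type*} [Ring R] (x : R) : R := x ^ 2 - 1

variable {Ω : Type} [Field Ω]

theorem smul_bf {A : Type} [Group A] [MulSemiringAction A Ω] (a : A) (t : Ω) :
    a • bf t = bf (a • t) := by
  simp [bf, smul_sub, smul_pow']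

theorem smul_iter {A : Type} [Group A] [MulSemiringAction A Ω] (a : A) (N : ℕ) (t : Ω) :
    a • bf^[N] t = bf^[N] (a • t) := by
  induction N with
  | zero => rfl
  | succ N ih => rw [Function.iterate_succ_apply', Function.iterate_succ_apply', smul_bf, ih]

theorem level_succ {N : ℕ} {t x z : Ω} (hz : z ^ 2 = 1 + x) (h : bf^[N + 1] t = x) :
    bf^[N] t = z ∨ bf^[N] t = -z := by
  rw [Function.iterate_succ_apply'] at h
  apply sq_eq_sq_iff_eq_or_eq_neg.1
  rw [hz, ← h, bf]; ring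

theorem finite_level (N : ℕ) : ∀ x : Ω, {t : Ω | bf^[N] t = x}.Finite := by
  induction N with
  | zero => intro x; simp
  | succ N ih =>
    intro x
    by_cases h : ∃ z : Ω, z ^ 2 = 1 + x
    · obtain ⟨z, hz⟩ := h
      exact ((ih z).union (ih (-z))).subset fun t ht => level_succ hz ht
    · convert Set.finite_empty
      ext t
      simp only [Set.mem_ofPred_eq, Set.mem_empty_iff_false, iff_false]
      intro ht
      rw [Function.iterate_succ_apply'] at ht
      exact h ⟨bf^[N] t, by rw [← ht, bf]; ring⟩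

theorem pow_smul_level {A : Type} [Group A] [MulSemiringAction A Ω] (N : ℕ) :
    ∀ (a : A) (t : Ω), a • bf^[N] t = bf^[N] t → (a ^ (2 ^ N)) • t = t := by
  induction N with
  | zero => intro a t h; simpa using h
  | succ N ih =>
    intro a t h
    rw [Function.iterate_succ_apply] at h
    have h1 := ih a _ h
    have h2 : (a ^ (2 ^ N)) • (t ^ 2) = t ^ 2 := by
      rw [smul_bf] at h1
      rw [smul_pow']
      simpa [bf] using h1
    rw [pow_succ, pow_mul, pow_two, mul_smul]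
    rcases smul_sq_cases (a ^ (2 ^ N)) rfl h2 with h3 | h3
    · rw [h3, h3]
    · rw [h3, smul_neg, h3, neg_neg]

/-- The root point `x` is generic for `A`. -/
structure Good2 (A : Type) [Group A] [MulSemiringAction A Ω] (x : Ω) : Prop where
  mu : FixMu A Ω
  fix : ∀ a : A, a • x = x
  n1 : NS A (-x)
  n2 : NS A (1 + x)
  n12 : NS A (-x * (1 + x))

/-- `a` fixes all `2 ^ k`-th roots of `u`. -/
def Rt {A : Type} [Group A] [MulSemiringAction A Ω] (k : ℕ) (u : Ω) (a : A) : Prop :=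
  ∀ w : Ω, w ^ (2 ^ k) = u → a • w = w

/-- `a` and `b` agree on the `N`-th preimages of `x`. -/
def Agree {A : Type} [Group A] [MulSemiringAction A Ω] (N : ℕ) (x : Ω) (a b : A) : Prop :=
  ∀ t : Ω, bf^[N] t = x → a • t = b • t

section child

variable {A : Type} [Group A] [MulSemiringAction A Ω]

theorem norm_fixed {z w : Ω} (hA : ∀ a : A, a • z = z ∨ a • z = -z) {τ : A} (hτ : τ • z = -z)
    (hw : ∀ b : MulAction.stabilizer A z, b • w = w) (a : A) : a • (w * τ • w) = w * τ • w := by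
  have hw' : ∀ b : A, b • z = z → b • w = w := fun b hb => hw ⟨b, hb⟩
  have hτ' : τ⁻¹ • z = -z := by rw [inv_smul_eq_iff, smul_neg, hτ, neg_neg]
  rcases hA a with h | h
  · have : (τ⁻¹ * a * τ) • w = w := by
      apply hw'
      rw [mul_smul, mul_smul, hτ, smul_neg, h, smul_neg, hτ', neg_neg]
    rw [mul_smul, mul_smul, inv_smul_eq_iff] at this
    rw [smul_mul', hw' a h, this]
  · have h1 : (τ⁻¹ * a) • w = w := by
      apply hw'
      rw [mul_smul, h, smul_neg, hτ', neg_neg]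
    have h2 : (a * τ) • w = w := by
      apply hw'
      rw [mul_smul, hτ, smul_neg, h, neg_neg]
    rw [mul_smul, inv_smul_eq_iff] at h1
    rw [mul_smul] at h2
    rw [smul_mul', h1, h2, mul_comm]

theorem NS_stab {z u : Ω} (hA : ∀ a : A, a • z = z ∨ a • z = -z) {τ : A} (hτ : τ • z = -z)
    (h : NS A (u * τ • u)) : NS (MulAction.stabilizer A z) u := by
  intro w hw
  by_contra hc
  push Not at hc
  obtain ⟨a, ha⟩ := h (w * τ • w) (by rw [mul_pow, ← smul_pow', hw])
  exact ha (norm_fixed hA hτ hc a)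

theorem Good2.cases {x z : Ω} (h : Good2 A x) (hz : z ^ 2 = 1 + x) (a : A) :
    a • z = z ∨ a • z = -z :=
  smul_sq_cases a hz (by rw [smul_add, smul_one, h.fix])

theorem Good2.exists_swap {x z : Ω} (h : Good2 A x) (hz : z ^ 2 = 1 + x) :
    ∃ τ : A, τ • z = -z := by
  obtain ⟨τ, hτ⟩ := h.n2 z hz
  exact ⟨τ, (h.cases hz τ).resolve_left hτ⟩

theorem Good2.child [IsAlgClosed Ω] {x z : Ω} (h : Good2 A x) (hz : z ^ 2 = 1 + x) :
    Ind3 (MulAction.stabilizer A z) (1 + z) (1 - z) z := by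
  obtain ⟨τ, hτ⟩ := h.exists_swap hz
  have hA := h.cases hz
  have hx : x = z ^ 2 - 1 := by rw [hz]; ring
  have hx0 : x ≠ 0 := fun h0 => h.n1.ne_zero (by rw [h0, neg_zero])
  have hz0 : z ≠ 0 := fun h0 => h.n2.ne_zero (by rw [← hz, h0]; ring)
  have fz : ∀ b : MulAction.stabilizer A z, b • z = z := fun b => b.2
  refine ⟨fun b η k hη => h.mu b η k hη, fun b => by rw [smul_add, smul_one, fz],
    fun b => by rw [smul_sub, smul_one, fz], fz, ?_, ?_, ?_, ?_, ?_, ?_, ?_⟩
  · apply NS_stab hA hτ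
    convert h.n1 using 1
    rw [smul_add, smul_one, hτ, hx]; ring
  · apply NS_stab hA hτ
    convert h.n1 using 1
    rw [smul_sub, smul_one, hτ, hx]; ring
  · apply NS_stab hA hτ
    convert h.n2.neg h.mu using 1
    rw [hτ, hx]; ring
  · intro w hw
    by_contra hc
    push Not at hc
    have hw' : ∀ b : A, b • z = z → b • w = w := fun b hb => hc ⟨b, hb⟩
    have hw2 : w ^ 2 = -x := by rw [hw, hx]; ring
    have hτ' : τ⁻¹ • z = -z := by rw [inv_smul_eq_iff, smul_neg, hτ, neg_neg]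
    have hsw : ∀ a : A, a • z = -z → a • w = τ • w := by
      intro a ha
      have h1 : (τ⁻¹ * a) • w = w := by
        apply hw'
        rw [mul_smul, ha, smul_neg, hτ', neg_neg]
      rwa [mul_smul, inv_smul_eq_iff] at h1
    rcases smul_sq_cases τ hw2 (by rw [smul_neg, h.fix]) with h1 | h1
    · obtain ⟨a, ha⟩ := h.n1 w hw2
      rcases hA a with h2 | h2
      · exact ha (hw' a h2)
      · exact ha ((hsw a h2).trans h1)
    · obtain ⟨a, ha⟩ := h.n12 (w * z) (by rw [mul_pow, hw2, hz])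
      rcases hA a with h2 | h2
      · exact ha (by rw [smul_mul', hw' a h2, h2])
      · exact ha (by rw [smul_mul', hsw a h2, h1, h2]; ring)
  · apply NS_stab hA hτ
    convert h.n12.neg h.mu using 1
    rw [smul_mul', smul_add, smul_one, hτ, hx]; ring
  · apply NS_stab hA hτ
    convert h.n12.neg h.mu using 1
    rw [smul_mul', smul_sub, smul_one, hτ, hx]; ring
  · apply NS_stab hA hτ
    refine (h.n2.neg h.mu).of_mul_sq h.fix hx0 ?_
    rw [smul_mul', smul_mul', smul_sub, smul_add, smul_one, hτ, hx]; ring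

theorem Ind3.neg [IsAlgClosed Ω] {z : Ω} (h : Ind3 A (1 + z) (1 - z) z) :
    Ind3 A (1 + -z) (1 - -z) (-z) := by
  have e1 : 1 + -z = 1 - z := by ring
  have e2 : 1 - -z = 1 + z := by ring
  rw [e1, e2]
  refine ⟨h.mu, h.f2, h.f1, fun a => by rw [smul_neg, h.f3], h.n2, h.n1, h.n3.neg h.mu,
    ?_, ?_, ?_, ?_⟩
  · convert h.n12 using 1; ring
  · convert h.n23.neg h.mu using 1; ring
  · convert h.n13.neg h.mu using 1; ring
  · convert h.n123.neg h.mu using 1; ring

theorem Ind3.good [IsAlgClosed Ω] {z : Ω} (h : Ind3 A (1 + z) (1 - z) z) : Good2 A z := by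
  refine ⟨h.mu, h.f3, h.n3.neg h.mu, h.n1, ?_⟩
  convert h.n13.neg h.mu using 1; ring

theorem Rt.of_one (hm : FixMu A Ω) {k : ℕ} {u w : Ω} {a : A} (h0 : u ≠ 0) (hw : w ^ (2 ^ k) = u)
    (h : a • w = w) : Rt k u a := by
  intro w' hw'
  have hw0 : w ≠ 0 := by
    rintro rfl
    rw [zero_pow (by positivity)] at hw
    exact h0 hw.symm
  have := same_ratio hm a (θ := 1) hw0 (hw'.trans hw.symm) (by rw [h, one_mul])
  rwa [one_mul] at this

theorem Rt.neg_of_one (hm : FixMu A Ω) {k : ℕ} {u w : Ω} {a : A} (h0 : u ≠ 0)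
    (hw : w ^ (2 ^ k) = u) (h : a • w = w) : Rt k (-u) a := by
  intro w' hw'
  have hw0 : w ≠ 0 := by
    rintro rfl
    rw [zero_pow (by positivity)] at hw
    exact h0 hw.symm
  have := same_ratio hm a (θ := 1) (k := k + 1) (w' := w') hw0
    (by rw [pow_succ, pow_mul, pow_mul, hw', hw]; ring) (by rw [h, one_mul])
  rwa [one_mul] at this

end child

/-- The maximal abelian subextension of level `N` is a Kummer extension. -/
def UStmt (N : ℕ) (A : Type) [Group A] [MulSemiringAction A Ω] (x : Ω) : Prop :=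
  ∀ σ : A, Rt N (-x) σ → Rt N (1 + x) σ → ∃ γ ∈ commutator A, Agree N x σ γ

/-- The `N`-th preimages of a fixed point form an invariant set. -/
def levelSub (B : Type) [Group B] [MulSemiringAction B Ω] (N : ℕ) (z : Ω)
    (hz : ∀ b : B, b • z = z) : SubMulAction B Ω where
  carrier := {t | bf^[N] t = z}
  smul_mem' := by
    intro b t ht
    show bf^[N] (b • t) = z
    rw [← smul_iter, show bf^[N] t = z from ht, hz]

theorem mem_ker_level {B : Type} [Group B] [MulSemiringAction B Ω] (N : ℕ) (z : Ω)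
    (hz : ∀ b : B, b • z = z) (b : B) :
    b ∈ (MulAction.toPermHom B (levelSub B N z hz)).ker ↔ Agree N z b 1 := by
  rw [MonoidHom.mem_ker]
  constructor
  · intro h t ht
    have := congrArg (fun e : Equiv.Perm (levelSub B N z hz) => (e ⟨t, ht⟩ : Ω)) h
    simpa using this
  · intro h
    ext ⟨t, ht⟩
    simpa using h t ht

theorem branch [IsAlgClosed Ω] [CharZero Ω] {B : Type} [Group B] [MulSemiringAction B Ω] {z : Ω}
    {N : ℕ} (h : Ind3 B (1 + z) (1 - z) z) (U1 : UStmt N B z) (U2 : UStmt N B (-z)) :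
    ∀ γ ∈ commutator B, ∃ γ' ∈ commutator B, Agree N z γ' γ ∧ Agree N (-z) γ' 1 := by
  have fz' : ∀ b : B, b • (-z) = -z := fun b => by rw [smul_neg, h.f3]
  set S := (MulAction.toPermHom B (levelSub B N z h.f3)).ker with hS
  set S' := (MulAction.toPermHom B (levelSub B N (-z) fz')).ker with hS'
  have : Finite (levelSub B N z h.f3) := (finite_level N z).to_subtype
  have hp : ∀ b : B, b ^ (2 ^ N) ∈ S := by
    intro b
    rw [hS, mem_ker_level]
    intro t ht
    rw [one_smul]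
    apply pow_smul_level
    rw [ht, h.f3]
  obtain ⟨w₁, h1⟩ := IsAlgClosed.exists_pow_nat_eq (1 + z) (n := 2 ^ N) (by positivity)
  obtain ⟨w₂, h2⟩ := IsAlgClosed.exists_pow_nat_eq (1 - z) (n := 2 ^ N) (by positivity)
  obtain ⟨w₃, h3⟩ := IsAlgClosed.exists_pow_nat_eq z (n := 2 ^ N) (by positivity)
  obtain ⟨η, hη⟩ := HasEnoughRootsOfUnity.exists_primitiveRoot Ω (2 ^ N)
  obtain ⟨α, -, -, hα⟩ := h.kummer h1 h2 h3 N le_rfl 1 1 η (one_pow _) (one_pow _) hη.pow_eq_one
  have inS : ∀ b : B, Rt N (-z) b → Rt N (1 + z) b → b ∈ S ⊔ commutator B := by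
    intro b r1 r2
    obtain ⟨γ, hγ, ha⟩ := U1 b r1 r2
    have : b = (b * γ⁻¹) * γ := by group
    rw [this]
    refine Subgroup.mul_mem_sup ?_ hγ
    rw [hS, mem_ker_level]
    intro t ht
    rw [mul_smul, ha _ (by rw [← smul_iter, ht, h.f3]), smul_inv_smul, one_smul]
  have inS' : ∀ b : B, Rt N z b → Rt N (1 - z) b → b ∈ S' ⊔ commutator B := by
    intro b r1 r2
    obtain ⟨γ, hγ, ha⟩ := U2 b (by rwa [neg_neg]) (by rwa [← sub_eq_add_neg])
    have : b = (b * γ⁻¹) * γ := by group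
    rw [this]
    refine Subgroup.mul_mem_sup ?_ hγ
    rw [hS', mem_ker_level]
    intro t ht
    rw [mul_smul, ha _ (by rw [← smul_iter, ht, fz']), smul_inv_smul, one_smul]
  have hgen : Subgroup.zpowers α ⊔ S ⊔ S' ⊔ commutator B = ⊤ := by
    rw [eq_top_iff]
    intro b _
    obtain ⟨β, hβ, hb⟩ := exists_ratio b h.n3.ne_zero h3 (h.f3 b)
    obtain ⟨m, -, rfl⟩ := hη.eq_pow_of_pow_eq_one hβ
    have hαm := pow_smul_eq α hα (h.mu α η N hη.pow_eq_one) m
    set b' := (α ^ m)⁻¹ * b with hb'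
    have e3 : b' • w₃ = w₃ := by
      rw [hb', mul_smul, inv_smul_eq_iff, hb, hαm]
    obtain ⟨ζ, hζ, hbζ⟩ := exists_ratio b' h.n1.ne_zero h1 (h.f1 b')
    obtain ⟨ρ, r1, r2, r3⟩ := h.kummer h1 h2 h3 N le_rfl ζ 1 1 hζ (one_pow _) (one_pow _)
    rw [one_mul] at r2 r3
    have m1 : ρ ∈ S' ⊔ commutator B :=
      inS' ρ (Rt.of_one h.mu h.n3.ne_zero h3 r3) (Rt.of_one h.mu h.n2.ne_zero h2 r2)
    have m2 : ρ⁻¹ * b' ∈ S ⊔ commutator B := by
      refine inS _ (Rt.neg_of_one h.mu h.n3.ne_zero h3 ?_) (Rt.of_one h.mu h.n1.ne_zero h1 ?_)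
      · rw [mul_smul, inv_smul_eq_iff, e3, r3]
      · rw [mul_smul, inv_smul_eq_iff, hbζ, r1]
    have : b = α ^ m * (ρ * (ρ⁻¹ * b')) := by rw [hb']; group
    rw [this]
    refine Subgroup.mul_mem _ ?_ (Subgroup.mul_mem _ ?_ ?_)
    · exact Subgroup.mem_sup_left (Subgroup.mem_sup_left (Subgroup.mem_sup_left
        (Subgroup.pow_mem _ (Subgroup.mem_zpowers α) m)))
    · exact (sup_le_sup_right le_sup_right _ : S' ⊔ commutator B ≤ _) m1
    · exact (sup_le_sup_right (le_sup_right.trans le_sup_left) _ : S ⊔ commutator B ≤ _) m2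
  intro γ hγ
  obtain ⟨γ', hγ', s, hs, rfl⟩ := Subgroup.mem_sup_of_normal_right.1
    (commutator_le_of_cyclic S S' N hp α hgen hγ)
  refine ⟨γ', hγ'.1, ?_, (mem_ker_level N _ fz' γ').1 hγ'.2⟩
  intro t ht
  rw [mul_smul, (mem_ker_level N _ h.f3 s).1 hs t ht, one_smul]

theorem coe_mem_commutator {A : Type} [Group A] {H : Subgroup A} {γ : H}
    (h : γ ∈ commutator H) : (γ : A) ∈ commutator A := by
  have : (γ : A) ∈ (commutator H).map H.subtype := ⟨γ, h, rfl⟩
  rw [Subgroup.map_subtype_commutator] at this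
  exact Subgroup.commutator_mono le_top le_top this

theorem ustmt [IsAlgClosed Ω] [CharZero Ω] (N : ℕ) :
    ∀ (A : Type) [Group A] [MulSemiringAction A Ω] (x : Ω), Good2 A x → UStmt N A x := by
  induction N with
  | zero =>
    intro A _ _ x h σ _ _
    refine ⟨1, one_mem _, fun t ht => ?_⟩
    rw [show t = x from ht, h.fix, h.fix]
  | succ N ih =>
    intro A _ _ x h σ r1 r2
    obtain ⟨z, hz⟩ := IsAlgClosed.exists_pow_nat_eq (1 + x) (n := 2) (by norm_num)
    have I := h.child hz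
    obtain ⟨τ, hτ⟩ := h.exists_swap hz
    have hτ' : τ⁻¹ • z = -z := by rw [inv_smul_eq_iff, smul_neg, hτ, neg_neg]
    obtain ⟨w₁, h1⟩ := IsAlgClosed.exists_pow_nat_eq (1 + z) (n := 2 ^ N) (by positivity)
    obtain ⟨w₂, h2⟩ := IsAlgClosed.exists_pow_nat_eq (1 - z) (n := 2 ^ N) (by positivity)
    obtain ⟨w₃, h3⟩ := IsAlgClosed.exists_pow_nat_eq z (n := 2 ^ N) (by positivity)
    have nz : ∀ {w u : Ω}, u ≠ 0 → w ^ (2 ^ N) = u → w ≠ 0 := by
      rintro w u hu hw rfl
      rw [zero_pow (by positivity)] at hw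
      exact hu hw.symm
    have w10 := nz I.n1.ne_zero h1
    have w20 := nz I.n2.ne_zero h2
    have s3 : σ • w₃ = w₃ := r2 w₃ (by rw [pow_succ, pow_mul, h3, hz])
    have sz : σ • z = z := by rw [← h3, smul_pow', s3]
    obtain ⟨ζ, hζ, s1⟩ := exists_ratio σ I.n1.ne_zero h1 (by rw [smul_add, smul_one, sz])
    have ζ0 : ζ ≠ 0 := nz one_ne_zero hζ
    have fζ : ∀ a : A, a • ζ = ζ := fun a => h.mu a ζ N hζ
    have s12 : σ • (w₁ * w₂) = w₁ * w₂ := by
      obtain ⟨v, hv⟩ := IsAlgClosed.exists_pow_nat_eq (w₁ * w₂) (n := 2) (by norm_num)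
      rw [← hv, smul_pow', r1 v]
      rw [pow_succ', pow_mul, hv, mul_pow, h1, h2]
      linear_combination -hz
    have s2 : σ • w₂ = ζ⁻¹ * w₂ := by
      rw [smul_mul', s1] at s12
      field_simp
      apply mul_left_cancel₀ w10
      linear_combination s12
    obtain ⟨ρ, p1, p2, p3⟩ := I.kummer h1 h2 h3 N le_rfl ζ 1 1 hζ (one_pow _) (one_pow _)
    rw [one_mul] at p2 p3
    have p1 : (ρ : A) • w₁ = ζ * w₁ := p1
    have p2 : (ρ : A) • w₂ = w₂ := p2
    have p3 : (ρ : A) • w₃ = w₃ := p3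
    set c : A := ⁅(ρ : A), τ⁆ with hc
    have hcA : c ∈ commutator A :=
      Subgroup.commutator_mem_commutator (Subgroup.mem_top _) (Subgroup.mem_top _)
    have c1 : c • w₁ = ζ * w₁ := by
      have : (ρ : A)⁻¹ • τ⁻¹ • w₁ = τ⁻¹ • w₁ := by
        rw [inv_smul_eq_iff]
        refine (Rt.of_one h.mu I.n2.ne_zero h2 p2 _ ?_).symm
        rw [← smul_pow', h1, smul_add, smul_one, hτ']; ring
      rw [hc, commutatorElement_def, mul_smul, mul_smul, mul_smul, this, smul_inv_smul, p1]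
    have c2 : c • w₂ = ζ⁻¹ * w₂ := by
      have : (ρ : A)⁻¹ • τ⁻¹ • w₂ = ζ⁻¹ * τ⁻¹ • w₂ := by
        refine same_ratio h.mu _ (k := N) w10 ?_ (inv_smul_eq _ p1 (fζ _) ζ0)
        rw [← smul_pow', h2, h1, smul_sub, smul_one, hτ']; ring
      rw [hc, commutatorElement_def, mul_smul, mul_smul, mul_smul, this, smul_mul', smul_inv_smul,
        smul_inv'', fζ, smul_mul', smul_inv'', fζ, p2]
    have c3 : c • w₃ = w₃ := by
      have : (ρ : A)⁻¹ • τ⁻¹ • w₃ = τ⁻¹ • w₃ := by
        rw [inv_smul_eq_iff]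
        refine (Rt.neg_of_one h.mu I.n3.ne_zero h3 p3 _ ?_).symm
        rw [← smul_pow', h3, hτ']
      rw [hc, commutatorElement_def, mul_smul, mul_smul, mul_smul, this, smul_inv_smul, p3]
    have q1 : (c⁻¹ * σ) • w₁ = w₁ := by rw [mul_smul, inv_smul_eq_iff, s1, c1]
    have q2 : (c⁻¹ * σ) • w₂ = w₂ := by rw [mul_smul, inv_smul_eq_iff, s2, c2]
    have q3 : (c⁻¹ * σ) • w₃ = w₃ := by rw [mul_smul, inv_smul_eq_iff, s3, c3]
    have qz : (c⁻¹ * σ) • z = z := by rw [← h3, smul_pow', q3]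
    let σ' : MulAction.stabilizer A z := ⟨c⁻¹ * σ, qz⟩
    have U1 := ih _ z I.good
    have U2 := ih _ (-z) I.neg.good
    obtain ⟨γ₁, hγ₁, a1⟩ := U1 σ' (Rt.neg_of_one I.mu I.n3.ne_zero h3 q3)
      (Rt.of_one I.mu I.n1.ne_zero h1 q1)
    obtain ⟨γ₂, hγ₂, a2⟩ := U2 σ' (by rw [neg_neg]; exact Rt.of_one I.mu I.n3.ne_zero h3 q3)
      (by rw [← sub_eq_add_neg]; exact Rt.of_one I.mu I.n2.ne_zero h2 q2)
    obtain ⟨δ₁, hδ₁, b1, b1'⟩ := branch I U1 U2 γ₁ hγ₁
    obtain ⟨δ₂, hδ₂, b2, b2'⟩ := branch I.neg U2 (by rw [neg_neg]; exact U1) γ₂ hγ₂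
    rw [neg_neg] at b2'
    refine ⟨c * ((δ₁ : A) * δ₂), Subgroup.mul_mem _ hcA
      (Subgroup.mul_mem _ (coe_mem_commutator hδ₁) (coe_mem_commutator hδ₂)), ?_⟩
    intro t ht
    have key : σ' • t = δ₁ • δ₂ • t := by
      rcases level_succ hz ht with e | e
      · rw [b2' t e, one_smul, b1 t e, a1 t e]
      · rw [b2 t e, ← a2 t e, b1' _ ?_, one_smul]
        rw [← smul_iter, e, smul_neg, I.f3]
    have key' : (c⁻¹ * σ) • t = (δ₁ : A) • (δ₂ : A) • t := key
    rw [mul_smul, inv_smul_eq_iff] at key'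
    rw [key', mul_smul, mul_smul]

/-- Lifting: an element of the commutator subgroup at a child extends by the identity on the
sibling subtree. -/
theorem lift_child [IsAlgClosed Ω] [CharZero Ω] {A : Type} [Group A] [MulSemiringAction A Ω]
    {x z : Ω} (h : Good2 A x) (hz : z ^ 2 = 1 + x) (N : ℕ) (γ : MulAction.stabilizer A z)
    (hγ : γ ∈ commutator (MulAction.stabilizer A z)) :
    ∃ δ ∈ commutator A, (∀ t : Ω, bf^[N] t = z → δ • t = γ • t) ∧
      ∀ t : Ω, bf^[N] t = -z → δ • t = t := by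
  have I := h.child hz
  obtain ⟨δ, hδ, b, b'⟩ := branch I (ustmt N _ z I.good) (ustmt N _ (-z) I.neg.good) γ hγ
  refine ⟨δ, coe_mem_commutator hδ, b, fun t ht => ?_⟩
  have := b' t ht
  rwa [one_smul] at this

end Pool.Agent.Lib.MP_dd5d2d_nt
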