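import Mathlib
import Pool.Agent.Lib.MP_dd5d2d_nt.Tree

/-! Elements of the Galois group that separate the quadratic characters of one level. -/

namespace Pool.Agent.Lib.MP_dd5d2d_nt

open scoped commutatorElement

variable {Ω : Type} [Field Ω] [IsAlgClosed Ω]

theorem exists_base {A : Type} [Group A] [MulSemiringAction A Ω] {x z : Ω} (h : Good2 A x)
    (hz : z ^ 2 = 1 + x) : ∃ c ∈ commutator A, (∀ w : Ω, bf^[2] w = x → c • w = -w) ∧
      ∀ s u : Ω, bf u = x → s ^ 2 = -u → c • s = s := by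
  have I := h.child hz
  obtain ⟨τ, hτ⟩ := h.exists_swap hz
  have hτ' : τ⁻¹ • z = -z := by rw [inv_smul_eq_iff, smul_neg, hτ, neg_neg]
  obtain ⟨w₁, h1⟩ := IsAlgClosed.exists_pow_nat_eq (1 + z) (n := 2) (by positivity)
  obtain ⟨w₂, h2⟩ := IsAlgClosed.exists_pow_nat_eq (1 - z) (n := 2) (by positivity)
  obtain ⟨w₃, h3⟩ := IsAlgClosed.exists_pow_nat_eq z (n := 2) (by positivity)
  obtain ⟨ρ, p1, p2, p3⟩ := I.signs h1 h2 h3 true false false
  simp only [sg, if_true, neg_mul, one_mul, Bool.false_eq_true, if_false] at p1 p2 p3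
  have p1 : (ρ : A) • w₁ = -w₁ := p1
  have p2 : (ρ : A) • w₂ = w₂ := p2
  have p3 : (ρ : A) • w₃ = w₃ := p3
  have r1 : ∀ w : Ω, w ^ 2 = 1 + z → (ρ : A) • w = -w := by
    intro w hw
    rcases sq_eq_sq_iff_eq_or_eq_neg.1 (hw.trans h1.symm) with rfl | rfl
    · exact p1
    · rw [smul_neg, p1]
  have r2 : ∀ w : Ω, w ^ 2 = 1 - z → (ρ : A) • w = w := by
    intro w hw
    rcases sq_eq_sq_iff_eq_or_eq_neg.1 (hw.trans h2.symm) with rfl | rfl
    · exact p2
    · rw [smul_neg, p2]
  have r3 : ∀ w : Ω, w ^ 2 = z ∨ w ^ 2 = -z → (ρ : A) • w = w := by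
    rintro w (hw | hw)
    · exact Rt.of_one (k := 1) h.mu I.n3.ne_zero (by simpa using h3) p3 w (by simpa using hw)
    · exact Rt.neg_of_one (k := 1) h.mu I.n3.ne_zero (by simpa using h3) p3 w (by simpa using hw)
  refine ⟨⁅(ρ : A), τ⁆,
    Subgroup.commutator_mem_commutator (Subgroup.mem_top _) (Subgroup.mem_top _), ?_, ?_⟩
  · intro w hw
    rw [commutatorElement_def, mul_smul, mul_smul, mul_smul]
    rcases level_succ (N := 1) hz hw with e | e
    · have e : w ^ 2 = 1 + z := by rw [← e]; simp [bf]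
      have : (ρ : A)⁻¹ • τ⁻¹ • w = τ⁻¹ • w := by
        rw [inv_smul_eq_iff]
        refine (r2 _ ?_).symm
        rw [← smul_pow', e, smul_add, smul_one, hτ']; ring
      rw [this, smul_inv_smul, r1 w e]
    · have e : w ^ 2 = 1 - z := by rw [sub_eq_add_neg, ← e]; simp [bf]
      have : (ρ : A)⁻¹ • τ⁻¹ • w = -(τ⁻¹ • w) := by
        rw [inv_smul_eq_iff, smul_neg, r1, neg_neg]
        rw [← smul_pow', e, smul_sub, smul_one, hτ']; ring
      rw [this, smul_neg, smul_inv_smul, smul_neg, r2 w e]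
  · intro s u hu hs
    rw [commutatorElement_def, mul_smul, mul_smul, mul_smul]
    have hs' : s ^ 2 = z ∨ s ^ 2 = -z := by
      rcases level_succ (N := 0) hz hu with e | e
      · right; rw [hs, ← e]; rfl
      · left; rw [hs, show u = -z from e, neg_neg]
    have : (ρ : A)⁻¹ • τ⁻¹ • s = τ⁻¹ • s := by
      rw [inv_smul_eq_iff]
      refine (r3 _ ?_).symm
      rw [← smul_pow']
      rcases hs' with e | e
      · right; rw [e, hτ']
      · left; rw [e, smul_neg, hτ', neg_neg]
    rw [this, smul_inv_smul, r3 s hs']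

omit [IsAlgClosed Ω] in
theorem sq_of_level {N : ℕ} {t x : Ω} (h : bf^[N + 1] t = x) : (bf^[N] t) ^ 2 = 1 + x := by
  rw [Function.iterate_succ_apply'] at h
  rw [← h, bf]; ring

variable [CharZero Ω]

theorem exists_swap_pair (m : ℕ) : ∀ (A : Type) [Group A] [MulSemiringAction A Ω] (x t : Ω),
    Good2 A x → bf^[m + 1] t = x → ∃ γ ∈ commutator A, ∀ w : Ω, bf^[m + 2] w = x →
      (bf (bf w) = bf t → γ • w = -w) ∧ (bf (bf w) ≠ bf t → γ • w = w) := by
  induction m with
  | zero =>
    intro A _ _ x t h ht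
    obtain ⟨c, hc, c1, -⟩ := exists_base h (sq_of_level ht)
    refine ⟨c, hc, fun w hw => ⟨fun _ => c1 w hw, fun hne => (hne ?_).elim⟩⟩
    exact hw.trans ht.symm
  | succ m ih =>
    intro A _ _ x t h ht
    have hz := sq_of_level ht
    set z := bf^[m + 1] t with hzt
    obtain ⟨γ, hγ, g⟩ := ih _ z t (h.child hz).good hzt.symm
    obtain ⟨δ, hδ, d1, d2⟩ := lift_child h hz (m + 2) γ hγ
    refine ⟨δ, hδ, fun w hw => ?_⟩
    rcases level_succ hz hw with e | e
    · rw [d1 w e]; exact g w e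
    · refine ⟨fun hb => ?_, fun _ => d2 w e⟩
      exfalso
      have e' : bf^[m + 2] w = z := by
        rw [Function.iterate_succ_apply, Function.iterate_succ_apply, hb, hzt,
          Function.iterate_succ_apply]
      have hz0 : z ≠ 0 := (h.child hz).n3.ne_zero
      apply hz0
      have : (2 : Ω) * z = 0 := by linear_combination e - e'
      simpa using this

theorem exists_sep_sibling (m : ℕ) : ∀ (A : Type) [Group A] [MulSemiringAction A Ω] (x t : Ω),
    Good2 A x → bf^[m + 3] t = x → ∃ γ ∈ commutator A, (∀ t' : Ω, bf^[m + 3] t' = x → γ • t' = t') ∧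
      ∀ w w' : Ω, bf w = t → bf w' = -t → γ • (w * w') = -(w * w') := by
  induction m with
  | zero =>
    intro A _ _ x t h ht
    have hz := sq_of_level ht
    obtain ⟨c, hc, c1, c2⟩ := exists_base h hz
    have u0 : ∀ u : Ω, bf u = x → u ≠ 0 := by
      rintro u hu rfl
      exact h.n2.ne_zero (by rw [← hu]; simp [bf])
    refine ⟨c * c, Subgroup.mul_mem _ hc hc, fun t₁ ht₁ => ?_, fun w w' hw hw' => ?_⟩
    · set v := bf t₁ with hv
      have cv : c • v = -v := c1 v ht₁
      obtain ⟨t₂, h2⟩ := IsAlgClosed.exists_pow_nat_eq (1 - v) (n := 2) (by positivity)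
      have h1 : t₁ ^ 2 = 1 + v := by rw [hv, bf]; ring
      have hp : (t₁ * t₂) ^ 2 = -bf v := by rw [mul_pow, h1, h2, bf]; ring
      have f12 := c2 _ (bf v) ht₁ hp
      have t20 : t₂ ≠ 0 := by
        rintro rfl
        exact u0 (bf v) ht₁ (by simpa using hp)
      have : (c • t₁) ^ 2 = t₂ ^ 2 := by
        rw [← smul_pow', h1, h2, smul_add, smul_one, cv]; ring
      rw [smul_mul'] at f12
      rcases sq_eq_sq_iff_eq_or_eq_neg.1 this with e | e
      · rw [e] at f12
        rw [mul_smul, e]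
        exact mul_left_cancel₀ t20 (by rw [f12]; ring)
      · rw [e] at f12
        rw [mul_smul, e, smul_neg]
        exact mul_left_cancel₀ t20 (by linear_combination f12)
    · set v := bf t with hv
      have cv : c • v = -v := c1 v ht
      set s := w * w' with hs
      have hs2 : s ^ 2 = -v := by
        have e1 : w ^ 2 = 1 + t := by rw [← hw, bf]; ring
        have e2 : w' ^ 2 = 1 - t := by rw [sub_eq_add_neg, ← hw', bf]; ring
        rw [hs, mul_pow, e1, e2, hv, bf]; ring
      by_cases s0 : s = 0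
      · rw [s0]; simp
      have hi : (c • s / s) ^ 2 = -1 := by
        rw [div_pow, ← smul_pow', hs2, smul_neg, cv, neg_neg]
        have : v ≠ 0 := by
          intro h0
          rw [h0, neg_zero] at hs2
          exact s0 (by simpa using hs2)
        field_simp
      have fi : c • (c • s / s) = c • s / s := by
        apply h.mu c _ 2
        rw [show (2 : ℕ) ^ 2 = 2 * 2 by norm_num, pow_mul, hi]; ring
      have e : c • s = c • s / s * s := by field_simp
      have := pow_smul_eq c e fi 2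
      rw [hi, pow_two] at this
      rw [this]; ring
  | succ m ih =>
    intro A _ _ x t h ht
    have hz := sq_of_level ht
    set z := bf^[m + 3] t with hzt
    obtain ⟨γ, hγ, g1, g2⟩ := ih _ z t (h.child hz).good hzt.symm
    obtain ⟨δ, hδ, d1, d2⟩ := lift_child h hz (m + 4) γ hγ
    refine ⟨δ, hδ, fun t' ht' => ?_, fun w w' hw hw' => ?_⟩
    · obtain ⟨w, hw⟩ := IsAlgClosed.exists_pow_nat_eq (1 + t') (n := 2) (by positivity)
      have e : bf w = t' := by rw [bf, hw]; ring
      rcases level_succ hz ht' with e' | e'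
      · have := d1 w (by rw [Function.iterate_succ_apply, e, e'])
        rw [← e, smul_bf, this, ← smul_bf, e, g1 t' e']
      · have := d2 w (by rw [Function.iterate_succ_apply, e, e'])
        rw [← e, smul_bf, this]
    · rw [smul_mul', d1 w (by rw [Function.iterate_succ_apply, hw]), d1 w' ?_, ← smul_mul',
        g2 w w' hw hw']
      have e : bf (-t) = bf t := by simp [bf]
      rw [Function.iterate_succ_apply, hw', Function.iterate_succ_apply, e,
        ← Function.iterate_succ_apply]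

/-- The two separation properties at every level `m + 3`. -/
theorem separation {A : Type} [Group A] [MulSemiringAction A Ω] {x : Ω} (h : Good2 A x) (m : ℕ) :
    (∀ w : Ω, bf^[m + 4] w = x → ∃ σ : A, (∀ t : Ω, bf^[m + 3] t = x → σ • t = t) ∧ σ • w = -w) ∧
    ∀ w w' : Ω, bf^[m + 4] w = x → bf^[m + 4] w' = x → bf w ≠ bf w' →
      ∃ σ : A, (∀ t : Ω, bf^[m + 3] t = x → σ • t = t) ∧ σ • (w * w') = -(w * w') := by
  have key : ∀ w : Ω, bf^[m + 4] w = x → ∃ σ : A, (∀ t : Ω, bf^[m + 3] t = x → σ • t = t) ∧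
      σ • w = -w ∧ ∀ w' : Ω, bf^[m + 4] w' = x → bf (bf w') ≠ bf (bf w) → σ • w' = w' := by
    intro w hw
    obtain ⟨γ, -, g⟩ := exists_swap_pair (m + 2) A x (bf w) h hw
    refine ⟨γ, fun t ht => ?_, (g w hw).1 rfl, fun w' hw' hne => (g w' hw').2 hne⟩
    obtain ⟨v, hv⟩ := IsAlgClosed.exists_pow_nat_eq (1 + t) (n := 2) (by positivity)
    have e : bf v = t := by rw [bf, hv]; ring
    have g' := g v (by rw [Function.iterate_succ_apply, e, ht])
    rw [← e, smul_bf]
    by_cases hb : bf (bf v) = bf (bf w)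
    · rw [g'.1 hb]; simp [bf]
    · rw [g'.2 hb]
  refine ⟨fun w hw => ?_, fun w w' hw hw' hne => ?_⟩
  · obtain ⟨σ, a, b, -⟩ := key w hw
    exact ⟨σ, a, b⟩
  · by_cases hb : bf (bf w') = bf (bf w)
    · have : bf w' = -bf w := by
        have : (bf w') ^ 2 = (bf w) ^ 2 := by simpa [bf] using hb
        exact (sq_eq_sq_iff_eq_or_eq_neg.1 this).resolve_left hne.symm
      obtain ⟨γ, -, g1, g2⟩ := exists_sep_sibling m A x (bf w) h hw
      exact ⟨γ, g1, g2 w w' rfl this⟩
    · obtain ⟨σ, a, b, c⟩ := key w hw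
      exact ⟨σ, a, by rw [smul_mul', b, c w' hw' hb]; ring⟩

end Pool.Agent.Lib.MP_dd5d2d_nt
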