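import Mathlib
import Pool.Agent.Lib.MP_dd5d2d_nt.Swap

/-! The second preimages of `1` under `x ^ 2 - 1` are generic root points over the maximal
abelian extension of `ℚ`. -/

namespace Pool.Agent.Lib.MP_dd5d2d_nt

open scoped commutatorElement

variable {Ω : Type} [Field Ω] [CharZero Ω] [IsAlgClosed Ω] [Normal ℚ Ω]

omit [IsAlgClosed Ω] in
theorem exists_aut {ζ : Ω} (h : IsPrimitiveRoot ζ 16) (k : ℕ) (hk : k.Coprime 16) :
    ∃ g : Ω ≃ₐ[ℚ] Ω, g • ζ = ζ ^ k := by
  have : IsConjRoot ℚ (ζ ^ k) ζ := by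
    rw [isConjRoot_def, ← Polynomial.cyclotomic_eq_minpoly_rat h (by norm_num),
      ← Polynomial.cyclotomic_eq_minpoly_rat (h.pow_of_coprime k hk) (by norm_num)]
  exact this.exists_algEquiv

omit [Normal ℚ Ω] in
theorem fixMu_commutator : FixMu (commutator (Ω ≃ₐ[ℚ] Ω)) Ω := by
  intro a η k hη
  have : commutator (Ω ≃ₐ[ℚ] Ω) ≤ MulAction.stabilizer (Ω ≃ₐ[ℚ] Ω) η := by
    rw [commutator_def, Subgroup.commutator_le]
    intro g _ g' _
    obtain ⟨μ, hμ⟩ := HasEnoughRootsOfUnity.exists_primitiveRoot Ω (2 ^ k)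
    obtain ⟨m, -, rfl⟩ := hμ.eq_pow_of_pow_eq_one hη
    obtain ⟨a, -, ha⟩ := hμ.eq_pow_of_pow_eq_one (ξ := g • μ)
      (by rw [← smul_pow', hμ.pow_eq_one, smul_one])
    obtain ⟨b, -, hb⟩ := hμ.eq_pow_of_pow_eq_one (ξ := g' • μ)
      (by rw [← smul_pow', hμ.pow_eq_one, smul_one])
    have e : (g * g') • μ = (g' * g) • μ := by
      rw [mul_smul, mul_smul, ← ha, ← hb, smul_pow', smul_pow', ← ha, ← hb, ← pow_mul, ← pow_mul,
        mul_comm]
    have hg : g⁻¹ • g'⁻¹ • μ = g'⁻¹ • g⁻¹ • μ := by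
      obtain ⟨a', -, ha'⟩ := hμ.eq_pow_of_pow_eq_one (ξ := g⁻¹ • μ)
        (by rw [← smul_pow', hμ.pow_eq_one, smul_one])
      obtain ⟨b', -, hb'⟩ := hμ.eq_pow_of_pow_eq_one (ξ := g'⁻¹ • μ)
        (by rw [← smul_pow', hμ.pow_eq_one, smul_one])
      rw [← ha', ← hb', smul_pow', smul_pow', ← ha', ← hb', ← pow_mul, ← pow_mul, mul_comm]
    rw [MulAction.mem_stabilizer_iff, smul_pow', commutatorElement_def, mul_smul, mul_smul,
      mul_smul, hg, smul_inv_smul, smul_inv_smul]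
  exact this a.2

omit [CharZero Ω] [IsAlgClosed Ω] [Normal ℚ Ω] in
theorem trace_fixed {A : Type} [Group A] [MulSemiringAction A Ω] {z w : Ω}
    (hA : ∀ a : A, a • z = z ∨ a • z = -z) {τ : A} (hτ : τ • z = -z)
    (hw : ∀ b : MulAction.stabilizer A z, b • w = w) (a : A) : a • (w + τ • w) = w + τ • w := by
  have h1 := norm_fixed hA hτ hw a
  have h2 := norm_fixed (w := 1 + w) hA hτ (fun b => by rw [smul_add, smul_one, hw]) a
  have e : w + τ • w = (1 + w) * τ • (1 + w) - 1 - w * τ • w := by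
    rw [smul_add, smul_one]; ring
  rw [e, smul_sub, smul_sub, h1, h2, smul_one]

theorem good_level_two {y : Ω} (hy : bf^[2] y = 1) :
    Good2 (MulAction.stabilizer (commutator (Ω ≃ₐ[ℚ] Ω)) y) y := by
  set z := bf y with hzy
  have hz : z ^ 2 = 2 := by
    have : bf z = 1 := hy
    rw [bf] at this
    linear_combination this
  have hy2 : y ^ 2 = 1 + z := by rw [hzy, bf]; ring
  obtain ⟨ζ, hζ, hzζ⟩ : ∃ ζ : Ω, IsPrimitiveRoot ζ 16 ∧ z = ζ ^ 2 + ζ ^ 14 := by
    obtain ⟨ζ, hζ⟩ := HasEnoughRootsOfUnity.exists_primitiveRoot Ω 16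
    have h8 : ζ ^ 8 = -1 := (hζ.pow (by norm_num) (show 16 = 8 * 2 by norm_num)).eq_neg_one_of_two_right
    have : z ^ 2 = (ζ ^ 2 + ζ ^ 14) ^ 2 := by
      rw [hz]
      linear_combination (-(ζ ^ 20) + ζ ^ 12 - 2 * ζ ^ 8 - ζ ^ 4 + 2) * h8
    rcases sq_eq_sq_iff_eq_or_eq_neg.1 this with e | e
    · exact ⟨ζ, hζ, e⟩
    · refine ⟨ζ ^ 3, hζ.pow_of_coprime 3 (by norm_num), ?_⟩
      rw [e]
      linear_combination (-(ζ ^ 34) + ζ ^ 26 - ζ ^ 18 + ζ ^ 10 - ζ ^ 6 - ζ ^ 2) * h8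
  have h8 : ζ ^ 8 = -1 := (hζ.pow (by norm_num) (show 16 = 8 * 2 by norm_num)).eq_neg_one_of_two_right
  have mu : FixMu (commutator (Ω ≃ₐ[ℚ] Ω)) Ω := fixMu_commutator
  have fζ : ∀ a : commutator (Ω ≃ₐ[ℚ] Ω), a • ζ = ζ := fun a => mu a ζ 4 hζ.pow_eq_one
  have fz : ∀ a : commutator (Ω ≃ₐ[ℚ] Ω), a • z = z := by
    intro a; rw [hzζ, smul_add, smul_pow', smul_pow', fζ]
  set s := ζ + ζ ^ 15 with hs
  have fs : ∀ a : commutator (Ω ≃ₐ[ℚ] Ω), a • s = s := by
    intro a; rw [hs, smul_add, smul_pow', fζ]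
  have hs2 : s ^ 2 = 2 + z := by
    rw [hs, hzζ]
    linear_combination (ζ ^ 22 - ζ ^ 14 + 2 * ζ ^ 8 - 2) * h8
  have z0 : z ≠ 0 := by
    intro h; rw [h] at hz; norm_num at hz
  have s0 : s ≠ 0 := by
    intro h
    rw [h] at hs2
    have : z = -2 := by linear_combination -hs2
    rw [this] at hz; norm_num at hz
  have nz : NS (commutator (Ω ≃ₐ[ℚ] Ω)) z := by
    intro w hw
    by_contra hc
    push Not at hc
    obtain ⟨ρ, hρ⟩ := exists_aut hζ 3 (by norm_num)
    obtain ⟨c, hc'⟩ := exists_aut hζ 15 (by norm_num)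
    have ρz : ρ • z = -z := by
      rw [hzζ, smul_add, smul_pow', smul_pow', hρ]
      linear_combination (ζ ^ 34 - ζ ^ 26 + ζ ^ 18 - ζ ^ 10 + ζ ^ 6 + ζ ^ 2) * h8
    have h16 : ζ ^ 16 = 1 := hζ.pow_eq_one
    have cz : c • z = z := by
      rw [hzζ, smul_add, smul_pow', smul_pow', hc', ← pow_mul, ← pow_mul,
        show 15 * 2 = 16 * 1 + 14 by norm_num, show 15 * 14 = 16 * 13 + 2 by norm_num,
        pow_add, pow_add, pow_mul, pow_mul, h16]
      ring
    have ci : c • ζ ^ 4 = -ζ ^ 4 := by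
      rw [smul_pow', hc', ← pow_mul, show 15 * 4 = 16 * 3 + (8 + 4) by norm_num, pow_add, pow_add,
        pow_mul, h16, h8]
      ring
    have comm : ρ • c • w = c • ρ • w := by
      have := hc ⟨⁅ρ⁻¹, c⁻¹⁆,
        Subgroup.commutator_mem_commutator (Subgroup.mem_top _) (Subgroup.mem_top _)⟩
      have this : ⁅ρ⁻¹, c⁻¹⁆ • w = w := this
      rw [commutatorElement_def, inv_inv, inv_inv, mul_smul, mul_smul, mul_smul, inv_smul_eq_iff,
        inv_smul_eq_iff] at this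
      exact this
    have w0 : w ≠ 0 := by
      rintro rfl
      exact z0 (by simpa using hw.symm)
    have i0 : ζ ^ 4 ≠ 0 := pow_ne_zero _ (hζ.ne_zero (by norm_num))
    have hρw : (ρ • w) ^ 2 = (ζ ^ 4 * w) ^ 2 := by
      rw [← smul_pow', hw, ρz, mul_pow, hw, ← pow_mul, h8]; ring
    have : (2 : Ω) * (ζ ^ 4 * w) = 0 := by
      rcases smul_sq_cases c hw cz with e | e <;>
        rcases sq_eq_sq_iff_eq_or_eq_neg.1 hρw with e' | e' <;>
        simp only [e, e', smul_neg, smul_mul', ci] at comm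
      · linear_combination comm
      · linear_combination -comm
      · linear_combination -comm
      · linear_combination comm
    simp [i0, w0] at this
  have nz1 : NS (commutator (Ω ≃ₐ[ℚ] Ω)) (1 + z) := by
    refine nz.of_mul_sq (c := s / z) (fun a => ?_) (div_ne_zero s0 z0) ?_
    · rw [div_eq_mul_inv, smul_mul', smul_inv'', fs, fz]
    · rw [div_pow, hs2]; field_simp; linear_combination hz
  have hA : ∀ a : commutator (Ω ≃ₐ[ℚ] Ω), a • y = y ∨ a • y = -y := fun a =>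
    smul_sq_cases a hy2 (by rw [smul_add, smul_one, fz])
  obtain ⟨τ, hτ⟩ := nz1 y hy2
  have hτ : τ • y = -y := (hA τ).resolve_left hτ
  refine ⟨fun b η k hη => mu b η k hη, fun b => b.2, ?_, ?_, ?_⟩
  · apply NS_stab hA hτ
    convert nz1.neg mu using 1
    rw [smul_neg, hτ, ← hy2]; ring
  · apply NS_stab hA hτ
    convert nz.neg mu using 1
    rw [smul_add, smul_one, hτ]; linear_combination -hy2
  · intro w hw
    by_contra hc
    push Not at hc
    have hτw : (τ • w) ^ 2 = y * (1 - y) := by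
      rw [← smul_pow', hw, smul_mul', smul_neg, smul_add, smul_one, hτ]; ring
    set N := w * τ • w with hN
    have hN2 : N ^ 2 = s ^ 2 := by
      rw [hN, mul_pow, hw, hτw, hs2]
      linear_combination (y ^ 2 + z) * hy2 + hz
    set v := w + τ • w with hv
    have fv : ∀ a : commutator (Ω ≃ₐ[ℚ] Ω), a • v = v := trace_fixed hA hτ hc
    have hv2 : v ^ 2 = -2 * (1 + z) + 2 * N := by
      rw [hv, hN]
      linear_combination hw + hτw - 2 * hy2
    obtain ⟨g, hg⟩ := exists_aut hζ 9 (by norm_num)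
    have hg : g • ζ = -ζ := by rw [hg]; linear_combination ζ * h8
    have gz : g • z = z := by rw [hzζ, smul_add, smul_pow', smul_pow', hg]; ring
    have gs : g • s = -s := by rw [hs, smul_add, smul_pow', hg]; ring
    have gN : g • N = -N := by
      rcases sq_eq_sq_iff_eq_or_eq_neg.1 hN2 with e | e
      · rw [e, gs]
      · rw [e, smul_neg, gs]
    have fgv : ∀ a : commutator (Ω ≃ₐ[ℚ] Ω), a • g • v = g • v := by
      intro a
      have := fv ⟨g⁻¹ * a * g, Subgroup.Normal.conj_mem' inferInstance _ a.2 g⟩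
      have this : (g⁻¹ * a * g) • v = v := this
      rw [mul_smul, mul_smul, inv_smul_eq_iff] at this
      exact this
    have hgv : (g • v) ^ 2 = -2 * (1 + z) - 2 * N := by
      have e : -2 * (1 + z) + 2 * N = -(1 + z) - (1 + z) + N + N := by ring
      rw [← smul_pow', hv2, e, smul_add, smul_add, smul_sub, smul_neg, smul_add, smul_one, gz, gN]
      ring
    have n4 : NS (commutator (Ω ≃ₐ[ℚ] Ω)) ((1 + z) * (1 + 1) ^ 2) :=
      nz1.of_mul_sq (fun a => by rw [smul_add, smul_one]) (by norm_num) rfl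
    obtain ⟨a, ha⟩ := n4 (v * g • v) (by
      rw [mul_pow, hv2, hgv]
      linear_combination -4 * hN2 - 4 * hs2 + 4 * hz)
    exact ha (by rw [smul_mul', fv, fgv])

end Pool.Agent.Lib.MP_dd5d2d_nt
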