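import Mathlib
import Pool.Agent.Lib.MP_dd5d2d_nt.Tree

/-! The fixed point process of a finite group acting on a preimage tree: a martingale with
pairwise independent increments dies out. -/

namespace Pool.Agent.Lib.MP_dd5d2d_nt

open Finset

theorem sum_eq_zero_of_neg {H : Type*} [Group H] [Fintype H] (χ : H → ℝ) (h₀ : H)
    (h : ∀ a, χ (h₀ * a) = -χ a) : ∑ a, χ a = 0 := by
  have : ∑ a, χ a = ∑ a, χ (h₀ * a) := (Fintype.sum_equiv (Equiv.mulLeft h₀) _ _ fun _ => rfl).symm
  simp only [h, sum_neg_distrib] at this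
  linarith

theorem sum_coset {G : Type*} [Group G] [Fintype G] (H : Subgroup G) [Fintype H] (F : G → ℝ) :
    ∑ σ : G, ∑ a : H, F (σ * a) = Fintype.card H * ∑ σ, F σ := by
  rw [sum_comm]
  have : ∀ a : H, ∑ σ : G, F (σ * a) = ∑ σ, F σ := fun a =>
    Fintype.sum_equiv (Equiv.mulRight (a : G)) _ _ fun _ => rfl
  simp [this]

/-- The gain of the potential. -/
noncomputable def gain (k : ℝ) : ℝ := k / ((k + 1) ^ 2 * (2 * k + 1))

theorem potential {G : Type*} [Fintype G] [DecidableEq G] (X : ℕ → G → ℕ) (L T : ℕ) (B : ℝ)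
    (hT : 0 < T)
    (h0 : ∑ σ, (X 0 σ : ℝ) ≤ B)
    (h1 : ∀ m < L, ∑ σ, 1 / ((X m σ : ℝ) + 1) + ∑ σ, gain (X m σ) ≤
      ∑ σ, 1 / ((X (m + 1) σ : ℝ) + 1))
    (h2 : ∀ m < L, ∑ σ, (X (m + 1) σ : ℝ) = ∑ σ, (X m σ : ℝ))
    (h3 : ∀ m < L, ∀ σ, 0 < X (m + 1) σ → 0 < X m σ) :
    (L : ℝ) * (univ.filter fun σ => 0 < X L σ).card ≤
      L * (B / T) + ((T : ℝ) + 1) ^ 2 * (2 * T + 1) * Fintype.card G := by
  have hT' : (0 : ℝ) < T := by exact_mod_cast hT
  set C : ℝ := ((T : ℝ) + 1) ^ 2 * (2 * T + 1) with hC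
  have C0 : 0 < C := by positivity
  have a1 : ∀ m ≤ L, ∑ σ, (X m σ : ℝ) ≤ B := by
    intro m
    induction m with
    | zero => exact fun _ => h0
    | succ m ih => intro hm; rw [h2 m hm]; exact ih (by omega)
  have a2 : ∀ d m, m + d = L → ∀ σ, 0 < X L σ → 0 < X m σ := by
    intro d
    induction d with
    | zero => rintro m rfl σ h; exact h
    | succ d ih => intro m hm σ h; exact h3 m (by omega) σ (ih (m + 1) (by omega) σ h)
  have a3 : ∀ m ≤ L, ∑ j ∈ range m, ∑ σ, gain (X j σ) ≤ ∑ σ, 1 / ((X m σ : ℝ) + 1) := by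
    intro m
    induction m with
    | zero => intro _; simp only [range_zero, sum_empty]; positivity
    | succ m ih =>
      intro hm
      rw [sum_range_succ]
      have := h1 m hm
      have := ih (by omega)
      linarith
  have a4 : ∑ σ, 1 / ((X L σ : ℝ) + 1) ≤ Fintype.card G := by
    calc _ ≤ ∑ _σ : G, (1 : ℝ) := sum_le_sum fun σ _ => by
          rw [div_le_one (by positivity)]
          have : (0 : ℝ) ≤ X L σ := by positivity
          linarith
      _ = _ := by simp
  have a5 : ∀ k : ℕ, (if 0 < k then (1 : ℝ) else 0) ≤ k / T + C * gain k := by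
    intro k
    have k0 : (0 : ℝ) ≤ k := by positivity
    have g0 : 0 ≤ gain k := by unfold gain; positivity
    split_ifs with hk
    · by_cases hkT : T ≤ k
      · have : (1 : ℝ) ≤ k / T := by
          rw [le_div_iff₀ hT', one_mul]; exact_mod_cast hkT
        have := mul_nonneg C0.le g0
        linarith
      · have hk1 : (1 : ℝ) ≤ k := by exact_mod_cast hk
        have hk2 : (k : ℝ) ≤ T := by exact_mod_cast (not_le.1 hkT).le
        have : 1 ≤ C * gain k := by
          unfold gain
          rw [← mul_div_assoc, le_div_iff₀ (by positivity), one_mul]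
          calc ((k : ℝ) + 1) ^ 2 * (2 * k + 1) ≤ C := by rw [hC]; gcongr
            _ ≤ C * k := le_mul_of_one_le_right C0.le hk1
        have : (0 : ℝ) ≤ k / T := by positivity
        linarith
    · positivity
  have a6 : ∀ m < L, ((univ.filter fun σ => 0 < X L σ).card : ℝ) ≤
      B / T + C * ∑ σ, gain (X m σ) := by
    intro m hm
    calc ((univ.filter fun σ => 0 < X L σ).card : ℝ)
        = ∑ σ, (if 0 < X L σ then (1 : ℝ) else 0) := by simp
      _ ≤ ∑ σ, ((X m σ : ℝ) / T + C * gain (X m σ)) := by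
          refine sum_le_sum fun σ _ => le_trans ?_ (a5 _)
          split_ifs with c1 c2
          · exact le_rfl
          · exact (c2 (a2 (L - m) m (by omega) σ c1)).elim
          · norm_num
          · exact le_rfl
      _ = (∑ σ, (X m σ : ℝ)) / T + C * ∑ σ, gain (X m σ) := by
          rw [sum_add_distrib, sum_div, mul_sum]
      _ ≤ _ := by gcongr; exact a1 m hm.le
  calc (L : ℝ) * (univ.filter fun σ => 0 < X L σ).card
      = ∑ _m ∈ range L, ((univ.filter fun σ => 0 < X L σ).card : ℝ) := by simp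
    _ ≤ ∑ m ∈ range L, (B / T + C * ∑ σ, gain (X m σ)) :=
        sum_le_sum fun m hm => a6 m (mem_range.1 hm)
    _ = L * (B / T) + C * ∑ m ∈ range L, ∑ σ, gain (X m σ) := by
        rw [sum_add_distrib, ← mul_sum]; simp
    _ ≤ _ := by gcongr; exact (a3 L le_rfl).trans a4

variable {K : Type} [Field K]

/-- The `n`-th preimages of `y`. -/
noncomputable def lev (n : ℕ) (y : K) : Finset K := (finite_level n y).toFinset

theorem mem_lev {n : ℕ} {y t : K} : t ∈ lev n y ↔ bf^[n] t = y := by simp [lev]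

variable {G : Type} [Group G] [MulSemiringAction G K]

open scoped Classical in
/-- The number of fixed `n`-th preimages. -/
noncomputable def fixc (n : ℕ) (y : K) (σ : G) : ℕ := ((lev n y).filter fun t => σ • t = t).card

theorem fixc_pos {n : ℕ} {y : K} {σ : G} : 0 < fixc n y σ ↔ ∃ t, bf^[n] t = y ∧ σ • t = t := by
  classical
  simp [fixc, card_pos, Finset.Nonempty, mem_lev]

theorem fixc_pos_succ {n : ℕ} {y : K} {σ : G} (h : 0 < fixc (n + 1) y σ) : 0 < fixc n y σ := by
  obtain ⟨t, ht, e⟩ := fixc_pos.1 h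
  exact fixc_pos.2 ⟨bf t, ht, by rw [smul_bf, e]⟩

theorem card_lev (n : ℕ) : ∀ y : K, (lev n y).card ≤ 2 ^ n := by
  classical
  induction n with
  | zero =>
    intro y
    have : lev 0 y = {y} := by ext t; simp [mem_lev]
    simp [this]
  | succ n ih =>
    intro y
    by_cases h : ∃ z : K, z ^ 2 = 1 + y
    · obtain ⟨z, hz⟩ := h
      have : lev (n + 1) y ⊆ lev n z ∪ lev n (-z) := by
        intro t ht
        simpa [mem_lev] using level_succ hz (mem_lev.1 ht)
      have h1 := ih z
      have h2 := ih (-z)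
      have h3 := card_union_le (lev n z) (lev n (-z))
      have h4 := card_le_card this
      rw [pow_succ]; omega
    · have : lev (n + 1) y = ∅ := by
        rw [eq_empty_iff_forall_notMem]
        intro t ht
        rw [mem_lev, Function.iterate_succ_apply'] at ht
        exact h ⟨bf^[n] t, by rw [← ht, bf]; ring⟩
      simp [this]

theorem one_step [CharZero K] [Fintype G] (n : ℕ) (y : K)
    (hr : ∀ t : K, bf^[n] t = y → ∃ w, bf w = t)
    (h0 : ∀ w : K, bf^[n + 1] w = y → w ≠ 0)
    (hA : ∀ w : K, bf^[n + 1] w = y → ∃ σ : G, (∀ t : K, bf^[n] t = y → σ • t = t) ∧ σ • w = -w)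
    (hB : ∀ w w' : K, bf^[n + 1] w = y → bf^[n + 1] w' = y → bf w ≠ bf w' →
      ∃ σ : G, (∀ t : K, bf^[n] t = y → σ • t = t) ∧ σ • (w * w') = -(w * w')) :
    (∑ σ : G, 1 / ((fixc n y σ : ℝ) + 1) + ∑ σ : G, gain (fixc n y σ) ≤
      ∑ σ : G, 1 / ((fixc (n + 1) y σ : ℝ) + 1)) ∧
    ∑ σ : G, (fixc (n + 1) y σ : ℝ) = ∑ σ : G, (fixc n y σ : ℝ) := by
  classical
  choose! w hw using hr
  have hwl : ∀ t, bf^[n] t = y → bf^[n + 1] (w t) = y := fun t ht => by
    rw [Function.iterate_succ_apply, hw t ht, ht]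
  have hw2 : ∀ t, bf^[n] t = y → (w t) ^ 2 = 1 + t := fun t ht => by
    have := hw t ht
    rw [bf] at this
    linear_combination this
  have hne : ∀ t, bf^[n] t = y → -w t ≠ w t := fun t ht h => by
    apply h0 _ (hwl t ht)
    have : (2 : K) * w t = 0 := by linear_combination -h
    simpa using this
  let H : Subgroup G := fixingSubgroup G {t | bf^[n] t = y}
  have memH : ∀ a : G, a ∈ H ↔ ∀ t : K, bf^[n] t = y → a • t = t := fun a =>
    mem_fixingSubgroup_iff G
  let e : G → K → ℝ := fun σ t => if σ • w t = w t then 1 else -1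
  let F : G → Finset K := fun σ => (lev n y).filter fun t => σ • t = t
  have cases : ∀ (σ : G) t, bf^[n] t = y → σ • t = t → σ • w t = w t ∨ σ • w t = -w t :=
    fun σ t ht h => smul_sq_cases σ (hw2 t ht) (by rw [smul_add, smul_one, h])
  have emul : ∀ (σ a : G) t, bf^[n] t = y → σ • t = t → a • t = t →
      e (σ * a) t = e σ t * e a t := by
    intro σ a t ht h1 h2
    have := hne t ht
    rcases cases σ t ht h1 with c1 | c1 <;> rcases cases a t ht h2 with c2 | c2 <;>
      simp [e, mul_smul, c1, c2, this]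
  have esq : ∀ σ t, e σ t * e σ t = 1 := by
    intro σ t; simp only [e]; split_ifs <;> norm_num
  have ele : ∀ σ a t, e σ t * e a t ≤ 1 := by
    intro σ a t; simp only [e]; split_ifs <;> norm_num
  have count : ∀ σ : G, (fixc (n + 1) y σ : ℝ) = ∑ t ∈ F σ, (1 + e σ t) := by
    intro σ
    have : fixc (n + 1) y σ = ∑ t ∈ F σ,
        (((lev (n + 1) y).filter fun v => σ • v = v).filter fun v => bf v = t).card := by
      rw [fixc]
      apply card_eq_sum_card_fiberwise
      intro v hv
      simp only [coe_filter, Set.mem_ofPred_eq, mem_lev, F] at hv ⊢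
      exact ⟨hv.1, by rw [smul_bf, hv.2]⟩
    rw [this, Nat.cast_sum]
    refine sum_congr rfl fun t ht => ?_
    have ht : bf^[n] t = y := mem_lev.1 (mem_filter.1 ht).1
    have pm : ∀ v, bf v = t → v = w t ∨ v = -w t := fun v hv => by
      apply sq_eq_sq_iff_eq_or_eq_neg.1
      rw [hw2 t ht, ← hv, bf]; ring
    by_cases c : σ • w t = w t
    · have : (((lev (n + 1) y).filter fun v => σ • v = v).filter fun v => bf v = t) =
          {w t, -w t} := by
        ext v
        simp only [mem_filter, mem_lev, mem_insert, mem_singleton]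
        constructor
        · exact fun h => pm v h.2
        · rintro (rfl | rfl)
          · exact ⟨⟨hwl t ht, c⟩, hw t ht⟩
          · have : bf (-w t) = t := by
              have := hw t ht
              simpa [bf] using this
            exact ⟨⟨by rw [Function.iterate_succ_apply, this, ht], by rw [smul_neg, c]⟩, this⟩
      rw [this, card_pair (hne t ht).symm]
      simp [e, c]; norm_num
    · have : (((lev (n + 1) y).filter fun v => σ • v = v).filter fun v => bf v = t) = ∅ := by
        rw [eq_empty_iff_forall_notMem]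
        intro v hv
        simp only [mem_filter, mem_lev] at hv
        rcases pm v hv.2 with rfl | rfl
        · exact c hv.1.2
        · exact c (by simpa using hv.1.2)
      rw [this]
      simp [e, c]
  have FH : ∀ (σ : G) (a : H), F (σ * a) = F σ := by
    intro σ a
    refine filter_congr fun t ht => ?_
    rw [mul_smul, (memH a).1 a.2 t (mem_lev.1 ht)]
  have sum1 : ∀ t, bf^[n] t = y → ∑ a : H, e a t = 0 := by
    intro t ht
    obtain ⟨σ, s1, s2⟩ := hA _ (hwl t ht)
    refine sum_eq_zero_of_neg (fun a : H => e a t) ⟨σ, (memH σ).2 s1⟩ fun a => ?_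
    show e (σ * a) t = -e a t
    have : e σ t = -1 := by simp [e, s2, hne t ht]
    rw [emul σ a t ht (s1 t ht) ((memH a).1 a.2 t ht), this, neg_one_mul]
  have sum2 : ∀ t t', bf^[n] t = y → bf^[n] t' = y → t ≠ t' → ∑ a : H, e a t * e a t' = 0 := by
    intro t t' ht ht' htt
    obtain ⟨σ, s1, s2⟩ := hB _ _ (hwl t ht) (hwl t' ht') (by rwa [hw t ht, hw t' ht'])
    refine sum_eq_zero_of_neg (fun a : H => e a t * e a t') ⟨σ, (memH σ).2 s1⟩ fun a => ?_
    show e (σ * a) t * e (σ * a) t' = -(e a t * e a t')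
    rw [emul σ a t ht (s1 t ht) ((memH a).1 a.2 t ht),
      emul σ a t' ht' (s1 t' ht') ((memH a).1 a.2 t' ht')]
    have n1 := hne t ht
    have n2 := hne t' ht'
    have n3 : -(w t * w t') ≠ w t * w t' := fun h => by
      have : (2 : K) * (w t * w t') = 0 := by linear_combination -h
      simp [h0 _ (hwl t ht), h0 _ (hwl t' ht')] at this
    have : e σ t * e σ t' = -1 := by
      rw [smul_mul'] at s2
      rcases cases σ t ht (s1 t ht) with c1 | c1 <;>
        rcases cases σ t' ht' (s1 t' ht') with c2 | c2 <;> rw [c1, c2] at s2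
      · exact (n3 s2.symm).elim
      · simp [e, c1, c2, n2]
      · simp [e, c1, c2, n1]
      · exact (n3 (by rw [← s2]; ring)).elim
    linear_combination (e a t * e a t') * this
  let Y : G → H → ℝ := fun σ a => ∑ t ∈ F σ, e σ t * e a t
  have memF : ∀ σ t, t ∈ F σ → bf^[n] t = y ∧ σ • t = t := fun σ t ht =>
    ⟨mem_lev.1 (mem_filter.1 ht).1, (mem_filter.1 ht).2⟩
  have hX : ∀ (σ : G) (a : H), (fixc (n + 1) y (σ * a) : ℝ) = fixc n y σ + Y σ a := by
    intro σ a
    rw [count, FH, sum_add_distrib]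
    congr 1
    · simp [fixc, F]
    · exact sum_congr rfl fun t ht =>
        emul σ a t (memF σ t ht).1 (memF σ t ht).2 ((memH a).1 a.2 t (memF σ t ht).1)
  have Y1 : ∀ σ, ∑ a, Y σ a = 0 := by
    intro σ
    rw [sum_comm]
    refine sum_eq_zero fun t ht => ?_
    rw [← mul_sum, sum1 t (memF σ t ht).1, mul_zero]
  have Y2 : ∀ σ, ∑ a, Y σ a ^ 2 = Fintype.card H * fixc n y σ := by
    intro σ
    have : ∀ a, Y σ a ^ 2 = ∑ t ∈ F σ, ∑ t' ∈ F σ, (e σ t * e σ t') * (e a t * e a t') := by
      intro a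
      rw [pow_two, sum_mul_sum]
      exact sum_congr rfl fun t _ => sum_congr rfl fun t' _ => by ring
    simp only [this]
    rw [sum_comm]
    have : ∀ t ∈ F σ, ∑ a : H, ∑ t' ∈ F σ, (e σ t * e σ t') * (e a t * e a t') =
        Fintype.card H := by
      intro t ht
      rw [sum_comm, sum_eq_single t]
      · simp [esq]
      · intro t' ht' hne
        rw [← mul_sum, sum2 t t' (memF σ t ht).1 (memF σ t' ht').1 hne.symm, mul_zero]
      · exact fun h => (h ht).elim
    rw [sum_congr rfl this]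
    simp [fixc, F, mul_comm]
  have Y3 : ∀ σ a, Y σ a ≤ fixc n y σ := by
    intro σ a
    calc Y σ a ≤ ∑ _t ∈ F σ, (1 : ℝ) := sum_le_sum fun t _ => ele _ _ _
      _ = _ := by simp [fixc, F]
  have H0 : (0 : ℝ) < Fintype.card H := by exact_mod_cast Fintype.card_pos
  constructor
  · apply le_of_mul_le_mul_left _ H0
    rw [← sum_coset H fun σ => 1 / ((fixc (n + 1) y σ : ℝ) + 1), ← sum_add_distrib, mul_sum]
    refine sum_le_sum fun σ _ => ?_
    set k : ℝ := (fixc n y σ : ℝ) with hk
    have k0 : 0 ≤ k := by positivity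
    have pt : ∀ a : H, 1 / (k + 1) - Y σ a / (k + 1) ^ 2 + Y σ a ^ 2 / ((k + 1) ^ 2 * (2 * k + 1))
        ≤ 1 / ((fixc (n + 1) y (σ * a) : ℝ) + 1) := by
      intro a
      have p0 : (0 : ℝ) ≤ fixc (n + 1) y (σ * a) := by positivity
      have p1 := Y3 σ a
      rw [hX] at p0 ⊢
      rw [← hk] at p0 p1 ⊢
      generalize Y σ a = u at p0 p1 ⊢
      have id : 1 / (k + u + 1) = 1 / (k + 1) - u / (k + 1) ^ 2 +
          u ^ 2 / ((k + 1) ^ 2 * (k + u + 1)) := by
        field_simp; ring
      rw [id]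
      gcongr
      linarith
    refine le_trans (le_of_eq ?_) (sum_le_sum fun a _ => pt a)
    rw [sum_add_distrib, sum_sub_distrib, ← sum_div, ← sum_div, ← sum_div, Y1, Y2, ← hk, gain]
    simp only [sum_const, card_univ, nsmul_eq_mul]
    ring
  · apply mul_left_cancel₀ H0.ne'
    rw [← sum_coset H fun σ => (fixc (n + 1) y σ : ℝ), mul_sum]
    refine sum_congr rfl fun σ _ => ?_
    simp only [hX]
    rw [sum_add_distrib, Y1]
    simp

open scoped Classical in
theorem fixed_bound [CharZero K] [Fintype G] (L T : ℕ) (hT : 0 < T) (y : K)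
    (hr : ∀ m < L, ∀ t : K, bf^[m + 3] t = y → ∃ w, bf w = t)
    (h0 : ∀ m < L, ∀ w : K, bf^[m + 4] w = y → w ≠ 0)
    (hA : ∀ m < L, ∀ w : K, bf^[m + 4] w = y →
      ∃ σ : G, (∀ t : K, bf^[m + 3] t = y → σ • t = t) ∧ σ • w = -w)
    (hB : ∀ m < L, ∀ w w' : K, bf^[m + 4] w = y → bf^[m + 4] w' = y → bf w ≠ bf w' →
      ∃ σ : G, (∀ t : K, bf^[m + 3] t = y → σ • t = t) ∧ σ • (w * w') = -(w * w')) :
    (L : ℝ) * (univ.filter fun σ : G => ∃ t, bf^[L + 3] t = y ∧ σ • t = t).card ≤
      (L * (8 / T) + ((T : ℝ) + 1) ^ 2 * (2 * T + 1)) * Fintype.card G := by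
  have := potential (fun m σ => fixc (m + 3) y σ) L T (8 * Fintype.card G) hT ?_
    (fun m hm => (one_step (G := G) (m + 3) y (hr m hm) (h0 m hm) (hA m hm) (hB m hm)).1)
    (fun m hm => (one_step (G := G) (m + 3) y (hr m hm) (h0 m hm) (hA m hm) (hB m hm)).2)
    (fun m _ σ => fixc_pos_succ)
  · simp only [fixc_pos] at this
    refine this.trans (le_of_eq ?_)
    ring
  · calc _ ≤ ∑ _σ : G, (8 : ℝ) := sum_le_sum fun σ _ => by
          have : fixc (0 + 3) y σ ≤ 8 := (card_filter_le _ _).trans (card_lev 3 y)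
          exact_mod_cast this
      _ = _ := by simp [mul_comm]

end Pool.Agent.Lib.MP_dd5d2d_nt
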