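import Mathlib
import Pool.Agent.Shared.FrobeniusDensity
import Pool.Agent.Lib.MP_dd5d2d_nt.Base
import Pool.Agent.Lib.MP_dd5d2d_nt.Mart

/-! Primes dividing an orbit of `x ^ 2 - 1` have Dirichlet density zero. -/

namespace Pool.Agent.Lib.MP_dd5d2d_nt

open Finset Filter Topology NumberField Polynomial
open Pool.Agent.Shared.PrimeZeta Pool.Agent.Shared.FrobeniusDensity

theorem map_iter {R S : Type*} [Ring R] [Ring S] (g : R →+* S) (N : ℕ) (x : R) :
    g (bf^[N] x) = bf^[N] (g x) := by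
  induction N with
  | zero => rfl
  | succ N ih => rw [Function.iterate_succ_apply', Function.iterate_succ_apply', ← ih]; simp [bf]

theorem iter_zero_ne {R : Type*} [Ring R] [CharZero R] (N : ℕ) : bf^[N] (0 : R) ≠ 1 := by
  have : bf^[N] (0 : R) = 0 ∨ bf^[N] (0 : R) = -1 := by
    induction N with
    | zero => left; rfl
    | succ N ih =>
      rw [Function.iterate_succ_apply']
      rcases ih with h | h <;> simp [h, bf]
  rcases this with h | h <;> rw [h]
  · exact zero_ne_one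
  · intro h'
    have : ((2 : ℕ) : R) = 0 := by
      rw [Nat.cast_ofNat, ← one_add_one_eq_two]
      nth_rewrite 1 [← h']
      simp
    simp at this

/-- The algebraic closure of `ℚ`. -/
abbrev Qb : Type := AlgebraicClosure ℚ

instance : @Normal ℚ Qb _ _ DivisionRing.toRatAlgebra :=
  (inferInstance : @Normal ℚ Qb _ _ (AlgebraicClosure.instAlgebra ℚ))

/-- The polynomial whose roots are the `N`-th preimages of `1`. -/
noncomputable def qp (N : ℕ) : ℚ[X] := bf^[N] X - 1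

theorem aeval_qp {A : Type*} [CommRing A] [Algebra ℚ A] (N : ℕ) (t : A) :
    aeval t (qp N) = bf^[N] t - 1 := by
  have := map_iter (aeval t : ℚ[X] →ₐ[ℚ] A).toRingHom N X
  simp only [AlgHom.toRingHom_eq_coe, RingHom.coe_coe, aeval_X] at this
  rw [qp, map_sub, this, map_one]

theorem qp_ne_zero (N : ℕ) : qp N ≠ 0 := by
  intro h
  have := aeval_qp N (0 : ℚ)
  rw [h, map_zero] at this
  exact iter_zero_ne N (sub_eq_zero.1 this.symm)

/-- The field generated by the `N`-th preimages of `1`. -/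
noncomputable abbrev Kf (N : ℕ) : IntermediateField ℚ Qb :=
  IntermediateField.adjoin ℚ ((qp N).rootSet Qb)

instance (N : ℕ) : IsSplittingField ℚ (Kf N) (qp N) :=
  IntermediateField.adjoin_rootSet_isSplittingField (IsAlgClosed.splits _)

instance (N : ℕ) : NumberField (Kf N) where
  to_finiteDimensional := IsSplittingField.finiteDimensional _ (qp N)

instance (N : ℕ) : Normal ℚ (Kf N) := Normal.of_isSplittingField (qp N)

instance (N : ℕ) : IsGalois ℚ (Kf N) := {}

theorem bf_surj (t : Qb) : ∃ w, bf w = t := by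
  obtain ⟨w, hw⟩ := IsAlgClosed.exists_pow_nat_eq (1 + t) (n := 2) (by norm_num)
  exact ⟨w, by rw [bf, hw]; ring⟩

theorem mem_Kf {N : ℕ} (d : ℕ) : ∀ (j : ℕ) (t : Qb), j + d = N → bf^[j] t = 1 → t ∈ Kf N := by
  induction d with
  | zero =>
    rintro j t rfl ht
    apply IntermediateField.subset_adjoin
    rw [mem_rootSet_of_ne (qp_ne_zero _), aeval_qp]
    exact sub_eq_zero.2 ht
  | succ d ih =>
    intro j t hj ht
    obtain ⟨w, rfl⟩ := bf_surj t
    have := ih (j + 1) w (by omega) ht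
    exact sub_mem (pow_mem this 2) (one_mem _)

theorem coe_iter {N : ℕ} (j : ℕ) (t : Kf N) : ((bf^[j] t : Kf N) : Qb) = bf^[j] (t : Qb) :=
  map_iter (algebraMap (Kf N) Qb) j t

theorem root_Kf {N j : ℕ} (hj : j < N) (t : Kf N) (ht : bf^[j] t = 1) : ∃ w, bf w = t := by
  obtain ⟨w, hw⟩ := bf_surj (t : Qb)
  have : w ∈ Kf N := mem_Kf (N - (j + 1)) (j + 1) w (by omega) (by
    rw [Function.iterate_succ_apply, hw, ← coe_iter, ht]; rfl)
  exact ⟨⟨w, this⟩, Subtype.ext hw⟩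

theorem restrict {N : ℕ} (σ : Qb ≃ₐ[ℚ] Qb) :
    ∃ τ : Kf N ≃ₐ[ℚ] Kf N, ∀ t : Kf N, ((τ • t : Kf N) : Qb) = σ • (t : Qb) :=
  ⟨σ.restrictNormal (Kf N), fun t => σ.restrictNormal_commutes (Kf N) t⟩

open scoped Classical in
theorem group_bound (L T : ℕ) (hT : 0 < T) :
    (L : ℝ) * (univ.filter fun σ : Kf (L + 5) ≃ₐ[ℚ] Kf (L + 5) =>
      ∃ t : Kf (L + 5), bf^[L + 5] t = 1 ∧ σ • t = t).card ≤
      4 * ((L * (8 / T) + ((T : ℝ) + 1) ^ 2 * (2 * T + 1)) *
        Fintype.card (Kf (L + 5) ≃ₐ[ℚ] Kf (L + 5))) := by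
  have key : ∀ y ∈ lev 2 (1 : Kf (L + 5)),
      (L : ℝ) * (univ.filter fun σ : Kf (L + 5) ≃ₐ[ℚ] Kf (L + 5) =>
        ∃ t : Kf (L + 5), bf^[L + 3] t = y ∧ σ • t = t).card ≤
      (L * (8 / T) + ((T : ℝ) + 1) ^ 2 * (2 * T + 1)) *
        Fintype.card (Kf (L + 5) ≃ₐ[ℚ] Kf (L + 5)) := by
    intro y hy
    have hy : bf^[2] y = 1 := mem_lev.1 hy
    have up : ∀ j t, bf^[j] t = y → bf^[j + 2] t = 1 := by
      intro j t ht
      rw [add_comm j 2, Function.iterate_add_apply, ht, hy]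
    have G := good_level_two (y := (y : Qb)) (by rw [← coe_iter, hy]; rfl)
    have co : ∀ j (t : Kf (L + 5)), bf^[j] t = y → bf^[j] (t : Qb) = y := by
      intro j t ht; rw [← coe_iter, ht]
    refine fixed_bound L T hT y (fun m hm t ht => root_Kf (by omega) t (up _ t ht)) ?_ ?_ ?_
    · rintro m hm w hw rfl
      exact iter_zero_ne _ (up _ _ hw)
    · intro m hm w hw
      obtain ⟨σ, s1, s2⟩ := (separation G m).1 w (co _ w hw)
      obtain ⟨τ, hτ⟩ := restrict (N := L + 5) σ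
      refine ⟨τ, fun t ht => Subtype.ext ?_, Subtype.ext ?_⟩
      · rw [hτ]; exact s1 t (co _ t ht)
      · rw [hτ]; exact s2
    · intro m hm w w' hw hw' hne
      obtain ⟨σ, s1, s2⟩ := (separation G m).2 w w' (co _ w hw) (co _ w' hw')
        fun h => hne (Subtype.ext h)
      obtain ⟨τ, hτ⟩ := restrict (N := L + 5) σ
      refine ⟨τ, fun t ht => Subtype.ext ?_, Subtype.ext ?_⟩
      · rw [hτ]; exact s1 t (co _ t ht)
      · rw [hτ]; exact s2
  have sub : (univ.filter fun σ : Kf (L + 5) ≃ₐ[ℚ] Kf (L + 5) =>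
      ∃ t : Kf (L + 5), bf^[L + 5] t = 1 ∧ σ • t = t) ⊆ (lev 2 (1 : Kf (L + 5))).biUnion fun y =>
        univ.filter fun σ : Kf (L + 5) ≃ₐ[ℚ] Kf (L + 5) => ∃ t : Kf (L + 5), bf^[L + 3] t = y ∧ σ • t = t := by
    intro σ hσ
    obtain ⟨t, h1, h2⟩ := (mem_filter.1 hσ).2
    refine mem_biUnion.2 ⟨bf^[L + 3] t, mem_lev.2 ?_, mem_filter.2 ⟨mem_univ _, t, rfl, h2⟩⟩
    rw [← Function.iterate_add_apply, ← h1]; congr 1; ring
  have c1 := (card_le_card sub).trans card_biUnion_le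
  have c2 : ((lev 2 (1 : Kf (L + 5))).card : ℝ) ≤ 4 := by exact_mod_cast card_lev 2 (1 : Kf (L + 5))
  calc _ ≤ (L : ℝ) * ∑ y ∈ lev 2 (1 : Kf (L + 5)),
          ((univ.filter fun σ : Kf (L + 5) ≃ₐ[ℚ] Kf (L + 5) =>
            ∃ t : Kf (L + 5), bf^[L + 3] t = y ∧ σ • t = t).card : ℝ) := by
        gcongr; exact_mod_cast c1
    _ ≤ _ := by
        rw [mul_sum]
        refine (sum_le_sum key).trans ?_
        rw [sum_const, nsmul_eq_mul]
        gcongr

theorem frob_fixes (N : ℕ) : ∀ᶠ p : ℕ in atTop, p.Prime → ∀ φ : Kf N ≃ₐ[ℚ] Kf N, IsFrob p φ →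
    ∀ a : ℤ, (p : ℤ) ∣ bf^[N] a - 1 → ∃ t : Kf N, bf^[N] t = 1 ∧ φ • t = t := by
  have co : ∀ j (t : 𝓞 (Kf N)), ((bf^[j] t : 𝓞 (Kf N)) : Kf N) = bf^[j] (t : Kf N) :=
    fun j t => map_iter (algebraMap (𝓞 (Kf N)) (Kf N)) j t
  have fin : {t : 𝓞 (Kf N) | bf^[N] t = 1}.Finite := by
    refine ((finite_level N (1 : Kf N)).preimage
      (f := fun t : 𝓞 (Kf N) => (t : Kf N)) RingOfIntegers.coe_injective.injOn).subset ?_
    intro t ht
    show bf^[N] (t : Kf N) = 1
    rw [← co, show bf^[N] t = 1 from ht]; rfl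
  have sep : ∀ᶠ p : ℕ in atTop, ∀ t ∈ {t : 𝓞 (Kf N) | bf^[N] t = 1},
      ∀ t' ∈ {t : 𝓞 (Kf N) | bf^[N] t = 1}, p.Prime → ∀ P : Ideal (𝓞 (Kf N)), P.IsPrime →
        (p : 𝓞 (Kf N)) ∈ P → t - t' ∈ P → t = t' := by
    rw [eventually_all_finite fin]
    intro t _
    rw [eventually_all_finite fin]
    intro t' _
    by_cases h : t = t'
    · exact Eventually.of_forall fun _ _ _ _ _ _ => h
    · filter_upwards [eventually_notMem (sub_ne_zero.2 h)] with p hp hpp P hP h1 h2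
      exact (hp hpp P hP h1 h2).elim
  filter_upwards [sep] with p sep hp φ ⟨P, hP, hpP, hφ⟩ a ha
  have key : ∀ j ≤ N, ∀ a : ℤ, (p : ℤ) ∣ bf^[j] a - 1 →
      ∃ t : 𝓞 (Kf N), bf^[j] t = 1 ∧ t - a ∈ P := by
    intro j
    induction j with
    | zero =>
      rintro - a ⟨c, hc⟩
      refine ⟨1, rfl, ?_⟩
      have : a = p * c + 1 := by rw [← hc]; simp
      rw [this]
      push_cast
      rw [show (1 : 𝓞 (Kf N)) - (p * c + 1) = p * -c by ring]
      exact P.mul_mem_right _ hpP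
    | succ j ih =>
      intro hj a ha
      obtain ⟨t, h1, h2⟩ := ih (by omega) (bf a) ha
      obtain ⟨w, hw⟩ := root_Kf (show j < N by omega) (t : Kf N) (by rw [← co, h1]; rfl)
      have hint : IsIntegral ℤ w := by
        refine IsIntegral.of_pow (n := 2) (by norm_num) ?_
        rw [show w ^ 2 = 1 + (t : Kf N) by rw [← hw, bf]; ring]
        exact isIntegral_one.add t.isIntegral_coe
      let v : 𝓞 (Kf N) := ⟨w, hint⟩
      have hv : bf v = t := RingOfIntegers.ext ((co 1 v).trans hw)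
      have : (v - a) * (-v - a) ∈ P := by
        have e : (v - a) * (-v - a) = -(t - (bf a : ℤ)) := by
          rw [← hv]; simp only [bf]; push_cast; ring
        rw [e]; exact P.neg_mem h2
      rcases hP.mem_or_mem this with h | h
      · exact ⟨v, by rw [Function.iterate_succ_apply, hv, h1], h⟩
      · exact ⟨-v, by rw [Function.iterate_succ_apply, show bf (-v) = t by
          rw [← hv]; simp [bf], h1], h⟩
  obtain ⟨t, h1, h2⟩ := key N le_rfl a ha
  have e : φ • t = t := by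
    refine sep _ ?_ _ h1 hp P hP hpP ?_
    · show bf^[N] (φ • t) = 1
      have := map_iter (MulSemiringAction.toRingHom _ (𝓞 (Kf N)) φ) N t
      rw [h1, map_one] at this
      exact this.symm
    · have a1 := hφ t
      have a2 : t ^ p - (a : 𝓞 (Kf N)) ^ p ∈ P := Ideal.mem_of_dvd _ (sub_dvd_pow_sub_pow _ _ _) h2
      have a3 := hφ a
      have a4 : φ • (a : 𝓞 (Kf N)) = a :=
        map_intCast (MulSemiringAction.toRingHom _ (𝓞 (Kf N)) φ) a
      rw [a4] at a3
      have : φ • t - t = (φ • t - t ^ p) + (t ^ p - (a : 𝓞 (Kf N)) ^ p) -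
          ((a : 𝓞 (Kf N)) - a ^ p) - (t - a) := by ring
      rw [this]
      exact P.sub_mem (P.sub_mem (P.add_mem a1 a2) a3) h2
  exact ⟨t, by rw [← co, h1]; rfl, congrArg (fun z : 𝓞 (Kf N) => (z : Kf N)) e⟩

theorem two_le_iter {n : ℤ} (hn : 2 ≤ n) (k : ℕ) : 2 ≤ bf^[k] n := by
  induction k with
  | zero => exact hn
  | succ k ih => rw [Function.iterate_succ_apply', bf]; nlinarith

theorem root_of_card {F : Type} [Field F] (N : ℕ)
    (h : (N + 2) * 2 ^ (N + 1) < {a : F | ∃ k, bf^[k] a = 0}.ncard) : ∃ a : F, bf^[N] a = 1 := by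
  classical
  by_contra hc
  push Not at hc
  have sub : {a : F | ∃ k, bf^[k] a = 0} ⊆ ↑((range (N + 2)).biUnion fun k => lev k (0 : F)) := by
    intro a ha
    have ha : ∃ k, bf^[k] a = 0 := ha
    have h1 := Nat.find_spec ha
    refine mem_coe.2 (mem_biUnion.2 ⟨Nat.find ha, mem_range.2 ?_, mem_lev.2 h1⟩)
    by_contra h2
    obtain ⟨d, hd⟩ := Nat.exists_eq_add_of_le (not_lt.1 h2)
    have h3 := Nat.find_min ha (m := N + d) (by omega)
    apply hc (bf^[d + 1] a)
    rw [← Function.iterate_add_apply, ← add_assoc]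
    rw [hd, show N + 2 + d = N + d + 1 + 1 by ring, Function.iterate_succ_apply',
      Function.iterate_succ_apply'] at h1
    rw [Function.iterate_succ_apply']
    have e : bf (bf (bf^[N + d] a)) = (bf (bf^[N + d] a) - 1) * (bf^[N + d] a) ^ 2 := by
      simp only [bf]; ring
    rw [e] at h1
    exact sub_eq_zero.1 ((mul_eq_zero.1 h1).resolve_right (pow_ne_zero _ h3))
  have h1 := Set.ncard_le_ncard sub (Finset.finite_toSet _)
  rw [Set.ncard_coe_finset] at h1
  have h2 : ((range (N + 2)).biUnion fun k => lev k (0 : F)).card ≤ (N + 2) * 2 ^ (N + 1) := by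
    refine card_biUnion_le.trans ?_
    refine (sum_le_card_nsmul _ _ (2 ^ (N + 1)) fun k hk => (card_lev k _).trans ?_).trans ?_
    · exact Nat.pow_le_pow_right (by norm_num) (by have := mem_range.1 hk; omega)
    · simp
  omega

/-- Elements of the Galois group with a fixed point at level `N`. -/
def FixSet (N : ℕ) : Set (Kf N ≃ₐ[ℚ] Kf N) := {σ | ∃ t : Kf N, bf^[N] t = 1 ∧ σ • t = t}

open scoped Classical in
theorem exists_small {ε : ℝ} (hε : 0 < ε) : ∃ N : ℕ,
    ((univ.filter fun σ => σ ∈ FixSet N).card : ℝ) / Fintype.card (Kf N ≃ₐ[ℚ] Kf N) < ε := by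
  obtain ⟨T, hT⟩ := exists_nat_gt (64 / ε)
  have T0 : (0 : ℝ) < T := lt_trans (by positivity) hT
  obtain ⟨L, hL⟩ := exists_nat_gt (8 * (((T : ℝ) + 1) ^ 2 * (2 * T + 1)) / ε)
  have L0 : (0 : ℝ) < L := lt_trans (by positivity) hL
  refine ⟨L + 5, ?_⟩
  have gb := group_bound L T (by exact_mod_cast T0)
  have G0 : (0 : ℝ) < Fintype.card (Kf (L + 5) ≃ₐ[ℚ] Kf (L + 5)) := by
    exact_mod_cast Fintype.card_pos
  have e : (univ.filter fun σ => σ ∈ FixSet (L + 5)) =
      univ.filter fun σ : Kf (L + 5) ≃ₐ[ℚ] Kf (L + 5) =>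
        ∃ t : Kf (L + 5), bf^[L + 5] t = 1 ∧ σ • t = t := filter_congr fun _ _ => Iff.rfl
  rw [e, div_lt_iff₀ G0]
  apply lt_of_mul_lt_mul_left _ L0.le
  refine gb.trans_lt ?_
  rw [← mul_assoc, ← mul_assoc]
  refine mul_lt_mul_of_pos_right ?_ G0
  rw [div_lt_iff₀ hε] at hT hL
  have : 8 / (T : ℝ) < ε / 8 := by
    rw [div_lt_div_iff₀ T0 (by norm_num)]; linarith
  nlinarith

open scoped Classical in
theorem lim_set (S : Set ℕ)
    (hS : ∀ N, ∀ᶠ p : ℕ in atTop, p.Prime → p ∈ S → ∃ a : ℤ, (p : ℤ) ∣ bf^[N] a - 1) :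
    Lim (fun p => if p ∈ S then 1 else 0) 0 := by
  have bd : ∀ q : ℕ → Prop, Bdd fun p => if q p then 1 else 0 := fun q =>
    ⟨1, fun p _ => by dsimp only; split_ifs <;> simp⟩
  rw [Lim, tendsto_order]
  constructor
  · intro a ha
    filter_upwards [self_mem_nhdsWithin, tendsto_log.eventually_gt_atTop 0] with s hs hl
    refine ha.trans_le (div_nonneg (tsum_nonneg fun n => ?_) hl.le)
    positivity
  intro ε hε
  obtain ⟨N, lt⟩ := exists_small hε
  choose! φ hφ using fun p => exists_isFrob (K := Kf N) (p := p)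
  have fd := frobenius_density φ hφ (FixSet N) ?_ ?_
  · obtain ⟨q, hq⟩ : ∃ q : ℕ → Prop, ∀ p, q p ↔ p ∈ S ∧ φ p ∉ FixSet N :=
      ⟨_, fun _ => Iff.rfl⟩
    have z : Lim (fun p => if q p then 1 else 0) 0 := by
      apply lim_zero
      filter_upwards [hS N, frob_fixes N] with p h1 h2 hp
      rw [if_neg]
      rw [hq]
      rintro ⟨a, b⟩
      obtain ⟨a, ha⟩ := h1 hp a
      exact b (h2 hp _ (hφ p hp) a ha)
    have l := Lim.add (bd fun p => φ p ∈ FixSet N) (bd q) fd z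
    rw [add_zero] at l
    filter_upwards [l.eventually_lt_const lt, self_mem_nhdsWithin,
      tendsto_log.eventually_gt_atTop 0] with s h hs hl
    refine lt_of_le_of_lt ?_ h
    gcongr
    refine psum_mono (bd fun p => p ∈ S)
      ((bd fun p => φ p ∈ FixSet N).add (bd q)) (fun p _ => ?_) hs
    simp only [hq]
    split_ifs <;> simp_all
  · intro σ g
    constructor
    · rintro ⟨t, h1, h2⟩
      refine ⟨g • t, by rw [← smul_iter, h1, smul_one], ?_⟩
      rwa [mul_smul, mul_smul, inv_smul_eq_iff] at h2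
    · rintro ⟨t, h1, h2⟩
      refine ⟨g⁻¹ • t, by rw [← smul_iter, h1, smul_one], ?_⟩
      rw [mul_smul, mul_smul, smul_inv_smul, h2]
  · rintro σ τ h ⟨t, h1, h2⟩
    refine ⟨t, h1, ?_⟩
    have : Subgroup.zpowers σ ≤ MulAction.stabilizer _ t := Subgroup.zpowers_le.2 h2
    exact this (h ▸ Subgroup.mem_zpowers τ)

theorem lim_one : Lim (fun _ => 1) 1 := by
  classical
  choose! φ hφ using fun p => exists_isFrob (K := Kf 0) (p := p)
  have := frobenius_density φ hφ Set.univ (by simp) (by simp)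
  simpa using this

end Pool.Agent.Lib.MP_dd5d2d_nt
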