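import Mathlib

/-! A process on a finite set with conditional mean `X`, conditional variance `X` and jumps at most
`X` survives `m` steps with probability of order `1 / m`. -/

namespace Pool.Agent.Lib.MP_dd5d2d_nt.Tail

open Finset

/-- Conditional mean and variance identities, and the bound on jumps, up to time `L`. -/
structure Proc {G : Type*} [Fintype G] (X : ℕ → G → ℕ) (L : ℕ) : Prop where
  mean : ∀ m < L, ∀ α : ℕ → ℝ, ∑ σ, α (X m σ) * ((X (m + 1) σ : ℝ) - X m σ) = 0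
  var : ∀ m < L, ∀ β : ℕ → ℝ, ∑ σ, β (X m σ) * (((X (m + 1) σ : ℝ) - X m σ) ^ 2 - X m σ) = 0
  le : ∀ m < L, ∀ σ, X (m + 1) σ ≤ 2 * X m σ

/-- The potential. -/
noncomputable def V (a x : ℝ) : ℝ := if 3 * x ≤ a then 9 * x * (2 * a - x) / (5 * a ^ 2) else 1

theorem V_le_one {a : ℝ} (ha : 0 < a) (x : ℝ) : V a x ≤ 1 := by
  unfold V
  split_ifs with h
  · rw [div_le_one (by positivity)]
    nlinarith [mul_nonneg (sub_nonneg.2 h) (show 0 ≤ 5 * a - 3 * x by linarith)]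
  · exact le_rfl

theorem V_le_q {a y : ℝ} (ha : 0 < a) (hy : 3 * y ≤ 5 * a) :
    V a y ≤ 9 * y * (2 * a - y) / (5 * a ^ 2) := by
  unfold V
  split_ifs with h
  · exact le_rfl
  · rw [le_div_iff₀ (by positivity)]
    nlinarith [mul_nonneg (show 0 ≤ 3 * y - a by linarith) (sub_nonneg.2 hy)]

theorem V_le_lin {a x : ℝ} (ha : 0 < a) (hx : 0 ≤ x) : V a x ≤ 18 * x / (5 * a) := by
  unfold V
  split_ifs with h
  · rw [div_le_div_iff₀ (by positivity) (by positivity)]
    nlinarith [mul_nonneg (mul_nonneg hx hx) ha.le]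
  · rw [le_div_iff₀ (by positivity)]
    linarith

variable {G : Type*} [Fintype G] {X : ℕ → G → ℕ} {L : ℕ}

theorem Proc.step (h : Proc X L) {m : ℕ} (hm : m < L) {a : ℝ} (ha : 1 ≤ a) :
    ∑ σ, V a (X (m + 1) σ) ≤ ∑ σ, V (a + 1 / 2) (X m σ) := by
  have a0 : 0 < a := by linarith
  have e1 := h.mean m hm fun k =>
    if 3 * (k : ℝ) ≤ a + 1 / 2 then 9 * (2 * a - 2 * k) / (5 * a ^ 2) else 0
  have e2 := h.var m hm fun k => if 3 * (k : ℝ) ≤ a + 1 / 2 then -9 / (5 * a ^ 2) else 0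
  have e3 := congrArg₂ (fun u v => ∑ σ, V (a + 1 / 2) (X m σ) + u + v) e1 e2
  simp only [add_zero] at e3
  rw [← e3, ← sum_add_distrib, ← sum_add_distrib]
  refine sum_le_sum fun σ _ => ?_
  have hle : (X (m + 1) σ : ℝ) ≤ 2 * X m σ := by exact_mod_cast h.le m hm σ
  have x0 : (0 : ℝ) ≤ X m σ := by positivity
  generalize (X (m + 1) σ : ℝ) = y at hle
  generalize (X m σ : ℝ) = x at hle x0
  by_cases c : 3 * x ≤ a + 1 / 2
  · simp only [c, if_true]
    refine (V_le_q a0 (by linarith)).trans ?_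
    have e : 9 * y * (2 * a - y) / (5 * a ^ 2) = 9 * x * (2 * a - 1 - x) / (5 * a ^ 2) +
        9 * (2 * a - 2 * x) / (5 * a ^ 2) * (y - x) + -9 / (5 * a ^ 2) * ((y - x) ^ 2 - x) := by
      field_simp; ring
    rw [e, V, if_pos c]
    gcongr ?_ + _ + _
    rw [div_le_div_iff₀ (by positivity) (by positivity)]
    have k1 : (2 * a - 1 - x) * (a + 1 / 2) ^ 2 ≤ (2 * (a + 1 / 2) - x) * a ^ 2 := by
      nlinarith [mul_nonneg x0 a0.le]
    nlinarith [mul_le_mul_of_nonneg_left k1 x0]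
  · simp only [c, if_false, V, zero_mul, add_zero]
    exact V_le_one a0 y

theorem Proc.steps (h : Proc X L) : ∀ m ≤ L, ∀ a : ℝ, 1 ≤ a →
    ∑ σ, V a (X m σ) ≤ ∑ σ, V (a + m / 2) (X 0 σ) := by
  intro m
  induction m with
  | zero => intro _ a _; simp
  | succ m ih =>
    intro hm a ha
    refine (h.step hm ha).trans ((ih (by omega) _ (by linarith)).trans (le_of_eq ?_))
    have : a + 1 / 2 + (m : ℝ) / 2 = a + ((m + 1 : ℕ) : ℝ) / 2 := by push_cast; ring
    rw [this]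

theorem Proc.surv (h : Proc X L) {m : ℕ} (hm : m ≤ L) :
    ((univ.filter fun σ => 0 < X m σ).card : ℝ) * (m + 2) ≤ 36 / 5 * ∑ σ, (X 0 σ : ℝ) := by
  have h1 : ((univ.filter fun σ => 0 < X m σ).card : ℝ) = ∑ σ, V 1 (X m σ) := by
    rw [card_filter, Nat.cast_sum]
    refine sum_congr rfl fun σ _ => ?_
    rcases Nat.eq_zero_or_pos (X m σ) with c | c
    · simp [c, V]
    · have : (1 : ℝ) ≤ X m σ := by exact_mod_cast c
      rw [if_pos c, V, if_neg (by linarith)]; simp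
  have h2 : ∑ σ, V (1 + m / 2) (X 0 σ) ≤ ∑ σ, 18 * (X 0 σ : ℝ) / (5 * (1 + m / 2)) :=
    sum_le_sum fun σ _ => V_le_lin (by positivity) (by positivity)
  have h3 := (h.steps m hm 1 le_rfl).trans h2
  rw [← sum_div, ← mul_sum, le_div_iff₀ (by positivity), ← h1] at h3
  linarith

theorem Proc.sum_eq (h : Proc X L) : ∀ m ≤ L, ∑ σ, (X m σ : ℝ) = ∑ σ, (X 0 σ : ℝ) := by
  intro m
  induction m with
  | zero => intro _; rfl
  | succ m ih =>
    intro hm
    have := h.mean m hm fun _ => 1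
    simp only [one_mul, sum_sub_distrib] at this
    rw [← ih (by omega)]; linarith

theorem Proc.sq_eq (h : Proc X L) : ∀ m ≤ L,
    ∑ σ, (X m σ : ℝ) ^ 2 = ∑ σ, (X 0 σ : ℝ) ^ 2 + m * ∑ σ, (X 0 σ : ℝ) := by
  intro m
  induction m with
  | zero => intro _; simp
  | succ m ih =>
    intro hm
    have e1 := h.mean m hm fun k => 2 * k
    have e2 := h.var m hm fun _ => 1
    have e3 : ∑ σ, (X (m + 1) σ : ℝ) ^ 2 = ∑ σ, (2 * (X m σ : ℝ) * ((X (m + 1) σ : ℝ) - X m σ) +
        1 * (((X (m + 1) σ : ℝ) - X m σ) ^ 2 - X m σ) + (X m σ : ℝ) ^ 2 + X m σ) :=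
      sum_congr rfl fun σ _ => by ring
    rw [e3, sum_add_distrib, sum_add_distrib, sum_add_distrib, e1, e2, ih (by omega),
      h.sum_eq m (by omega)]
    push_cast; ring

theorem Proc.zero_mono (h : Proc X L) {m : ℕ} {σ : G} (h0 : X m σ = 0) :
    ∀ k, m ≤ k → k ≤ L → X k σ = 0 := by
  intro k hk
  induction k, hk using Nat.le_induction with
  | base => exact fun _ => h0
  | succ k _ ih =>
    intro hL
    have := h.le k hL σ
    rw [ih (by omega)] at this
    omega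

theorem Proc.lower {M : ℕ} (h : Proc X (4 * M)) (hM : 1 ≤ M) (h8 : ∀ σ, X 0 σ ≤ 8) {t : ℝ}
    (t0 : 0 ≤ t) (ht : 29 * t ≤ 4 * M ^ 2) :
    ∑ σ, (X 0 σ : ℝ) ≤ 16 * (M + 2) *
      (univ.filter fun σ => t < ∑ m ∈ range (4 * M), (X m σ : ℝ)).card := by
  classical
  set s : ℝ := ∑ σ, (X 0 σ : ℝ) with hs
  have s0 : 0 ≤ s := by positivity
  have M1 : (1 : ℝ) ≤ M := by exact_mod_cast hM
  set S : G → ℝ := fun σ => ∑ m ∈ range (4 * M), (X m σ : ℝ) with hS
  set A := univ.filter fun σ => t < S σ with hA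
  have tot : ∀ k ≤ 4 * M, ∑ σ, ∑ m ∈ range k, (X m σ : ℝ) = k * s := by
    intro k hk
    rw [sum_comm, sum_congr rfl fun m hm => h.sum_eq m ((mem_range.1 hm).le.trans hk)]
    simp [hs]
  have pt : ∀ σ, S σ ≤ (if σ ∈ A then S σ else 0) + ∑ m ∈ range M, (X m σ : ℝ) +
      t * if 0 < X M σ then 1 else 0 := by
    intro σ
    have p0 : 0 ≤ ∑ m ∈ range M, (X m σ : ℝ) := by positivity
    by_cases c : σ ∈ A
    · have : 0 ≤ t * if 0 < X M σ then 1 else 0 := by positivity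
      rw [if_pos c]; linarith
    · have c' : S σ ≤ t := by simpa [hA] using c
      rw [if_neg c]
      by_cases d : 0 < X M σ
      · rw [if_pos d]; linarith
      · have : S σ = ∑ m ∈ range M, (X m σ : ℝ) := by
          refine (sum_subset (range_subset_range.2 (by omega)) fun m hm hm' => ?_).symm
          rw [h.zero_mono (show X M σ = 0 by omega) m (by simpa using hm') (mem_range.1 hm).le]
          simp
        rw [if_neg d]; linarith
  have a1 := sum_le_sum fun σ (_ : σ ∈ univ) => pt σ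
  rw [sum_add_distrib, sum_add_distrib, tot M (by omega), ← mul_sum, sum_ite_mem, univ_inter,
    sum_boole, tot (4 * M) le_rfl] at a1
  have a2 := h.surv (show M ≤ 4 * M by omega)
  rw [← hs] at a2
  set c : ℝ := ((univ.filter fun σ => 0 < X M σ).card : ℝ) with hc
  have c0 : 0 ≤ c := by positivity
  have a3 : t * c ≤ M * s := by
    have : t * c * (M + 2) ≤ M * s * (M + 2) := by
      have b1 : t * (c * (M + 2)) ≤ t * (36 / 5 * s) := by gcongr
      have b2 : 29 * t * s ≤ 4 * M ^ 2 * s := by gcongr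
      nlinarith [mul_nonneg (mul_nonneg (show (0 : ℝ) ≤ M by positivity) s0)
        (show (0 : ℝ) ≤ M by positivity), mul_nonneg (show (0 : ℝ) ≤ M by positivity) s0]
    exact le_of_mul_le_mul_right this (by positivity)
  have a4 : 2 * M * s ≤ ∑ σ ∈ A, S σ := by push_cast at a1; linarith
  have a5 : (∑ σ ∈ A, S σ) ^ 2 ≤ A.card * ∑ σ ∈ A, S σ ^ 2 := sq_sum_le_card_mul_sum_sq
  have a6 : ∑ σ ∈ A, S σ ^ 2 ≤ ∑ σ, S σ ^ 2 :=
    sum_le_sum_of_subset_of_nonneg (subset_univ _) fun _ _ _ => by positivity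
  have a7 : ∑ σ, S σ ^ 2 ≤ (4 * M) * ((4 * M) * ((8 + 4 * M) * s)) := by
    have b1 : ∀ σ, S σ ^ 2 ≤ (4 * M) * ∑ m ∈ range (4 * M), (X m σ : ℝ) ^ 2 := fun σ => by
      have := sq_sum_le_card_mul_sum_sq (s := range (4 * M)) (f := fun m => (X m σ : ℝ))
      simpa using this
    have b2 : ∑ σ, (X 0 σ : ℝ) ^ 2 ≤ 8 * s := by
      rw [hs, mul_sum]
      refine sum_le_sum fun σ _ => ?_
      have : (X 0 σ : ℝ) ≤ 8 := by exact_mod_cast h8 σ
      nlinarith [show (0 : ℝ) ≤ X 0 σ by positivity]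
    refine (sum_le_sum fun σ _ => b1 σ).trans ?_
    rw [← mul_sum, sum_comm]
    gcongr
    refine (sum_le_card_nsmul _ _ ((8 + 4 * M) * s) fun m hm => ?_).trans (by simp)
    rw [h.sq_eq m (mem_range.1 hm).le, ← hs]
    have : (m : ℝ) ≤ 4 * M := by exact_mod_cast (mem_range.1 hm).le
    nlinarith
  have A0 : (0 : ℝ) ≤ A.card := by positivity
  have a8 : (2 * M * s) ^ 2 ≤ A.card * ((4 * M) * ((4 * M) * ((8 + 4 * M) * s))) :=
    (pow_le_pow_left₀ (by positivity) a4 2).trans (a5.trans (by gcongr; exact a6.trans a7))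
  rcases s0.eq_or_lt with e | e
  · rw [← e]; positivity
  · have : (4 * M ^ 2 * s) * s ≤ (4 * M ^ 2 * s) * (16 * (M + 2) * A.card) := by nlinarith
    exact le_of_mul_le_mul_left this (by positivity)

end Pool.Agent.Lib.MP_dd5d2d_nt.Tail
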