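import Mathlib
import Pool.Agent.Lib.MP_dd5d2d_nt.Main
import Pool.Agent.Lib.MP_dd5d2d_nt.Tail1

/-! The fixed point process on the preimage tree has conditional mean `X` and conditional variance
`X` (the computation is the one of `one_step`). -/

namespace Pool.Agent.Lib.MP_dd5d2d_nt.Tail

open Finset

variable {K : Type} [Field K] {G : Type} [Group G] [MulSemiringAction G K]

theorem moments [CharZero K] [Fintype G] (n : ℕ) (y : K)
    (hr : ∀ t : K, bf^[n] t = y → ∃ w, bf w = t)
    (h0 : ∀ w : K, bf^[n + 1] w = y → w ≠ 0)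
    (hA : ∀ w : K, bf^[n + 1] w = y → ∃ σ : G, (∀ t : K, bf^[n] t = y → σ • t = t) ∧ σ • w = -w)
    (hB : ∀ w w' : K, bf^[n + 1] w = y → bf^[n + 1] w' = y → bf w ≠ bf w' →
      ∃ σ : G, (∀ t : K, bf^[n] t = y → σ • t = t) ∧ σ • (w * w') = -(w * w')) :
    (∀ α : ℕ → ℝ, ∑ σ : G, α (fixc n y σ) * ((fixc (n + 1) y σ : ℝ) - fixc n y σ) = 0) ∧
    (∀ β : ℕ → ℝ, ∑ σ : G, β (fixc n y σ) *
      (((fixc (n + 1) y σ : ℝ) - fixc n y σ) ^ 2 - fixc n y σ) = 0) ∧
    ∀ σ : G, fixc (n + 1) y σ ≤ 2 * fixc n y σ := by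
  classical
  choose! w hw using hr
  have hwl : ∀ t, bf^[n] t = y → bf^[n + 1] (w t) = y := fun t ht => by
    rw [Function.iterate_succ_apply, hw t ht, ht]
  have hw2 : ∀ t, bf^[n] t = y → (w t) ^ 2 = 1 + t := fun t ht => by
    have := hw t ht
    rw [bf] at this
    linear_combination this
  have hne : ∀ t, bf^[n] t = y → -w t ≠ w t := fun t ht h => by
    apply h0 _ (hwl t ht)
    have : (2 : K) * w t = 0 := by linear_combination -h
    simpa using this
  let H : Subgroup G := fixingSubgroup G {t | bf^[n] t = y}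
  have memH : ∀ a : G, a ∈ H ↔ ∀ t : K, bf^[n] t = y → a • t = t := fun a =>
    mem_fixingSubgroup_iff G
  let e : G → K → ℝ := fun σ t => if σ • w t = w t then 1 else -1
  let F : G → Finset K := fun σ => (lev n y).filter fun t => σ • t = t
  have cases : ∀ (σ : G) t, bf^[n] t = y → σ • t = t → σ • w t = w t ∨ σ • w t = -w t :=
    fun σ t ht h => smul_sq_cases σ (hw2 t ht) (by rw [smul_add, smul_one, h])
  have emul : ∀ (σ a : G) t, bf^[n] t = y → σ • t = t → a • t = t →
      e (σ * a) t = e σ t * e a t := by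
    intro σ a t ht h1 h2
    have := hne t ht
    rcases cases σ t ht h1 with c1 | c1 <;> rcases cases a t ht h2 with c2 | c2 <;>
      simp [e, mul_smul, c1, c2, this]
  have esq : ∀ σ t, e σ t * e σ t = 1 := by
    intro σ t; simp only [e]; split_ifs <;> norm_num
  have ele : ∀ σ a t, e σ t * e a t ≤ 1 := by
    intro σ a t; simp only [e]; split_ifs <;> norm_num
  have count : ∀ σ : G, (fixc (n + 1) y σ : ℝ) = ∑ t ∈ F σ, (1 + e σ t) := by
    intro σ
    have : fixc (n + 1) y σ = ∑ t ∈ F σ,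
        (((lev (n + 1) y).filter fun v => σ • v = v).filter fun v => bf v = t).card := by
      rw [fixc]
      apply card_eq_sum_card_fiberwise
      intro v hv
      simp only [coe_filter, Set.mem_ofPred_eq, mem_lev, F] at hv ⊢
      exact ⟨hv.1, by rw [smul_bf, hv.2]⟩
    rw [this, Nat.cast_sum]
    refine sum_congr rfl fun t ht => ?_
    have ht : bf^[n] t = y := mem_lev.1 (mem_filter.1 ht).1
    have pm : ∀ v, bf v = t → v = w t ∨ v = -w t := fun v hv => by
      apply sq_eq_sq_iff_eq_or_eq_neg.1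
      rw [hw2 t ht, ← hv, bf]; ring
    by_cases c : σ • w t = w t
    · have : (((lev (n + 1) y).filter fun v => σ • v = v).filter fun v => bf v = t) =
          {w t, -w t} := by
        ext v
        simp only [mem_filter, mem_lev, mem_insert, mem_singleton]
        constructor
        · exact fun h => pm v h.2
        · rintro (rfl | rfl)
          · exact ⟨⟨hwl t ht, c⟩, hw t ht⟩
          · have : bf (-w t) = t := by
              have := hw t ht
              simpa [bf] using this
            exact ⟨⟨by rw [Function.iterate_succ_apply, this, ht], by rw [smul_neg, c]⟩, this⟩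
      rw [this, card_pair (hne t ht).symm]
      simp [e, c]; norm_num
    · have : (((lev (n + 1) y).filter fun v => σ • v = v).filter fun v => bf v = t) = ∅ := by
        rw [eq_empty_iff_forall_notMem]
        intro v hv
        simp only [mem_filter, mem_lev] at hv
        rcases pm v hv.2 with rfl | rfl
        · exact c hv.1.2
        · exact c (by simpa using hv.1.2)
      rw [this]
      simp [e, c]
  have FH : ∀ (σ : G) (a : H), F (σ * a) = F σ := by
    intro σ a
    refine filter_congr fun t ht => ?_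
    rw [mul_smul, (memH a).1 a.2 t (mem_lev.1 ht)]
  have sum1 : ∀ t, bf^[n] t = y → ∑ a : H, e a t = 0 := by
    intro t ht
    obtain ⟨σ, s1, s2⟩ := hA _ (hwl t ht)
    refine sum_eq_zero_of_neg (fun a : H => e a t) ⟨σ, (memH σ).2 s1⟩ fun a => ?_
    show e (σ * a) t = -e a t
    have : e σ t = -1 := by simp [e, s2, hne t ht]
    rw [emul σ a t ht (s1 t ht) ((memH a).1 a.2 t ht), this, neg_one_mul]
  have sum2 : ∀ t t', bf^[n] t = y → bf^[n] t' = y → t ≠ t' → ∑ a : H, e a t * e a t' = 0 := by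
    intro t t' ht ht' htt
    obtain ⟨σ, s1, s2⟩ := hB _ _ (hwl t ht) (hwl t' ht') (by rwa [hw t ht, hw t' ht'])
    refine sum_eq_zero_of_neg (fun a : H => e a t * e a t') ⟨σ, (memH σ).2 s1⟩ fun a => ?_
    show e (σ * a) t * e (σ * a) t' = -(e a t * e a t')
    rw [emul σ a t ht (s1 t ht) ((memH a).1 a.2 t ht),
      emul σ a t' ht' (s1 t' ht') ((memH a).1 a.2 t' ht')]
    have n1 := hne t ht
    have n2 := hne t' ht'
    have n3 : -(w t * w t') ≠ w t * w t' := fun h => by
      have : (2 : K) * (w t * w t') = 0 := by linear_combination -h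
      simp [h0 _ (hwl t ht), h0 _ (hwl t' ht')] at this
    have : e σ t * e σ t' = -1 := by
      rw [smul_mul'] at s2
      rcases cases σ t ht (s1 t ht) with c1 | c1 <;>
        rcases cases σ t' ht' (s1 t' ht') with c2 | c2 <;> rw [c1, c2] at s2
      · exact (n3 s2.symm).elim
      · simp [e, c1, c2, n2]
      · simp [e, c1, c2, n1]
      · exact (n3 (by rw [← s2]; ring)).elim
    linear_combination (e a t * e a t') * this
  let Y : G → H → ℝ := fun σ a => ∑ t ∈ F σ, e σ t * e a t
  have memF : ∀ σ t, t ∈ F σ → bf^[n] t = y ∧ σ • t = t := fun σ t ht =>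
    ⟨mem_lev.1 (mem_filter.1 ht).1, (mem_filter.1 ht).2⟩
  have hX : ∀ (σ : G) (a : H), (fixc (n + 1) y (σ * a) : ℝ) = fixc n y σ + Y σ a := by
    intro σ a
    rw [count, FH, sum_add_distrib]
    congr 1
    · simp [fixc, F]
    · exact sum_congr rfl fun t ht =>
        emul σ a t (memF σ t ht).1 (memF σ t ht).2 ((memH a).1 a.2 t (memF σ t ht).1)
  have Y1 : ∀ σ, ∑ a, Y σ a = 0 := by
    intro σ
    rw [sum_comm]
    refine sum_eq_zero fun t ht => ?_
    rw [← mul_sum, sum1 t (memF σ t ht).1, mul_zero]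
  have Y2 : ∀ σ, ∑ a, Y σ a ^ 2 = Fintype.card H * fixc n y σ := by
    intro σ
    have : ∀ a, Y σ a ^ 2 = ∑ t ∈ F σ, ∑ t' ∈ F σ, (e σ t * e σ t') * (e a t * e a t') := by
      intro a
      rw [pow_two, sum_mul_sum]
      exact sum_congr rfl fun t _ => sum_congr rfl fun t' _ => by ring
    simp only [this]
    rw [sum_comm]
    have : ∀ t ∈ F σ, ∑ a : H, ∑ t' ∈ F σ, (e σ t * e σ t') * (e a t * e a t') =
        Fintype.card H := by
      intro t ht
      rw [sum_comm, sum_eq_single t]
      · simp [esq]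
      · intro t' ht' hne
        rw [← mul_sum, sum2 t t' (memF σ t ht).1 (memF σ t' ht').1 hne.symm, mul_zero]
      · exact fun h => (h ht).elim
    rw [sum_congr rfl this]
    simp [fixc, F, mul_comm]
  have Y3 : ∀ σ a, Y σ a ≤ fixc n y σ := by
    intro σ a
    calc Y σ a ≤ ∑ _t ∈ F σ, (1 : ℝ) := sum_le_sum fun t _ => ele _ _ _
      _ = _ := by simp [fixc, F]
  have H0 : (0 : ℝ) < Fintype.card H := by exact_mod_cast Fintype.card_pos
  have hF : ∀ (σ : G) (a : H), fixc n y (σ * a) = fixc n y σ := fun σ a =>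
    congrArg Finset.card (FH σ a)
  refine ⟨fun α => ?_, fun β => ?_, fun σ => ?_⟩
  · apply mul_left_cancel₀ H0.ne'
    rw [← sum_coset H fun σ => α (fixc n y σ) * ((fixc (n + 1) y σ : ℝ) - fixc n y σ), mul_zero]
    refine sum_eq_zero fun σ _ => ?_
    simp only [hX, hF, add_sub_cancel_left]
    rw [← mul_sum, Y1, mul_zero]
  · apply mul_left_cancel₀ H0.ne'
    rw [← sum_coset H fun σ => β (fixc n y σ) *
      (((fixc (n + 1) y σ : ℝ) - fixc n y σ) ^ 2 - fixc n y σ), mul_zero]
    refine sum_eq_zero fun σ _ => ?_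
    simp only [hX, hF, add_sub_cancel_left]
    rw [← mul_sum, sum_sub_distrib, Y2]
    simp
  · have h1 := hX σ 1
    have h2 := Y3 σ 1
    rw [OneMemClass.coe_one, mul_one] at h1
    have : (fixc (n + 1) y σ : ℝ) ≤ 2 * fixc n y σ := by linarith
    exact_mod_cast this

/-- The Galois group of the field of `N`-th preimages of `1`. -/
abbrev Gal (N : ℕ) : Type := Kf N ≃ₐ[ℚ] Kf N

theorem proc {N L : ℕ} (hL : L + 5 ≤ N) {y : Kf N} (hy : bf^[2] y = 1) :
    Proc (fun m (σ : Gal N) => fixc (m + 3) y σ) L := by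
  have up : ∀ j t, bf^[j] t = y → bf^[j + 2] t = 1 := by
    intro j t ht
    rw [add_comm j 2, Function.iterate_add_apply, ht, hy]
  have G := good_level_two (y := (y : Qb)) (by rw [← coe_iter, hy]; rfl)
  have co : ∀ j (t : Kf N), bf^[j] t = y → bf^[j] (t : Qb) = y := by
    intro j t ht; rw [← coe_iter, ht]
  have key := fun m (hm : m < L) => moments (G := Gal N) (m + 3) y
    (fun t ht => root_Kf (by omega) t (up _ t ht))
    (by
      rintro w hw rfl
      exact iter_zero_ne _ (up _ _ hw))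
    (by
      intro w hw
      obtain ⟨σ, s1, s2⟩ := (separation G m).1 w (co _ w hw)
      obtain ⟨τ, hτ⟩ := restrict (N := N) σ
      refine ⟨τ, fun t ht => Subtype.ext ?_, Subtype.ext ?_⟩
      · rw [hτ]; exact s1 t (co _ t ht)
      · rw [hτ]; exact s2)
    (by
      intro w w' hw hw' hne
      obtain ⟨σ, s1, s2⟩ := (separation G m).2 w w' (co _ w hw) (co _ w' hw')
        fun h => hne (Subtype.ext h)
      obtain ⟨τ, hτ⟩ := restrict (N := N) σ
      refine ⟨τ, fun t ht => Subtype.ext ?_, Subtype.ext ?_⟩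
      · rw [hτ]; exact s1 t (co _ t ht)
      · rw [hτ]; exact s2)
  exact ⟨fun m hm => (key m hm).1, fun m hm => (key m hm).2.1, fun m hm => (key m hm).2.2⟩

theorem fixc_le (n : ℕ) (y : K) (σ : G) : fixc n y σ ≤ 2 ^ n := by
  classical
  exact (card_filter_le _ _).trans (card_lev n y)

theorem fixc_le_up {y x : K} {d : ℕ} (hy : bf^[d] y = x) (n : ℕ) (σ : G) :
    fixc n y σ ≤ fixc (n + d) x σ := by
  classical
  refine card_le_card fun t ht => ?_
  simp only [mem_filter, mem_lev] at ht ⊢
  exact ⟨by rw [add_comm, Function.iterate_add_apply, ht.1, hy], ht.2⟩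

theorem fixc_le_sum (x : K) (n d : ℕ) (σ : G) :
    fixc (n + d) x σ ≤ ∑ y ∈ lev d x, fixc n y σ := by
  classical
  refine le_trans (card_le_card fun t ht => ?_) card_biUnion_le
  simp only [mem_filter, mem_lev, mem_biUnion] at ht ⊢
  exact ⟨bf^[n] t, by rw [← Function.iterate_add_apply, add_comm, ht.1], rfl, ht.2⟩

theorem sum_start_le [Fintype G] (y : K) :
    ∑ σ : G, (fixc 3 y σ : ℝ) ≤ 8 * Fintype.card G := by
  calc _ ≤ ∑ _σ : G, (8 : ℝ) := sum_le_sum fun σ _ => by exact_mod_cast fixc_le 3 y σ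
    _ = _ := by simp [mul_comm]

theorem sum_start_ge [Fintype G] {y t : K} (hy : bf^[2] y = 1) (ht : bf^[3] t = y) :
    (Fintype.card G : ℝ) ≤ 32 * ∑ σ : G, (fixc 3 y σ : ℝ) := by
  classical
  have h5 : bf^[5] t = 1 := by rw [show 5 = 2 + 3 from rfl, Function.iterate_add_apply, ht, hy]
  have sub : MulAction.orbit G t ⊆ ↑(lev 5 (1 : K)) := by
    rintro _ ⟨g, rfl⟩
    rw [mem_coe, mem_lev, ← smul_iter, h5, smul_one]
  have o1 : (MulAction.orbit G t).ncard ≤ 32 := by
    have := Set.ncard_le_ncard sub (Finset.finite_toSet _)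
    rw [Set.ncard_coe_finset] at this
    exact this.trans (card_lev 5 1)
  have o2 := (MulAction.stabilizer G t).index_mul_card
  rw [MulAction.index_stabilizer, Nat.card_eq_fintype_card, Nat.card_eq_fintype_card] at o2
  have o3 : Fintype.card (MulAction.stabilizer G t) ≤ ∑ σ : G, fixc 3 y σ := by
    rw [Fintype.card_subtype, card_filter]
    refine sum_le_sum fun σ _ => ?_
    split_ifs with c
    · exact fixc_pos.2 ⟨t, ht, c⟩
    · exact Nat.zero_le _
  have : Fintype.card G ≤ 32 * ∑ σ : G, fixc 3 y σ := by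
    rw [← o2]; exact Nat.mul_le_mul o1 o3
  exact_mod_cast this

end Pool.Agent.Lib.MP_dd5d2d_nt.Tail
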