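import Mathlib
import Pool.Agent.Lib.MP_dd5d2d_nt.Tail2

/-! Two-sided bounds for the proportion of Galois elements with many fixed points in the tree. -/

namespace Pool.Agent.Lib.MP_dd5d2d_nt.Tail

open Finset

/-- Two plus the number of fixed points up to level `N`. -/
noncomputable def tot (N : ℕ) (σ : Gal N) : ℕ := 2 + ∑ j ∈ range (N + 1), fixc j (1 : Kf N) σ

theorem fixc_zero_mono {K : Type} [Field K] {G : Type} [Group G] [MulSemiringAction G K] {y : K}
    {σ : G} {n : ℕ} (h : fixc n y σ = 0) : ∀ k, n ≤ k → fixc k y σ = 0 := by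
  intro k hk
  induction k, hk using Nat.le_induction with
  | base => exact h
  | succ k _ ih =>
    by_contra c
    have := fixc_pos_succ (Nat.pos_of_ne_zero c)
    omega

theorem sum_level_le {N j : ℕ} (hj : j ≤ N) :
    ∑ σ : Gal N, (fixc j (1 : Kf N) σ : ℝ) ≤ 32 * Fintype.card (Gal N) := by
  have G0 : (0 : ℝ) ≤ Fintype.card (Gal N) := by positivity
  by_cases c : j ≤ 5
  · calc _ ≤ ∑ _σ : Gal N, (32 : ℝ) := sum_le_sum fun σ _ => by
          have : fixc j (1 : Kf N) σ ≤ 32 :=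
            (fixc_le j 1 σ).trans (Nat.pow_le_pow_right (by norm_num) c)
          exact_mod_cast this
      _ = _ := by simp [mul_comm]
  · obtain ⟨m, rfl⟩ : ∃ m, j = m + 3 + 2 := ⟨j - 5, by omega⟩
    have c2 : ((lev 2 (1 : Kf N)).card : ℝ) ≤ 4 := by exact_mod_cast card_lev 2 (1 : Kf N)
    calc _ ≤ ∑ σ : Gal N, ∑ y ∈ lev 2 (1 : Kf N), (fixc (m + 3) y σ : ℝ) :=
          sum_le_sum fun σ _ => by exact_mod_cast fixc_le_sum (1 : Kf N) (m + 3) 2 σ
      _ ≤ ∑ _y ∈ lev 2 (1 : Kf N), 8 * (Fintype.card (Gal N) : ℝ) := by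
          rw [sum_comm]
          refine sum_le_sum fun y hy => ?_
          rw [(proc (L := m) (by omega) (mem_lev.1 hy)).sum_eq m le_rfl]
          exact sum_start_le y
      _ ≤ _ := by
          rw [sum_const, nsmul_eq_mul]; nlinarith

theorem upper {N M B : ℕ} (hM : M + 5 ≤ N) (hB : 1 ≤ B) :
    ((univ.filter fun σ : Gal N => B < tot N σ).card : ℝ) ≤
      (231 / (M + 2) + (161 + 32 * M) / B) * Fintype.card (Gal N) := by
  classical
  have B0 : (0 : ℝ) < B := by exact_mod_cast hB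
  have G0 : (0 : ℝ) ≤ Fintype.card (Gal N) := by positivity
  have pt : ∀ σ : Gal N, (if B < tot N σ then (1 : ℝ) else 0) ≤
      ∑ y ∈ lev 2 (1 : Kf N), (if 0 < fixc (M + 3) y σ then (1 : ℝ) else 0) +
      (1 + ∑ j ∈ range (M + 5), (fixc j (1 : Kf N) σ : ℝ)) / B := by
    intro σ
    have p1 : 0 ≤ ∑ y ∈ lev 2 (1 : Kf N), (if 0 < fixc (M + 3) y σ then (1 : ℝ) else 0) :=
      sum_nonneg fun _ _ => by positivity
    have p2 : 0 ≤ (1 + ∑ j ∈ range (M + 5), (fixc j (1 : Kf N) σ : ℝ)) / B := by positivity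
    split_ifs with c
    · by_cases d : ∃ y ∈ lev 2 (1 : Kf N), 0 < fixc (M + 3) y σ
      · obtain ⟨y, hy, d⟩ := d
        have := single_le_sum (f := fun y => if 0 < fixc (M + 3) y σ then (1 : ℝ) else 0)
          (fun _ _ => by positivity) hy
        simp only [d, if_true] at this
        linarith
      · push Not at d
        have z : fixc (M + 3 + 2) (1 : Kf N) σ = 0 := by
          have := fixc_le_sum (1 : Kf N) (M + 3) 2 σ
          rw [sum_eq_zero fun y hy => Nat.le_zero.1 (d y hy)] at this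
          omega
        have e : ∑ j ∈ range (M + 5), fixc j (1 : Kf N) σ =
            ∑ j ∈ range (N + 1), fixc j (1 : Kf N) σ :=
          sum_subset (range_subset_range.2 (by omega)) fun j _ hj =>
            fixc_zero_mono z j (by simpa using hj)
        have : B ≤ 1 + ∑ j ∈ range (M + 5), fixc j (1 : Kf N) σ := by
          rw [e]; unfold tot at c; omega
        have : (1 : ℝ) ≤ (1 + ∑ j ∈ range (M + 5), (fixc j (1 : Kf N) σ : ℝ)) / B := by
          rw [one_le_div B0]; exact_mod_cast this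
        linarith
    · linarith
  have a1 := sum_le_sum fun σ (_ : σ ∈ univ) => pt σ
  rw [sum_boole, sum_add_distrib, sum_comm, ← sum_div, sum_add_distrib] at a1
  have a2 : ∑ y ∈ lev 2 (1 : Kf N), ∑ σ : Gal N, (if 0 < fixc (M + 3) y σ then (1 : ℝ) else 0) ≤
      231 / (M + 2) * Fintype.card (Gal N) := by
    have c2 : ((lev 2 (1 : Kf N)).card : ℝ) ≤ 4 := by exact_mod_cast card_lev 2 (1 : Kf N)
    refine (sum_le_card_nsmul _ _ (231 / 4 / (M + 2) * (Fintype.card (Gal N) : ℝ))
      fun y hy => ?_).trans ?_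
    · rw [sum_boole, div_mul_eq_mul_div, le_div_iff₀ (by positivity)]
      have b1 := (proc (L := M) hM (mem_lev.1 hy)).surv le_rfl
      have b2 := sum_start_le (G := Gal N) y
      refine b1.trans ?_
      simp only [zero_add]
      linarith
    · rw [nsmul_eq_mul]
      calc _ ≤ 4 * (231 / 4 / (M + 2) * (Fintype.card (Gal N) : ℝ)) := by gcongr
        _ = _ := by ring
  have a3 : ∑ j ∈ range (M + 5), ∑ σ : Gal N, (fixc j (1 : Kf N) σ : ℝ) ≤
      (M + 5) * (32 * Fintype.card (Gal N)) := by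
    refine (sum_le_card_nsmul _ _ (32 * (Fintype.card (Gal N) : ℝ)) fun j hj =>
      sum_level_le (by have := mem_range.1 hj; omega)).trans (by simp)
  refine a1.trans ?_
  rw [add_mul]
  refine add_le_add a2 ?_
  rw [div_mul_eq_mul_div]
  gcongr
  rw [sum_comm] at a3
  simp only [sum_const, card_univ, nsmul_eq_mul, mul_one]
  linarith

theorem exists_root {N : ℕ} : ∀ d j, j + d ≤ N → ∀ y : Kf N, bf^[j] y = 1 → ∃ t, bf^[d] t = y := by
  intro d
  induction d with
  | zero => exact fun _ _ y _ => ⟨y, rfl⟩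
  | succ d ih =>
    intro j hj y hy
    obtain ⟨t, ht⟩ := ih j (by omega) y hy
    obtain ⟨w, hw⟩ := root_Kf (show j + d < N by omega) t
      (by rw [Function.iterate_add_apply, ht, hy])
    exact ⟨w, by rw [Function.iterate_succ_apply, hw, ht]⟩

theorem lower {N M B : ℕ} (hM : 4 * M + 5 ≤ N) (h1 : 1 ≤ M) (hB : 29 * B ≤ 4 * M ^ 2) :
    (Fintype.card (Gal N) : ℝ) ≤
      512 * (M + 2) * (univ.filter fun σ : Gal N => B < tot N σ).card := by
  classical
  obtain ⟨y, hy⟩ := exists_root (N := N) 2 0 (by omega) 1 rfl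
  obtain ⟨t, ht⟩ := exists_root (N := N) 3 2 (by omega) y hy
  have a1 := sum_start_ge (G := Gal N) hy ht
  have a2 := (proc hM hy).lower h1 (fun σ => fixc_le 3 y σ) (t := B) (by positivity)
    (by exact_mod_cast hB)
  have a3 : (univ.filter fun σ : Gal N =>
      (B : ℝ) < ∑ m ∈ range (4 * M), (fixc (m + 3) y σ : ℝ)) ⊆
      univ.filter fun σ : Gal N => B < tot N σ := by
    intro σ hσ
    have b1 : B < ∑ m ∈ range (4 * M), fixc (m + 3) y σ := by exact_mod_cast (mem_filter.1 hσ).2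
    have b2 : ∑ m ∈ range (4 * M), fixc (m + 3) y σ ≤
        ∑ m ∈ range (4 * M), fixc (5 + m) (1 : Kf N) σ := sum_le_sum fun m _ => by
      rw [show 5 + m = m + 3 + 2 by ring]; exact fixc_le_up hy _ σ
    have b3 := sum_range_add (fun j => fixc j (1 : Kf N) σ) 5 (4 * M)
    have b4 : ∑ j ∈ range (5 + 4 * M), fixc j (1 : Kf N) σ ≤
        ∑ j ∈ range (N + 1), fixc j (1 : Kf N) σ :=
      sum_le_sum_of_subset (range_subset_range.2 (by omega))
    refine mem_filter.2 ⟨mem_univ _, ?_⟩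
    unfold tot
    omega
  have a4 : ((univ.filter fun σ : Gal N =>
      (B : ℝ) < ∑ m ∈ range (4 * M), (fixc (m + 3) y σ : ℝ)).card : ℝ) ≤
      (univ.filter fun σ : Gal N => B < tot N σ).card := by exact_mod_cast card_le_card a3
  simp only [zero_add] at a2
  refine a1.trans ?_
  calc _ ≤ 32 * (16 * ((M : ℝ) + 2) * (univ.filter fun σ : Gal N => B < tot N σ).card) := by
        gcongr
        exact a2.trans (by gcongr)
    _ = _ := by ring

theorem prop_bounds {B : ℕ} (hB : 1 ≤ B) : ∃ N, B ≤ N ∧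
    1 / 4096 / √B ≤ ((univ.filter fun σ : Gal N => B < tot N σ).card : ℝ) / Fintype.card (Gal N) ∧
    ((univ.filter fun σ : Gal N => B < tot N σ).card : ℝ) / Fintype.card (Gal N) ≤ 424 / √B := by
  set r := Nat.sqrt B with hr
  have r1 : (r : ℝ) ≤ √B := Real.nat_sqrt_le_real_sqrt
  have r2 : √B < (r : ℝ) + 1 := Real.real_sqrt_lt_nat_sqrt_succ
  have r3 : B < (r + 1) ^ 2 := Nat.lt_succ_sqrt' B
  have B1 : (1 : ℝ) ≤ B := by exact_mod_cast hB
  have s1 : (1 : ℝ) ≤ √B := Real.one_le_sqrt.2 B1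
  have s2 : √B * √B = (B : ℝ) := Real.mul_self_sqrt (by positivity)
  refine ⟨B + 4 * (3 * (r + 1)) + 5, by omega, ?_, ?_⟩
  · have := lower (N := B + 4 * (3 * (r + 1)) + 5) (M := 3 * (r + 1)) (B := B) (by omega)
      (by omega) (by nlinarith)
    have G0 : (0 : ℝ) < Fintype.card (Gal (B + 4 * (3 * (r + 1)) + 5)) := by
      exact_mod_cast Fintype.card_pos
    rw [div_le_div_iff₀ (by positivity) G0]
    push_cast at this
    generalize ((univ.filter fun σ : Gal (B + 4 * (3 * (r + 1)) + 5) =>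
      B < tot _ σ).card) = c at this ⊢
    have c0 : (0 : ℝ) ≤ c := by positivity
    nlinarith [mul_le_mul_of_nonneg_right r1 c0, mul_le_mul_of_nonneg_right s1 c0]
  · have := upper (N := B + 4 * (3 * (r + 1)) + 5) (M := r) (by omega) hB
    have G0 : (0 : ℝ) < Fintype.card (Gal (B + 4 * (3 * (r + 1)) + 5)) := by
      exact_mod_cast Fintype.card_pos
    rw [div_le_iff₀ G0]
    refine this.trans ?_
    gcongr
    have b1 : 231 / ((r : ℝ) + 2) ≤ 231 / √B := by gcongr; linarith
    have b2 : (161 + 32 * (r : ℝ)) / B ≤ 193 / √B := by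
      rw [div_le_div_iff₀ (by positivity) (by positivity)]
      nlinarith
    calc _ ≤ 231 / √B + 193 / √B := add_le_add b1 b2
      _ = _ := by ring

end Pool.Agent.Lib.MP_dd5d2d_nt.Tail
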