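import Mathlib
import Pool.Agent.Lib.MP_dd5d2d_nt.Tail3

/-! Fixed points of Frobenius in the tree over `1` are the residues modulo `p` in that tree. -/

namespace Pool.Agent.Lib.MP_dd5d2d_nt.Tail

open Finset Filter Topology NumberField
open Pool.Agent.Shared.PrimeZeta Pool.Agent.Shared.FrobeniusDensity

theorem co {N : ℕ} (j : ℕ) (t : 𝓞 (Kf N)) : ((bf^[j] t : 𝓞 (Kf N)) : Kf N) = bf^[j] (t : Kf N) :=
  map_iter (algebraMap (𝓞 (Kf N)) (Kf N)) j t

theorem lift_sqrt {N j : ℕ} (hj : j < N) (t : 𝓞 (Kf N)) (ht : bf^[j] t = 1) :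
    ∃ v : 𝓞 (Kf N), bf v = t := by
  obtain ⟨w, hw⟩ := root_Kf hj (t : Kf N) (by rw [← co, ht]; rfl)
  have hint : IsIntegral ℤ w := by
    refine IsIntegral.of_pow (n := 2) (by norm_num) ?_
    rw [show w ^ 2 = 1 + (t : Kf N) by rw [← hw, bf]; ring]
    exact isIntegral_one.add t.isIntegral_coe
  exact ⟨⟨w, hint⟩, RingOfIntegers.ext ((co 1 _).trans hw)⟩

theorem integral_level {N : ℕ} (j : ℕ) : ∀ t : Kf N, bf^[j] t = 1 → IsIntegral ℤ t := by
  induction j with
  | zero => rintro t rfl; exact isIntegral_one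
  | succ j ih =>
    intro t ht
    refine IsIntegral.of_pow (n := 2) (by norm_num) ?_
    rw [show t ^ 2 = 1 + bf t by rw [bf]; ring]
    exact isIntegral_one.add (ih _ ht)

theorem lift_level {N : ℕ} {F : Type} [Field F] (r : 𝓞 (Kf N) →+* F) :
    ∀ j ≤ N, ∀ u : F, bf^[j] u = 1 → ∃ t : 𝓞 (Kf N), bf^[j] t = 1 ∧ r t = u := by
  intro j
  induction j with
  | zero => rintro - u rfl; exact ⟨1, rfl, map_one r⟩
  | succ j ih =>
    intro hj u hu
    obtain ⟨t, h1, h2⟩ := ih (by omega) (bf u) hu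
    obtain ⟨v, hv⟩ := lift_sqrt (show j < N by omega) t h1
    have e : (r v) ^ 2 = u ^ 2 := by
      have := map_iter r 1 v
      simp only [Function.iterate_one] at this
      rw [hv, h2] at this
      simp only [bf] at this
      linear_combination -this
    rcases sq_eq_sq_iff_eq_or_eq_neg.1 e with h | h
    · exact ⟨v, by rw [Function.iterate_succ_apply, hv, h1], h⟩
    · exact ⟨-v, by rw [Function.iterate_succ_apply, show bf (-v) = t by
        rw [← hv]; simp [bf], h1], by rw [map_neg, h, neg_neg]⟩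

theorem frob_count (N : ℕ) : ∀ᶠ p : ℕ in atTop, ∀ [Fact p.Prime], ∀ φ : Gal N, IsFrob p φ →
    ∀ j ≤ N, (lev j (1 : ZMod p)).card = fixc j (1 : Kf N) φ := by
  classical
  have fin : {t : 𝓞 (Kf N) | ∃ j ≤ N, bf^[j] t = 1}.Finite := by
    refine (((Set.finite_le_nat N).biUnion fun j _ => finite_level j (1 : Kf N)).preimage
      (f := fun t : 𝓞 (Kf N) => (t : Kf N)) RingOfIntegers.coe_injective.injOn).subset ?_
    rintro t ⟨j, hj, ht⟩
    refine Set.mem_biUnion hj ?_
    show bf^[j] (t : Kf N) = 1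
    rw [← co, ht]; rfl
  have sep : ∀ᶠ p : ℕ in atTop, ∀ t ∈ {t : 𝓞 (Kf N) | ∃ j ≤ N, bf^[j] t = 1},
      ∀ t' ∈ {t : 𝓞 (Kf N) | ∃ j ≤ N, bf^[j] t = 1}, p.Prime → ∀ P : Ideal (𝓞 (Kf N)), P.IsPrime →
        (p : 𝓞 (Kf N)) ∈ P → t - t' ∈ P → t = t' := by
    rw [eventually_all_finite fin]
    intro t _
    rw [eventually_all_finite fin]
    intro t' _
    by_cases h : t = t'
    · exact Eventually.of_forall fun _ _ _ _ _ _ => h
    · filter_upwards [eventually_notMem (sub_ne_zero.2 h)] with p hp hpp P hP h1 h2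
      exact (hp hpp P hP h1 h2).elim
  filter_upwards [sep] with p sep hp φ ⟨P, hP, hpP, hφ⟩ j hj
  have hP0 : P ≠ ⊥ := by
    rintro rfl
    exact hp.out.ne_zero (by simpa using hpP)
  have hM := hP.isMaximal hP0
  let _ := Ideal.Quotient.field P
  let r := Ideal.Quotient.mk P
  have : CharP (𝓞 (Kf N) ⧸ P) p := (CharP.charP_iff_prime_eq_zero hp.out).2 (by
    rw [← map_natCast r]; exact Ideal.Quotient.eq_zero_iff_mem.2 hpP)
  let ι := ZMod.castHom (dvd_refl p) (𝓞 (Kf N) ⧸ P)
  have inj : ∀ t t' : 𝓞 (Kf N), bf^[j] t = 1 → bf^[j] t' = 1 → r t = r t' → t = t' :=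
    fun t t' h h' e => sep t ⟨j, hj, h⟩ t' ⟨j, hj, h'⟩ hp.out P hP hpP (Ideal.Quotient.eq.1 e)
  have fr : ∀ t : 𝓞 (Kf N), r (φ • t) = r t ^ p := fun t => by
    rw [← map_pow]; exact Ideal.Quotient.eq.2 (hφ t)
  have hl : ∀ t : 𝓞 (Kf N), bf^[j] t = 1 → bf^[j] (φ • t) = 1 := fun t h1 => by
    have := map_iter (MulSemiringAction.toRingHom _ (𝓞 (Kf N)) φ) j t
    rw [h1, map_one] at this
    exact this.symm
  have ex : ∀ a : ZMod p, bf^[j] a = 1 → ∃ t : 𝓞 (Kf N), bf^[j] t = 1 ∧ r t = ι a := fun a ha =>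
    lift_level r j hj (ι a) (by rw [← map_iter, ha, map_one])
  choose! g hg using ex
  rw [fixc]
  refine card_bij (fun a _ => (g a : Kf N)) (fun a ha => ?_) (fun a ha b hb e => ?_) fun t ht => ?_
  · obtain ⟨g1, g2⟩ := hg a (mem_lev.1 ha)
    simp only [mem_filter]
    refine ⟨mem_lev.2 (by rw [← co, g1]; rfl), ?_⟩
    have : φ • g a = g a := inj _ _ (hl _ g1) g1 (by rw [fr, g2, ← map_pow, ZMod.pow_card])
    exact congrArg (fun z : 𝓞 (Kf N) => (z : Kf N)) this
  · apply ι.injective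
    rw [← (hg a (mem_lev.1 ha)).2, ← (hg b (mem_lev.1 hb)).2, RingOfIntegers.ext e]
  · simp only [mem_filter] at ht
    obtain ⟨h1, h2⟩ := ht
    have h1 := mem_lev.1 h1
    let v : 𝓞 (Kf N) := ⟨t, integral_level j t h1⟩
    have v1 : bf^[j] v = 1 := RingOfIntegers.ext ((co j v).trans h1)
    have v2 : φ • v = v := RingOfIntegers.ext h2
    have v3 : r v ^ p = r v := by rw [← fr, v2]
    obtain ⟨n, hn⟩ := (mem_bot_iff_intCast p _).1 ((Subfield.mem_bot_iff_pow_eq_self _ p).2 v3)
    have e : ι (n : ZMod p) = r v := by rw [map_intCast, hn]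
    have a1 : bf^[j] (n : ZMod p) = 1 := by
      apply ι.injective
      rw [map_iter, e, ← map_iter, v1, map_one, map_one]
    refine ⟨n, mem_lev.2 a1, ?_⟩
    rw [inj _ _ (hg _ a1).1 v1 ((hg _ a1).2.trans e)]
    rfl

theorem iter_one {F : Type} [Field F] (k : ℕ) :
    bf^[k + 1] (1 : F) = 0 ∨ bf^[k + 1] (1 : F) = -1 := by
  induction k with
  | zero => left; simp [bf]
  | succ k ih =>
    rw [Function.iterate_succ_apply']
    rcases ih with h | h <;> simp [h, bf]

theorem iter_cyc {F : Type} [Field F] {a : F} (h : a = 0 ∨ a = -1) (k : ℕ) :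
    bf^[k] a = 0 ∨ bf^[k] a = -1 := by
  induction k with
  | zero => exact h
  | succ k ih =>
    rw [Function.iterate_succ_apply']
    rcases ih with h | h <;> simp [h, bf]

theorem reach_iff {F : Type} [Field F] (a : F) :
    (∃ k, bf^[k] a = 0) ↔ a = 0 ∨ a = -1 ∨ ∃ j, bf^[j] a = 1 := by
  constructor
  · rintro ⟨k, hk⟩
    induction k generalizing a with
    | zero => exact Or.inl hk
    | succ k ih =>
      rcases ih (bf a) hk with h | h | ⟨j, h⟩
      · have : a ^ 2 = 1 ^ 2 := by rw [bf] at h; linear_combination h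
        rcases sq_eq_sq_iff_eq_or_eq_neg.1 this with h | h
        · exact Or.inr (Or.inr ⟨0, h⟩)
        · exact Or.inr (Or.inl h)
      · have : a ^ 2 = 0 := by rw [bf] at h; linear_combination h
        exact Or.inl (pow_eq_zero_iff (by norm_num) |>.1 this)
      · exact Or.inr (Or.inr ⟨j + 1, h⟩)
  · rintro (rfl | rfl | ⟨j, h⟩)
    · exact ⟨0, rfl⟩
    · exact ⟨1, by simp [bf]⟩
    · exact ⟨j + 1, by rw [Function.iterate_succ_apply', h]; simp [bf]⟩

theorem reach_card {F : Type} [Field F] [Finite F] (h2 : (1 : F) ≠ -1) {B N : ℕ} (hN : B ≤ N) :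
    B < {a : F | ∃ k, bf^[k] a = 0}.ncard ↔ B < 2 + ∑ j ∈ range (N + 1), (lev j (1 : F)).card := by
  classical
  have ne : ∀ {a : F}, a = 0 ∨ a = -1 → a ≠ 1 := by
    rintro a (rfl | rfl)
    · exact zero_ne_one
    · exact h2.symm
  have dis : ∀ i j, i < j → Disjoint (lev i (1 : F)) (lev j 1) := by
    intro i j hij
    rw [disjoint_left]
    intro a hi hj
    obtain ⟨d, rfl⟩ := Nat.exists_eq_add_of_lt hij
    rw [mem_lev] at hi hj
    rw [show i + d + 1 = d + 1 + i by ring, Function.iterate_add_apply, hi] at hj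
    exact ne (iter_one d) hj
  set T : Finset F := {0, -1} ∪ (range (N + 1)).biUnion fun j => lev j (1 : F) with hT
  have cT : T.card = 2 + ∑ j ∈ range (N + 1), (lev j (1 : F)).card := by
    rw [hT, card_union_of_disjoint, card_pair (by simp), card_biUnion]
    · intro i _ j _ hij
      rcases lt_or_gt_of_ne hij with h | h
      · exact dis i j h
      · exact (dis j i h).symm
    · rw [disjoint_left]
      intro a ha hb
      obtain ⟨j, -, hj⟩ := mem_biUnion.1 hb
      exact ne (iter_cyc (by simpa using ha) j) (mem_lev.1 hj)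
  have sub : (T : Set F) ⊆ {a : F | ∃ k, bf^[k] a = 0} := by
    intro a ha
    refine (reach_iff a).2 ?_
    simp only [hT, coe_union, coe_insert, coe_singleton, coe_biUnion, Set.mem_union,
      Set.mem_insert_iff, Set.mem_singleton_iff, Set.mem_iUnion, mem_coe, mem_lev] at ha
    rcases ha with (h | h) | ⟨j, -, h⟩
    · exact Or.inl h
    · exact Or.inr (Or.inl h)
    · exact Or.inr (Or.inr ⟨j, h⟩)
  constructor
  · intro h
    by_cases c : ∃ a : F, bf^[N] a = 1
    · obtain ⟨a, ha⟩ := c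
      have : ∑ _j ∈ range (N + 1), 1 ≤ ∑ j ∈ range (N + 1), (lev j (1 : F)).card :=
        sum_le_sum fun j hj => card_pos.2 ⟨bf^[N - j] a, mem_lev.2 (by
          rw [← Function.iterate_add_apply, Nat.add_sub_cancel' (by simpa [Nat.lt_succ_iff] using hj),
            ha])⟩
      simp only [sum_const, card_range, smul_eq_mul, mul_one] at this
      omega
    · have : {a : F | ∃ k, bf^[k] a = 0} ⊆ (T : Set F) := by
        intro a ha
        simp only [hT, coe_union, coe_insert, coe_singleton, coe_biUnion, Set.mem_union,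
          Set.mem_insert_iff, Set.mem_singleton_iff, Set.mem_iUnion, mem_coe, mem_lev]
        rcases (reach_iff a).1 ha with h | h | ⟨j, h⟩
        · exact Or.inl (Or.inl h)
        · exact Or.inl (Or.inr h)
        · refine Or.inr ⟨j, mem_range.2 ?_, h⟩
          by_contra hj
          exact c ⟨bf^[j - N] a, by
            rw [← Function.iterate_add_apply, Nat.add_sub_cancel' (by omega), h]⟩
      have := Set.ncard_le_ncard this (Finset.finite_toSet _)
      rw [Set.ncard_coe_finset, cT] at this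
      omega
  · intro h
    have := Set.ncard_le_ncard sub (Set.toFinite _)
    rw [Set.ncard_coe_finset, cT] at this
    omega

theorem fixc_conj {K : Type} [Field K] {G : Type} [Group G] [MulSemiringAction G K] (j : ℕ)
    (σ g : G) : fixc j (1 : K) (g⁻¹ * σ * g) = fixc j (1 : K) σ := by
  classical
  refine card_bij (fun t _ => g • t) (fun t ht => ?_) (fun a _ b _ e => by simpa using e)
    fun t ht => ⟨g⁻¹ • t, ?_, by simp⟩
  · simp only [mem_filter, mem_lev] at ht ⊢
    refine ⟨by rw [← smul_iter, ht.1, smul_one], ?_⟩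
    have := ht.2
    rwa [mul_smul, mul_smul, inv_smul_eq_iff] at this
  · simp only [mem_filter, mem_lev] at ht ⊢
    refine ⟨by rw [← smul_iter, ht.1, smul_one], ?_⟩
    rw [mul_smul, mul_smul, smul_inv_smul, ht.2]

theorem fixc_zpowers {K : Type} [Field K] {G : Type} [Group G] [MulSemiringAction G K] (j : ℕ)
    {σ τ : G} (h : Subgroup.zpowers σ = Subgroup.zpowers τ) :
    fixc j (1 : K) σ ≤ fixc j (1 : K) τ := by
  classical
  refine card_le_card fun t ht => ?_
  simp only [mem_filter] at ht ⊢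
  have : Subgroup.zpowers σ ≤ MulAction.stabilizer _ t := Subgroup.zpowers_le.2 ht.2
  exact ⟨ht.1, this (h ▸ Subgroup.mem_zpowers τ)⟩

open scoped Classical in
theorem tail {B : ℕ} (hB : 1 ≤ B) : ∃ δ : ℝ,
    Lim (fun p => if B < {a : ZMod p | ∃ k, bf^[k] a = 0}.ncard then 1 else 0) δ ∧
      1 / 4096 / √B ≤ δ ∧ δ ≤ 424 / √B := by
  obtain ⟨N, hN, l, u⟩ := prop_bounds hB
  have bd : ∀ (q : ℕ → Prop) [DecidablePred q], Bdd fun p => if q p then 1 else 0 := fun q _ =>
    ⟨1, fun p _ => by dsimp only; split_ifs <;> simp⟩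
  choose! φ hφ using fun p => exists_isFrob (K := Kf N) (p := p)
  have fd := frobenius_density φ hφ {σ | B < tot N σ} ?_ ?_
  · refine ⟨_, ?_, l, u⟩
    refine Lim.congr (bd fun p => φ p ∈ {σ | B < tot N σ}) (bd _) (by convert fd; rfl) ?_
    filter_upwards [frob_count N, eventually_gt_atTop 2] with p h1 h2 hp
    have : Fact p.Prime := ⟨hp⟩
    have : Fact (2 < p) := ⟨h2⟩
    refine if_congr ?_ rfl rfl
    rw [reach_card (ZMod.neg_one_ne_one (n := p)).symm hN, tot,
      sum_congr rfl fun j hj => h1 (φ p) (hφ p hp) j (by simpa [Nat.lt_succ_iff] using hj)]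
  · intro σ g
    simp only [Set.mem_ofPred_eq, tot, fixc_conj]
  · intro σ τ h hσ
    simp only [Set.mem_ofPred_eq, tot] at hσ ⊢
    exact hσ.trans_le (Nat.add_le_add_left (sum_le_sum fun j _ => fixc_zpowers j h) 2)

end Pool.Agent.Lib.MP_dd5d2d_nt.Tail
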