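import Mathlib
import Pool.Agent.Lib.MP_dd5d2d_nt.Tail4

/-! The Galois group is generated by inertia; periodic points modulo primes above two. -/

set_option autoImplicit false

namespace Pool.Agent.Lib.MP_dd5d2d_nt.Cyc

open Finset NumberField Polynomial

theorem inertia_top {E : Type} [Field E] [NumberField E] [IsGalois ℚ E] (H : Subgroup (E ≃ₐ[ℚ] E))
    (h : ∀ P : Ideal (𝓞 E), P.IsMaximal → P.inertia (E ≃ₐ[ℚ] E) ≤ H) : H = ⊤ := by
  let F : IntermediateField ℚ E := FixedPoints.intermediateField H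
  have hF : Module.finrank ℚ F = 1 := by
    by_contra h1
    obtain ⟨Q, hQ, hr⟩ := NumberField.exists_not_isUnramifiedAt_int (K := F) (𝒪 := 𝓞 F) h1
    obtain ⟨P, hP, hPQ⟩ := Ideal.exists_maximal_ideal_liesOver_of_isIntegral (S := 𝓞 E) Q
    have : IsGaloisGroup H F E := IsGaloisGroup.subgroup (E ≃ₐ[ℚ] E) ℚ E H
    have : IsGaloisGroup H (𝓞 F) (𝓞 E) := IsGaloisGroup.of_isFractionRing H (𝓞 F) (𝓞 E) F E
    have e1 := Ideal.card_inertia_eq_ramificationIdxIn (G := E ≃ₐ[ℚ] E) (P.under ℤ) P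
    have e2 := Ideal.card_inertia_eq_ramificationIdxIn (G := H) Q P
    rw [Ideal.ramificationIdxIn_eq_ramificationIdx _ P (E ≃ₐ[ℚ] E)] at e1
    rw [Ideal.ramificationIdxIn_eq_ramificationIdx _ P H] at e2
    have e3 : Nat.card (P.inertia H) = Nat.card (P.inertia (E ≃ₐ[ℚ] E)) :=
      Nat.card_congr (Subgroup.subgroupOfEquivOfLe (h P hP)).toEquiv
    have e4 := Ideal.ramificationIdx_tower (R := ℤ) Q P
    have e5 : 0 < Nat.card (P.inertia H) := Nat.card_pos
    refine hr (Ideal.ramificationIdx_eq_one_iff.1 ?_)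
    rw [← e1, ← e2, ← e3] at e4
    exact (Nat.mul_eq_right e5.ne').1 e4.symm
  have h2 := IsGaloisGroup.finrank_fixedPoints_eq_card_subgroup (E ≃ₐ[ℚ] E) ℚ E H
  have h3 := Module.finrank_mul_finrank ℚ F E
  rw [hF, one_mul] at h3
  exact Subgroup.eq_top_of_card_eq H (by rw [← h2, IsGalois.card_aut_eq_finrank, ← h3])

open scoped Classical in
theorem count {G H : Type} [Group G] [Group H] [Fintype G] [Fintype H] {φ : G →* H}
    (hφ : Function.Surjective φ) {K : Subgroup G} (hK : φ.ker ⊔ K = ⊤) (S : H → Prop)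
    (T : G → Prop) (hT : ∀ σ, ∀ b ∈ K, T σ → T (σ * b)) :
    (univ.filter fun σ : G => S (φ σ) ∧ T σ).card * Fintype.card H =
      (univ.filter S).card * (univ.filter T).card := by
  have hψ : ∀ y, ∃ b ∈ K, φ b = y := fun y => by
    have : K.map φ = ⊤ := by
      rw [← Subgroup.map_top_of_surjective φ hφ, ← hK, Subgroup.map_sup, Subgroup.map_ker_self,
        bot_sup_eq]
    exact Subgroup.mem_map.1 (this ▸ Subgroup.mem_top y)
  have f : ∀ y, (univ.filter fun σ : G => T σ ∧ φ σ = y).card =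
      (univ.filter fun σ : G => T σ ∧ φ σ = 1).card := fun y => by
    obtain ⟨b, hb, rfl⟩ := hψ y
    refine card_bij (fun σ _ => σ * b⁻¹) (fun σ hσ => ?_) (fun a _ b _ e => by simpa using e)
      fun σ hσ => ⟨σ * b, ?_, by simp⟩
    · simp only [mem_filter, mem_univ, true_and] at hσ ⊢
      exact ⟨hT _ _ (K.inv_mem hb) hσ.1, by simp [hσ.2]⟩
    · simp only [mem_filter, mem_univ, true_and] at hσ ⊢
      exact ⟨hT _ _ hb hσ.1, by simp [hσ.2]⟩
  have e1 : (univ.filter T).card =
      Fintype.card H * (univ.filter fun σ : G => T σ ∧ φ σ = 1).card := by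
    rw [card_eq_sum_card_fiberwise (f := φ) (t := univ) fun _ _ => mem_univ _]
    simp only [filter_filter, f, sum_const, card_univ, smul_eq_mul]
  have e2 : (univ.filter fun σ : G => S (φ σ) ∧ T σ).card =
      (univ.filter S).card * (univ.filter fun σ : G => T σ ∧ φ σ = 1).card := by
    rw [card_eq_sum_card_fiberwise (f := φ) (t := univ.filter S) fun σ hσ => by
      simpa using (mem_filter.1 hσ).2.1, sum_const_nat]
    intro y hy
    rw [← f y, filter_filter]
    exact congrArg card (filter_congr fun σ _ => ⟨fun h => ⟨h.1.2, h.2⟩, fun h =>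
      ⟨⟨h.2 ▸ (mem_filter.1 hy).2, h.1⟩, h.2⟩⟩)
  rw [e1, e2]
  ring

theorem iter_sub {R : Type} [CommRing R] (k : ℕ) (a b : R) :
    ∃ w, bf^[k + 1] a - bf^[k + 1] b = (a - b) * ((a + b) * w) := by
  induction k with
  | zero => exact ⟨1, by simp only [zero_add, Function.iterate_one, bf]; ring⟩
  | succ k ih =>
    obtain ⟨w, hw⟩ := ih
    refine ⟨w * (bf^[k + 1] a + bf^[k + 1] b), ?_⟩
    rw [Function.iterate_succ_apply' bf (k + 1), Function.iterate_succ_apply' bf (k + 1), bf, bf]
    linear_combination (bf^[k + 1] a + bf^[k + 1] b) * hw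

theorem per_eq {R : Type} [CommRing R] [IsDomain R] {P : Ideal R} (hP : P ≠ ⊤) {k : ℕ} {a b : R}
    (ha : bf^[k + 1] a = a) (hb : bf^[k + 1] b = b) (h : a + b ∈ P) : a = b := by
  obtain ⟨w, hw⟩ := iter_sub k a b
  rw [ha, hb] at hw
  refine sub_eq_zero.1 ((mul_eq_zero.1 (show (a - b) * (1 - (a + b) * w) = 0 by
    linear_combination hw)).resolve_right fun e => hP ?_)
  rw [Ideal.eq_top_iff_one, sub_eq_zero.1 e]
  exact P.mul_mem_right w h

theorem per_two {R : Type} [CommRing R] [IsDomain R] {P : Ideal R} (hP : P.IsPrime)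
    {k : ℕ} {a : R} (ha : bf^[k + 1] a = a) (h : a - a ^ 2 ∈ P) :
    a = 0 ∨ a = -1 := by
  have e : bf^[2 * k + 1 + 1] a = a := by
    rw [show 2 * k + 1 + 1 = k + 1 + (k + 1) by ring, Function.iterate_add_apply, ha, ha]
  have z : ∀ j, bf^[2 * j] (0 : R) = 0 ∧ bf^[2 * j] (-1 : R) = -1 := fun j => by
    rw [Function.iterate_mul]
    exact ⟨Function.iterate_fixed (by simp [bf]) j, Function.iterate_fixed (by simp [bf]) j⟩
  rcases hP.mem_or_mem (show a * (1 - a) ∈ P by convert h using 1; ring) with h | h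
  · exact Or.inl (per_eq hP.ne_top e (z (k + 1)).1 (by simpa using h))
  · exact Or.inr (per_eq hP.ne_top e (z (k + 1)).2 (by convert P.neg_mem h using 1; ring))

theorem tree_fix {R : Type} [CommRing R] [IsDomain R] {P : Ideal R} (hP : P.IsPrime)
    (h2 : (2 : R) ∉ P) (σ : R →+* R) (hσ : ∀ x, σ x - x ∈ P) (j : ℕ) :
    ∀ t : R, bf^[j] t = 1 → σ t = t := by
  induction j with
  | zero => rintro t rfl; exact map_one σ
  | succ j ih =>
    intro t ht
    have e := ih (bf t) ht
    rw [show σ (bf t) = bf (σ t) from map_iter σ 1 t, bf, bf, sub_left_inj,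
      sq_eq_sq_iff_eq_or_eq_neg] at e
    refine e.resolve_right fun e => ?_
    have h3 : t ∈ P := (hP.mem_or_mem (show 2 * t ∈ P by
      convert P.neg_mem (hσ t) using 1; rw [e]; ring)).resolve_left h2
    have h4 := map_iter (Ideal.Quotient.mk P) (j + 1) t
    rw [ht, Ideal.Quotient.eq_zero_iff_mem.2 h3, map_one] at h4
    let _ := Ideal.Quotient.isDomain P
    have c : ∀ i, bf^[i] (0 : R ⧸ P) = 0 ∨ bf^[i] (0 : R ⧸ P) = -1 := fun i => by
      induction i with
      | zero => exact Or.inl rfl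
      | succ i ih => rw [Function.iterate_succ_apply']; rcases ih with h | h <;> simp [h, bf]
    rcases c (j + 1) with h | h <;> rw [h] at h4
    · exact one_ne_zero h4
    · exact h2 (Ideal.Quotient.eq_zero_iff_mem.1 (by rw [map_ofNat]; linear_combination h4))

/-- The polynomial whose roots are the points fixed by the iterate of order `k + 1`. -/
noncomputable def cq (R : Type) [CommRing R] (k : ℕ) : R[X] := bf^[k + 1] X - X

theorem map_cq {R S : Type} [CommRing R] [CommRing S] (f : R →+* S) (k : ℕ) :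
    (cq R k).map f = cq S k := by
  have := map_iter (mapRingHom f) (k + 1) X
  simp only [coe_mapRingHom, map_X] at this
  rw [cq, Polynomial.map_sub, this, map_X, cq]

theorem eval_cq {R : Type} [CommRing R] (k : ℕ) (t : R) : (cq R k).eval t = bf^[k + 1] t - t := by
  have := map_iter (evalRingHom t) (k + 1) X
  simp only [coe_evalRingHom, eval_X] at this
  rw [cq, eval_sub, this, eval_X]

theorem monic_iter (k : ℕ) : (bf^[k] X : ℤ[X]).Monic ∧ (bf^[k] X : ℤ[X]).natDegree = 2 ^ k := by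
  induction k with
  | zero => exact ⟨monic_X, natDegree_X⟩
  | succ k ih =>
    have d : ((bf^[k] X : ℤ[X]) ^ 2).natDegree = 2 ^ (k + 1) := by
      rw [ih.1.natDegree_pow, ih.2, pow_succ']
    have l : (1 : ℤ[X]).natDegree < ((bf^[k] X : ℤ[X]) ^ 2).natDegree := by
      rw [d, natDegree_one]; positivity
    rw [Function.iterate_succ_apply', bf]
    exact ⟨(ih.1.pow 2).sub_of_left (degree_lt_degree l), by
      rw [natDegree_sub_eq_left_of_natDegree_lt l, d]⟩

theorem monic_cq (R : Type) [CommRing R] (k : ℕ) : (cq R k).Monic := by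
  rw [← map_cq (Int.castRingHom R)]
  refine Monic.map _ ((monic_iter (k + 1)).1.sub_of_left (degree_lt_degree ?_))
  rw [(monic_iter (k + 1)).2, natDegree_X]
  exact Nat.one_lt_two_pow (by omega)

theorem integral_per {E : Type} [Field E] {k : ℕ} {t : E} (h : bf^[k + 1] t = t) :
    IsIntegral ℤ t :=
  ⟨cq ℤ k, monic_cq ℤ k, by rw [eval₂_eq_eval_map, map_cq, eval_cq, h, sub_self]⟩

end Pool.Agent.Lib.MP_dd5d2d_nt.Cyc
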