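import Pool.Agent.Lib.MP_dd5d2d_nt.Cyc1

/-! Short cycles and the tree over `1` are independent. -/

set_option autoImplicit false

namespace Pool.Agent.Lib.MP_dd5d2d_nt.Cyc

open Finset Filter Topology NumberField Polynomial
open Pool.Agent.Shared.PrimeZeta Pool.Agent.Shared.FrobeniusDensity Tail

/-- The polynomial whose roots are the points of period at most `N`. -/
noncomputable def pp (N : ℕ) : ℚ[X] := ∏ k ∈ range N, cq ℚ k

theorem monic_pp (N : ℕ) : (pp N).Monic := monic_prod_of_monic _ _ fun k _ => monic_cq ℚ k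

variable {E : Type} [Field E] [NumberField E]

theorem mem_pp {N : ℕ} {t : E} : t ∈ (pp N).rootSet E ↔ ∃ k < N, bf^[k + 1] t = t := by
  rw [mem_rootSet_of_ne (monic_pp N).ne_zero, pp, map_prod, prod_eq_zero_iff]
  simp only [mem_range, aeval_def, eval₂_eq_eval_map, map_cq, eval_cq, sub_eq_zero]

omit [NumberField E] in
theorem co' (j : ℕ) (t : 𝓞 E) : ((bf^[j] t : 𝓞 E) : E) = bf^[j] (t : E) :=
  map_iter (algebraMap (𝓞 E) E) j t

theorem sm_iter (σ : E ≃ₐ[ℚ] E) (j : ℕ) (t : 𝓞 E) : σ • bf^[j] t = bf^[j] (σ • t) :=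
  (map_iter (MulSemiringAction.toRingHom _ (𝓞 E) σ) j t)

/-- No point of period at most `N` other than `0` and `-1` is fixed. -/
def NoFix (N : ℕ) (σ : E ≃ₐ[ℚ] E) : Prop :=
  ∀ t : E, ∀ k < N, bf^[k + 1] t = t → σ t = t → t = 0 ∨ t = -1

theorem frob_cyc (N : ℕ) (hs : ((pp N).map (algebraMap ℚ E)).Splits) :
    ∀ᶠ p : ℕ in atTop, ∀ [Fact p.Prime], ∀ φ : E ≃ₐ[ℚ] E, IsFrob p φ →
      (NoFix N φ ↔ ∀ a : ZMod p, ∀ k < N, bf^[k + 1] a = a → a = 0 ∨ a = -1) := by
  classical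
  have fin : {t : 𝓞 E | (t : E) ∈ (pp N).rootSet E ∪ {0, -1}}.Finite :=
    ((rootSet_finite _ _).union (Set.toFinite _)).preimage RingOfIntegers.coe_injective.injOn
  have sep : ∀ᶠ p : ℕ in atTop, ∀ t ∈ {t : 𝓞 E | (t : E) ∈ (pp N).rootSet E ∪ {0, -1}},
      ∀ t' ∈ {t : 𝓞 E | (t : E) ∈ (pp N).rootSet E ∪ {0, -1}}, p.Prime → ∀ P : Ideal (𝓞 E),
        P.IsPrime → (p : 𝓞 E) ∈ P → t - t' ∈ P → t = t' := by
    rw [eventually_all_finite fin]
    intro t _
    rw [eventually_all_finite fin]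
    intro t' _
    by_cases h : t = t'
    · exact Eventually.of_forall fun _ _ _ _ _ _ => h
    · filter_upwards [eventually_notMem (sub_ne_zero.2 h)] with p hp hpp P hP h1 h2
      exact (hp hpp P hP h1 h2).elim
  filter_upwards [sep] with p sep hp φ ⟨P, hP, hpP, hφ⟩
  let r := Ideal.Quotient.mk P
  have hP0 : P ≠ ⊥ := by
    rintro rfl
    exact hp.out.ne_zero (by simpa using hpP)
  have hM := hP.isMaximal hP0
  let _ := Ideal.Quotient.field P
  have : CharP (𝓞 E ⧸ P) p := (CharP.charP_iff_prime_eq_zero hp.out).2 (by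
    rw [← map_natCast r]; exact Ideal.Quotient.eq_zero_iff_mem.2 hpP)
  let ι := ZMod.castHom (dvd_refl p) (𝓞 E ⧸ P)
  have inj := fun t h t' h' (e : r t = r t') => sep t h t' h' hp.out P hP hpP (Ideal.Quotient.eq.1 e)
  have fr : ∀ t : 𝓞 E, r (φ • t) = r t ^ p := fun t => by
    rw [← map_pow]; exact Ideal.Quotient.eq.2 (hφ t)
  have mem : ∀ t : 𝓞 E, ∀ k < N, bf^[k + 1] t = t →
      t ∈ {t : 𝓞 E | (t : E) ∈ (pp N).rootSet E ∪ {0, -1}} := fun t k hk h =>
    Or.inl (mem_pp.2 ⟨k, hk, by rw [← co', h]⟩)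
  constructor
  · intro h a k hk ha
    have s1 : (cq (𝓞 E) k).Splits := by
      refine Splits.of_splits_map_of_injective (i := algebraMap (𝓞 E) E)
        RingOfIntegers.coe_injective ?_ fun x hx => ?_
      · rw [map_cq, ← map_cq (algebraMap ℚ E)]
        exact hs.of_dvd (map_ne_zero (monic_pp N).ne_zero)
          (Polynomial.map_dvd _ (dvd_prod_of_mem _ (mem_range.2 hk)))
      · rw [map_cq, mem_roots (monic_cq E k).ne_zero, IsRoot, eval_cq, sub_eq_zero] at hx
        exact ⟨⟨x, integral_per hx⟩, rfl⟩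
    have s2 : ι a ∈ ((cq (𝓞 E) k).map r).roots := by
      rw [map_cq, mem_roots (monic_cq _ k).ne_zero, IsRoot, eval_cq, ← map_iter, ha, sub_self]
    rw [s1.roots_map_of_ne_zero (by rw [map_cq]; exact (monic_cq _ k).ne_zero),
      Multiset.mem_map] at s2
    obtain ⟨t, t1, t2⟩ := s2
    rw [mem_roots (monic_cq _ k).ne_zero, IsRoot, eval_cq, sub_eq_zero] at t1
    have t3 : φ • t = t := inj _ (mem _ k hk (by rw [← sm_iter, t1])) _ (mem _ k hk t1)
      (by rw [fr, t2, ← map_pow, ZMod.pow_card])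
    rcases h t k hk (by rw [← co', t1]) (congrArg (fun z : 𝓞 E => (z : E)) t3) with e | e
    · exact Or.inl (ι.injective (by rw [← t2, RingOfIntegers.ext (y := 0) e, map_zero, map_zero]))
    · exact Or.inr (ι.injective (by
        rw [← t2, RingOfIntegers.ext (y := -1) e, map_neg, map_one, map_neg, map_one]))
  · intro h t k hk h1 h2
    let v : 𝓞 E := ⟨t, integral_per h1⟩
    have v1 : bf^[k + 1] v = v := RingOfIntegers.ext ((co' _ v).trans h1)
    have v2 : φ • v = v := RingOfIntegers.ext h2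
    have v3 : r v ^ p = r v := by rw [← fr, v2]
    obtain ⟨n, hn⟩ := (mem_bot_iff_intCast p _).1 ((Subfield.mem_bot_iff_pow_eq_self _ p).2 v3)
    have e : ι (n : ZMod p) = r v := by rw [map_intCast, hn]
    have a1 : bf^[k + 1] (n : ZMod p) = n := by
      apply ι.injective
      rw [map_iter, e, ← map_iter, v1]
    rcases h n k hk a1 with c | c
    · exact Or.inl (congrArg (fun z : 𝓞 E => (z : E)) (inj v (mem v k hk v1) 0 (Or.inr (Or.inl rfl))
        (by rw [← e, c, map_zero, map_zero])))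
    · exact Or.inr (congrArg (fun z : 𝓞 E => (z : E)) (inj v (mem v k hk v1) (-1) (Or.inr (Or.inr rfl))
        (by rw [← e, c, map_neg, map_one, map_neg, map_one])))

/-- The automorphisms fixing the points of period at most `N`. -/
noncomputable def FixP (E : Type) [Field E] [NumberField E] (N : ℕ) : Subgroup (E ≃ₐ[ℚ] E) :=
  (MulAction.toPermHom (E ≃ₐ[ℚ] E) ((pp N).rootSet E)).ker

theorem mem_FixP {N : ℕ} {σ : E ≃ₐ[ℚ] E} :
    σ ∈ FixP E N ↔ ∀ t : E, ∀ k < N, bf^[k + 1] t = t → σ t = t := by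
  rw [FixP, MonoidHom.mem_ker, Equiv.ext_iff]
  exact ⟨fun h t k hk ht => congrArg Subtype.val (h ⟨t, mem_pp.2 ⟨k, hk, ht⟩⟩), fun h t => by
    obtain ⟨k, hk, ht⟩ := mem_pp.1 t.2
    exact Subtype.ext (h t k hk ht)⟩

theorem exists_noFix [IsGalois ℚ E] (N : ℕ) : ∃ g : E ≃ₐ[ℚ] E, NoFix N g := by
  obtain ⟨g, P, hP, -, hg⟩ := exists_isFrob (K := E) Nat.prime_two
  refine ⟨g, fun t k hk h1 h3 => ?_⟩
  let v : 𝓞 E := ⟨t, integral_per h1⟩
  have v2 : g • v = v := RingOfIntegers.ext h3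
  have := hg v
  rw [v2] at this
  exact (per_two hP (RingOfIntegers.ext ((co' _ v).trans h1)) this).imp
    (congrArg fun z : 𝓞 E => (z : E)) (congrArg fun z : 𝓞 E => (z : E))

theorem NoFix.mul {N : ℕ} (σ b : E ≃ₐ[ℚ] E) (hb : b ∈ FixP E N) (h : NoFix N σ) :
    NoFix N (σ * b) := fun t k hk h1 h2 => h t k hk h1 (by
  rwa [AlgEquiv.mul_apply, mem_FixP.1 hb t k hk h1] at h2)

theorem NoFix.conj {N : ℕ} {σ : E ≃ₐ[ℚ] E} (g : E ≃ₐ[ℚ] E) (h : NoFix N σ) :
    NoFix N (g⁻¹ * σ * g) := fun t k hk h1 h2 => by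
  have e : σ (g t) = g t := by simpa using congrArg g h2
  rcases h (g t) k hk ((map_iter (g : E →+* E) (k + 1) t).symm.trans (congrArg g h1)) e with c | c
  · exact Or.inl (by simpa using c)
  · exact Or.inr (g.injective (by rw [c, map_neg, map_one]))

theorem noFix_conj {N : ℕ} (σ g : E ≃ₐ[ℚ] E) : NoFix N (g⁻¹ * σ * g) ↔ NoFix N σ :=
  ⟨fun h => by simpa [mul_assoc] using h.conj g⁻¹, fun h => h.conj g⟩

theorem NoFix.zpowers {N : ℕ} {σ τ : E ≃ₐ[ℚ] E} (h : Subgroup.zpowers σ = Subgroup.zpowers τ)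
    (hσ : NoFix N σ) : NoFix N τ := fun t k hk h1 h2 => by
  have : Subgroup.zpowers τ ≤ MulAction.stabilizer _ t := Subgroup.zpowers_le.2 h2
  exact hσ t k hk h1 (this (h ▸ Subgroup.mem_zpowers σ))

variable {M : ℕ} [Algebra (Kf M) E] [IsScalarTower ℚ (Kf M) E]

theorem sup_top [IsGalois ℚ E] (N : ℕ) :
    (AlgEquiv.restrictNormalHom (F := ℚ) (K₁ := E) (Kf M)).ker ⊔ FixP E N = ⊤ := by
  refine inertia_top _ fun P hP σ hσ => ?_
  by_cases h2 : (2 : 𝓞 E) ∈ P
  · refine Subgroup.mem_sup_right (mem_FixP.2 fun t k _ ht => ?_)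
    let v : 𝓞 E := ⟨t, integral_per ht⟩
    have v1 : bf^[k + 1] v = v := RingOfIntegers.ext ((co' _ v).trans ht)
    exact congrArg (fun z : 𝓞 E => (z : E)) (per_eq hP.ne_top (a := σ • v)
      (by rw [← sm_iter, v1]) v1 (by
        convert P.add_mem (hσ v) (P.mul_mem_right v h2) using 1; ring))
  · refine Subgroup.mem_sup_left (MonoidHom.mem_ker.2 (AlgEquiv.coe_toAlgHom_injective ?_))
    refine IntermediateField.algHom_ext_of_eq_adjoin ℚ rfl fun x hx => ?_
    apply (algebraMap (Kf M) E).injective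
    have h1 : bf^[M] (⟨x, IntermediateField.subset_adjoin _ _ hx⟩ : Kf M) = 1 := by
      rw [mem_rootSet_of_ne (qp_ne_zero _), aeval_qp, sub_eq_zero] at hx
      exact Subtype.ext ((coe_iter M _).trans hx)
    generalize (⟨x, _⟩ : Kf M) = y at h1 ⊢
    let v : 𝓞 E := ⟨algebraMap (Kf M) E y, (integral_level M y h1).map_of_comp_eq (RingHom.id ℤ) _
      (RingHom.ext_int _ _)⟩
    have v1 : bf^[M] v = 1 := RingOfIntegers.ext ((co' _ v).trans (by
      change bf^[M] (algebraMap (Kf M) E y) = 1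
      rw [← map_iter, h1, map_one]))
    exact (σ.restrictNormal_commutes (Kf M) y).trans (congrArg (fun z : 𝓞 E => (z : E))
      (tree_fix hP.isPrime h2 (MulSemiringAction.toRingHom _ (𝓞 E) σ) hσ M v v1))

theorem isFrob_res {p : ℕ} {φ : E ≃ₐ[ℚ] E} (h : IsFrob p φ) :
    IsFrob p (AlgEquiv.restrictNormalHom (F := ℚ) (K₁ := E) (Kf M) φ) := by
  obtain ⟨P, hP, h1, h2⟩ := h
  refine ⟨P.comap (algebraMap (𝓞 (Kf M)) (𝓞 E)), inferInstance, by simpa [Ideal.mem_comap] using h1,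
    fun x => ?_⟩
  rw [Ideal.mem_comap, map_sub, map_pow]
  convert h2 (algebraMap _ _ x) using 2
  exact RingOfIntegers.ext (φ.restrictNormal_commutes (Kf M) x)

/-- No point of period at most `N` modulo `p` other than `0` and `-1`. -/
def NoCyc (N p : ℕ) : Prop := ∀ a : ZMod p, ∀ k < N, bf^[k + 1] a = a → a = 0 ∨ a = -1

theorem bd (q : ℕ → Prop) [DecidablePred q] : Bdd fun p => if q p then 1 else 0 :=
  ⟨1, fun p _ => by dsimp only; split_ifs <;> simp⟩

open scoped Classical in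
theorem joint_aux [IsGalois ℚ E] {N B : ℕ} (hs : ((pp N).map (algebraMap ℚ E)).Splits)
    (hB : B ≤ M) : ∃ δ : ℝ, 0 < δ ∧ Lim (fun p => if NoCyc N p then 1 else 0) δ ∧
      Lim (fun p => if NoCyc N p ∧ B < {a : ZMod p | ∃ k, bf^[k] a = 0}.ncard then 1 else 0)
        (δ * (((univ.filter fun σ : Tail.Gal M => B < tot M σ).card : ℝ) /
          Fintype.card (Tail.Gal M))) := by
  choose! φ hφ using fun p => exists_isFrob (K := E) (p := p)
  set ρ := AlgEquiv.restrictNormalHom (F := ℚ) (K₁ := E) (Kf M) with hρ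
  have f1 := frobenius_density φ hφ {σ | NoFix N σ} noFix_conj fun _ _ => NoFix.zpowers
  have f2 := frobenius_density φ hφ {σ | B < tot M (ρ σ) ∧ NoFix N σ} (fun σ g => by
    simp only [Set.mem_ofPred_eq, noFix_conj, map_mul, map_inv, tot, fixc_conj]) fun σ τ h hσ =>
      ⟨hσ.1.trans_le (Nat.add_le_add_left (sum_le_sum fun j _ => fixc_zpowers j (by
        rw [← MonoidHom.map_zpowers, h, MonoidHom.map_zpowers])) 2), hσ.2.zpowers h⟩
  have c := count (AlgEquiv.restrictNormalHom_surjective E) (sup_top (E := E) (M := M) N)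
    (fun σ => B < tot M σ) (NoFix N) NoFix.mul
  have p1 : (0 : ℝ) < Fintype.card (E ≃ₐ[ℚ] E) := by exact_mod_cast Fintype.card_pos
  have p2 : (0 : ℝ) < Fintype.card (Tail.Gal M) := by exact_mod_cast Fintype.card_pos
  refine ⟨_, div_pos ?_ p1, Lim.congr (bd fun p => φ p ∈ {σ | NoFix N σ}) (bd _) (by convert f1) ?_,
    Lim.congr (bd fun p => φ p ∈ {σ | B < tot M (ρ σ) ∧ NoFix N σ}) (bd _) ?_ ?_⟩
  · obtain ⟨g, hg⟩ := exists_noFix (E := E) N
    exact_mod_cast card_pos.2 ⟨g, mem_filter.2 ⟨mem_univ _, hg⟩⟩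
  · filter_upwards [frob_cyc N hs] with p h1 hp
    have : Fact p.Prime := ⟨hp⟩
    exact if_congr (h1 (φ p) (hφ p hp)).symm rfl rfl
  · convert f2 using 1
    · congr!
    rw [div_mul_div_comm, div_eq_div_iff (mul_pos p1 p2).ne' p1.ne', mul_left_comm,
      mul_comm _ (Fintype.card (E ≃ₐ[ℚ] E) : ℝ)]
    refine congrArg _ ?_
    rw [mul_comm]
    norm_cast
    convert c.symm <;> rfl
  · filter_upwards [frob_count M, frob_cyc N hs, eventually_gt_atTop 2] with p h1 h3 h2 hp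
    have : Fact p.Prime := ⟨hp⟩
    have : Fact (2 < p) := ⟨h2⟩
    refine if_congr (and_comm.trans (and_congr ?_ (h3 (φ p) (hφ p hp)).symm)) rfl rfl
    rw [reach_card (ZMod.neg_one_ne_one (n := p)).symm hB, tot, sum_congr rfl fun j hj =>
      h1 _ (isFrob_res (hφ p hp)) j (by simpa [Nat.lt_succ_iff] using hj)]

open scoped Classical in
theorem joint_aux' (N : ℕ) {B M : ℕ} (hB : B ≤ M) :
    ∃ δ : ℝ, 0 < δ ∧ Lim (fun p => if NoCyc N p then 1 else 0) δ ∧
      Lim (fun p => if NoCyc N p ∧ B < {a : ZMod p | ∃ k, bf^[k] a = 0}.ncard then 1 else 0)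
        (δ * (((univ.filter fun σ : Tail.Gal M => B < tot M σ).card : ℝ) /
          Fintype.card (Tail.Gal M))) := by
  have h0 : qp M * pp N ≠ 0 := mul_ne_zero (qp_ne_zero M) (monic_pp N).ne_zero
  let E : IntermediateField ℚ Qb := IntermediateField.adjoin ℚ ((qp M * pp N).rootSet Qb)
  have : IsSplittingField ℚ E (qp M * pp N) :=
    IntermediateField.adjoin_rootSet_isSplittingField (IsAlgClosed.splits _)
  have : NumberField E := { to_finiteDimensional := IsSplittingField.finiteDimensional _ (qp M * pp N) }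
  have : Normal ℚ E := Normal.of_isSplittingField (qp M * pp N)
  have : IsGalois ℚ E := {}
  have hle : Kf M ≤ E := IntermediateField.adjoin.mono _ _ _ fun x hx => by
    rw [mem_rootSet_of_ne (qp_ne_zero M)] at hx
    rw [mem_rootSet_of_ne h0, map_mul, hx, zero_mul]
  let _ : Algebra (Kf M) E := (IntermediateField.inclusion hle).toRingHom.toAlgebra
  have : IsScalarTower ℚ (Kf M) E := IsScalarTower.of_algebraMap_eq' (RingHom.ext_rat _ _)
  exact joint_aux (E := E) ((IsSplittingField.splits E (qp M * pp N)).of_dvd (map_ne_zero h0)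
    (Polynomial.map_dvd _ (dvd_mul_left _ _))) hB

open scoped Classical in
theorem joint (N : ℕ) : ∃ δ : ℝ, 0 < δ ∧ Lim (fun p => if NoCyc N p then 1 else 0) δ ∧
    ∀ B : ℕ, 1 ≤ B → ∃ e : ℝ,
      Lim (fun p => if NoCyc N p ∧ B < {a : ZMod p | ∃ k, bf^[k] a = 0}.ncard then 1 else 0) e ∧
      1 / 4096 * δ / √B ≤ e ∧ e ≤ 424 * δ / √B := by
  obtain ⟨δ, h0, h1, -⟩ := joint_aux' N (le_refl 0)
  refine ⟨δ, h0, h1, fun B hB => ?_⟩
  obtain ⟨M, hM, l, u⟩ := prop_bounds hB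
  obtain ⟨δ', -, h2, h3⟩ := joint_aux' N hM
  obtain rfl : δ = δ' := tendsto_nhds_unique h1 h2
  exact ⟨_, h3, (by ring : _ = δ * (1 / 4096 / √B)).trans_le (mul_le_mul_of_nonneg_left l h0.le),
    (mul_le_mul_of_nonneg_left u h0.le).trans_eq (by ring)⟩

end Pool.Agent.Lib.MP_dd5d2d_nt.Cyc
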