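import Mathlib

/-! An upper bound sieve with relative error terms. -/

namespace Pool.Agent.Lib.MP_dd5d2d_nt.Rate

open Finset

variable {A ι : Type*} [DecidableEq ι]

theorem expand (X : Finset A) (e : ι → A → Prop) [∀ q x, Decidable (e q x)] (g a b : ι → ℝ)
    (U : Finset ι) (hg : ∀ q ∈ U, 0 ≤ g q) {M ε : ℝ}
    (h : ∀ V ⊆ U, |(#{x ∈ X | ∀ q ∈ V, e q x} : ℝ) - M * ∏ q ∈ V, g q| ≤ ε * ∏ q ∈ V, g q) :
    ∑ x ∈ X, ∏ q ∈ U, (b q * (if e q x then 1 else 0) + a q) ≤
      M * ∏ q ∈ U, (b q * g q + a q) + ε * ∏ q ∈ U, (|b q| * g q + |a q|) := by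
  simp only [prod_add, mul_sum]
  rw [sum_comm, ← sum_add_distrib]
  refine sum_le_sum fun V hV => ?_
  have h1 := h V (mem_powerset.1 hV)
  have e1 : ∑ x ∈ X, (∏ q ∈ V, b q * (if e q x then 1 else 0)) * ∏ q ∈ U \ V, a q =
      ((∏ q ∈ V, b q) * ∏ q ∈ U \ V, a q) * #{x ∈ X | ∀ q ∈ V, e q x} := by
    simp only [prod_mul_distrib, prod_boole]
    rw [card_filter, Nat.cast_sum, mul_sum]
    refine sum_congr rfl fun x _ => ?_
    split_ifs <;> simp
  rw [e1, prod_mul_distrib, prod_mul_distrib, ← abs_prod, ← abs_prod]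
  have h2 := mul_le_mul_of_nonneg_left h1 (abs_nonneg ((∏ q ∈ V, b q) * ∏ q ∈ U \ V, a q))
  rw [← abs_mul] at h2
  have h3 := (le_abs_self _).trans h2
  rw [abs_mul] at h3
  linarith

theorem sieve (X : Finset A) (e : ι → A → Prop) [∀ q x, Decidable (e q x)] (g : ι → ℝ)
    (P : Finset ι) (hg : ∀ q ∈ P, 0 ≤ g q) (hg' : ∀ q ∈ P, g q ≤ 1 / 2) (D : Finset (Finset ι))
    (hD : ∀ S ∈ D, S ⊆ P) (h0 : ∅ ∈ D) {M ε : ℝ} (hε : 0 ≤ ε)
    (h : ∀ S ∈ D, ∀ T ∈ D, ∀ V ⊆ S ∪ T,
      |(#{x ∈ X | ∀ q ∈ V, e q x} : ℝ) - M * ∏ q ∈ V, g q| ≤ ε * ∏ q ∈ V, g q) :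
    (#{x ∈ X | ∀ q ∈ P, ¬ e q x} : ℝ) ≤
      (M + ε * Real.exp (12 * ∑ q ∈ P, g q)) / ∑ S ∈ D, ∏ q ∈ S, g q / (1 - g q) := by
  set w : ι → ℝ := fun q => g q / (1 - g q) with hw
  have a1 : ∀ q ∈ P, 0 < 1 - g q := fun q hq => by linarith [hg' q hq]
  have w0 : ∀ q ∈ P, 0 ≤ w q := fun q hq => div_nonneg (hg q hq) (a1 q hq).le
  have w1 : ∀ q ∈ P, w q ≤ 2 * g q := fun q hq => by
    rw [hw, div_le_iff₀ (a1 q hq)]
    nlinarith [hg q hq, hg' q hq]
  have w2 : ∀ q ∈ P, (1 + w q) * g q = w q := fun q hq => by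
    have := (a1 q hq).ne'
    simp only [hw]
    field_simp
    ring
  set G := ∑ S ∈ D, ∏ q ∈ S, w q with hG
  have G1 : 1 ≤ G := by
    have := single_le_sum (f := fun S : Finset ι => ∏ q ∈ S, w q)
      (fun S hS => prod_nonneg fun q hq => w0 q (hD S hS hq)) h0
    simpa using this
  let η : ι → A → ℝ := fun q x => if e q x then -1 else w q
  have key : ∀ S ∈ D, ∀ T ∈ D, ∑ x ∈ X, (∏ q ∈ S, η q x) * ∏ q ∈ T, η q x ≤
      M * (if S = T then ∏ q ∈ S, w q else 0) +
        ε * ((∏ q ∈ S, 2 * w q) * ∏ q ∈ T, if q ∈ S then 1 else 2 * w q) := fun S hS T hT => by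
    have u : S ∪ T ⊆ P := union_subset (hD S hS) (hD T hT)
    let a : ι → ℝ := fun q => if q ∈ S ∧ q ∈ T then w q ^ 2 else w q
    let b : ι → ℝ := fun q => if q ∈ S ∧ q ∈ T then 1 - w q ^ 2 else -(1 + w q)
    have e1 : ∀ x, (∏ q ∈ S, η q x) * ∏ q ∈ T, η q x =
        ∏ q ∈ S ∪ T, (b q * (if e q x then 1 else 0) + a q) := fun x => by
      have : (∏ q ∈ S, η q x) * ∏ q ∈ T, η q x =
          ∏ q ∈ S ∪ T, (if q ∈ S then η q x else 1) * if q ∈ T then η q x else 1 := by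
        rw [prod_mul_distrib, prod_ite_mem, prod_ite_mem, union_inter_cancel_left,
          union_inter_cancel_right]
      rw [this]
      refine prod_congr rfl fun q hq => ?_
      rw [mem_union] at hq
      by_cases h1 : q ∈ S <;> by_cases h2 : q ∈ T <;> by_cases h3 : e q x <;>
        simp_all [η, a, b] <;> ring
    simp only [e1]
    refine (expand X e g a b _ (fun q hq => hg q (u hq)) (h S hS T hT)).trans
      (add_le_add (le_of_eq ?_) (mul_le_mul_of_nonneg_left ?_ hε))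
    · congr 1
      split_ifs with c
      · subst c
        rw [union_self]
        refine prod_congr rfl fun q hq => ?_
        simp only [a, b, hq, and_self, if_true]
        linear_combination (1 - w q) * w2 q (hD S hS hq)
      · obtain ⟨q, hq⟩ : ∃ q, ¬ (q ∈ S ↔ q ∈ T) := not_forall.1 fun h' => c (Finset.ext h')
        have hq' : q ∈ S ∪ T := by rw [mem_union]; tauto
        refine prod_eq_zero hq' ?_
        simp only [a, b, if_neg (show ¬ (q ∈ S ∧ q ∈ T) by tauto)]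
        linear_combination -w2 q (u hq')
    · have : (∏ q ∈ S, 2 * w q) * (∏ q ∈ T, if q ∈ S then 1 else 2 * w q) =
          ∏ q ∈ S ∪ T, 2 * w q := by
        rw [prod_ite, prod_const_one, one_mul, ← prod_union (by
          rw [disjoint_left]; intro q h1 h2; exact (mem_filter.1 h2).2 h1)]
        congr 1
        ext q
        simp only [mem_union, mem_filter]
        tauto
      rw [this]
      refine prod_le_prod (fun q hq => add_nonneg (mul_nonneg (abs_nonneg _) (hg q (u hq)))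
        (abs_nonneg _)) fun q hq => ?_
      have b0 := w0 q (u hq)
      have b1 := w1 q (u hq)
      have b2 := w2 q (u hq)
      have b3 := hg' q (u hq)
      simp only [a, b]
      split_ifs
      · rw [abs_of_nonneg (by nlinarith), abs_of_nonneg (by positivity)]
        nlinarith
      · rw [abs_neg, abs_of_nonneg (by linarith), abs_of_nonneg b0]
        linarith
  have ex : ∀ c : ℝ, 0 ≤ c → ∀ f : ι → ℝ, (∀ q ∈ P, 0 ≤ f q) → (∀ q ∈ P, f q ≤ c * g q) →
      ∏ q ∈ P, (1 + f q) ≤ Real.exp (c * ∑ q ∈ P, g q) := fun c _ f f0 f1 => by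
    rw [mul_sum, Real.exp_sum]
    exact prod_le_prod (fun q hq => by linarith [f0 q hq]) fun q hq => by
      linarith [Real.add_one_le_exp (c * g q), f1 q hq]
  have sub : ∀ f : ι → ℝ, (∀ q ∈ P, 0 ≤ f q) → ∑ S ∈ D, ∏ q ∈ S, f q ≤ ∏ q ∈ P, (1 + f q) :=
    fun f f0 => by
      rw [prod_one_add]
      exact sum_le_sum_of_subset_of_nonneg (fun S hS => mem_powerset.2 (hD S hS))
        fun S hS _ => prod_nonneg fun q hq => f0 q (mem_powerset.1 hS hq)
  have er : ∑ S ∈ D, ∑ T ∈ D, (∏ q ∈ S, 2 * w q) * (∏ q ∈ T, if q ∈ S then 1 else 2 * w q) ≤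
      Real.exp (12 * ∑ q ∈ P, g q) := by
    have b1 : ∀ S ∈ D, ∑ T ∈ D, (∏ q ∈ S, 2 * w q) * (∏ q ∈ T, if q ∈ S then 1 else 2 * w q) ≤
        (∏ q ∈ S, 4 * w q) * ∏ q ∈ P, (1 + 2 * w q) := fun S hS => by
      rw [← mul_sum]
      refine (mul_le_mul_of_nonneg_left (sub _ fun q hq => by
        have := w0 q hq; positivity) (prod_nonneg fun q hq => by
        have := w0 q (hD S hS hq); positivity)).trans ?_
      have e : ∀ f : ι → ℝ, ∏ q ∈ S, f q = ∏ q ∈ P, if q ∈ S then f q else 1 := fun f => by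
        rw [prod_ite_mem, inter_eq_right.2 (hD S hS)]
      rw [e, e fun q => 4 * w q, ← prod_mul_distrib, ← prod_mul_distrib]
      refine prod_le_prod (fun q hq => by have := w0 q hq; positivity) fun q hq => ?_
      have := w0 q hq
      split_ifs <;> nlinarith
    refine (sum_le_sum b1).trans ?_
    rw [← sum_mul, show (12 : ℝ) = 8 + 4 by norm_num, add_mul, Real.exp_add]
    refine mul_le_mul ((sub _ fun q hq => by have := w0 q hq; positivity).trans
      (ex 8 (by norm_num) _ (fun q hq => by have := w0 q hq; positivity)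
        fun q hq => by linarith [w1 q hq])) (ex 4 (by norm_num) _
      (fun q hq => by have := w0 q hq; positivity) fun q hq => by linarith [w1 q hq])
      (prod_nonneg fun q hq => by have := w0 q hq; positivity) (Real.exp_pos _).le
  have up : ∑ x ∈ X, (∑ S ∈ D, ∏ q ∈ S, η q x) ^ 2 ≤
      M * G + ε * Real.exp (12 * ∑ q ∈ P, g q) := by
    simp only [sq (∑ S ∈ D, _), sum_mul_sum]
    rw [sum_comm]
    refine (sum_le_sum fun S hS => (sum_comm.trans_le (sum_le_sum (key S hS)))).trans ?_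
    simp only [sum_add_distrib, ← mul_sum, sum_ite_eq]
    rw [sum_congr rfl fun S hS => if_pos hS]
    refine add_le_add le_rfl (mul_le_mul_of_nonneg_left ?_ hε)
    simpa only [mul_sum] using er
  have low : (#{x ∈ X | ∀ q ∈ P, ¬ e q x} : ℝ) * G ^ 2 ≤
      ∑ x ∈ X, (∑ S ∈ D, ∏ q ∈ S, η q x) ^ 2 := by
    rw [← nsmul_eq_mul, ← sum_const]
    refine (le_of_eq (sum_congr rfl fun x hx => ?_)).trans
      (sum_le_sum_of_subset_of_nonneg (filter_subset _ _) fun _ _ _ => sq_nonneg _)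
    congr 1
    refine sum_congr rfl fun S hS => prod_congr rfl fun q hq => ?_
    simp only [η, if_neg ((mem_filter.1 hx).2 q (hD S hS hq))]
  refine le_of_mul_le_mul_right (low.trans (up.trans ?_)) (by positivity : 0 < G ^ 2)
  have e2 : 0 ≤ ε * Real.exp (12 * ∑ q ∈ P, g q) := by positivity
  rw [sq, ← mul_assoc, div_mul_cancel₀ _ (by positivity)]
  nlinarith

end Pool.Agent.Lib.MP_dd5d2d_nt.Rate
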