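import Pool.Agent.Lib.MP_dd5d2d_nt.R1
import Pool.Agent.Shared.PrimeZeta

/-! Balls of algebraic integers are equidistributed modulo ideals. -/

namespace Pool.Agent.Lib.MP_dd5d2d_nt.Rate

open Finset NumberField Ideal Module

variable {K : Type*} [Field K] [NumberField K]

/-- The integers all of whose conjugates are close to `T`. -/
def ball (K : Type*) [Field K] (T r : ℝ) : Set (𝓞 K) :=
  {x | ∀ σ : K →+* ℂ, ‖σ (x : K) - T‖ ≤ r}

theorem inj_ball (T r : ℝ) {m : ℕ} (hm : 2 * r < m) :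
    Set.InjOn (Ideal.Quotient.mk (span {(m : 𝓞 K)})) (ball K T r) := by
  intro x hx y hy h
  obtain ⟨a, ha⟩ := mem_span_singleton'.1 (Ideal.Quotient.eq.1 h)
  by_contra hne
  have a0 : a ≠ 0 := by
    rintro rfl
    exact hne (sub_eq_zero.1 (by rw [← ha, zero_mul]))
  obtain ⟨σ, hσ⟩ := exists_conjugate_one_le_norm a0
  have e : σ (a : K) * m = (σ (x : K) - T) - (σ (y : K) - T) := by
    have := congrArg (fun z : 𝓞 K => σ (z : K)) ha
    simp only [map_mul, map_natCast, map_sub] at this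
    rw [this]
    ring
  have h1 := norm_sub_le (σ (x : K) - T) (σ (y : K) - T)
  rw [← e, norm_mul, Complex.norm_natCast] at h1
  have h2 : (0 : ℝ) ≤ m := Nat.cast_nonneg m
  nlinarith [hx σ, hy σ]

theorem fin_quot {I : Ideal (𝓞 K)} (hI : I ≠ ⊥) : Finite (𝓞 K ⧸ I) :=
  (absNorm_ne_zero_iff I).1 fun h => hI (absNorm_eq_zero_iff.1 h)

theorem card_quot (I : Ideal (𝓞 K)) : Nat.card (𝓞 K ⧸ I) = absNorm I := by
  rw [absNorm_apply, Submodule.cardQuot_apply]

theorem span_ne {m : ℕ} (hm : 0 < m) : span {(m : 𝓞 K)} ≠ ⊥ := by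
  rw [Ne, span_singleton_eq_bot]
  exact_mod_cast hm.ne'

theorem finite_ball (T r : ℝ) : (ball K T r).Finite := by
  obtain ⟨m, hm⟩ := exists_nat_gt (max (2 * r) 0)
  have := fin_quot (K := K) (span_ne (m := m) (by exact_mod_cast (le_max_right _ _).trans_lt hm))
  exact Set.Finite.of_finite_image (Set.toFinite _) (inj_ball T r ((le_max_left _ _).trans_lt hm))

/-- The ball as a finite set. -/
noncomputable def bl (K : Type*) [Field K] [NumberField K] (T r : ℝ) : Finset (𝓞 K) :=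
  (finite_ball T r).toFinset

theorem mem_bl {T r : ℝ} {x : 𝓞 K} : x ∈ bl K T r ↔ ∀ σ : K →+* ℂ, ‖σ (x : K) - T‖ ≤ r := by
  simp [bl, ball]

theorem card_bl_le (T r : ℝ) {m : ℕ} (h0 : 0 < m) (hm : 2 * r < m) :
    #(bl K T r) ≤ m ^ finrank ℚ K := by
  have := fin_quot (K := K) (span_ne h0)
  have h := Set.ncard_le_ncard_of_injOn (t := Set.univ) _ (fun _ _ => Set.mem_univ _)
    (inj_ball (K := K) T r hm)
  rwa [Set.ncard_univ, card_quot, absNorm_span_natCast, RingOfIntegers.rank,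
    Set.ncard_eq_toFinset_card _ (finite_ball T r)] at h

theorem bl_nonempty (T : ℝ) {r : ℝ} (hr : 1 ≤ r) : (bl K T r).Nonempty := by
  refine ⟨(⌊T⌋ : ℤ), mem_bl.2 fun σ => ?_⟩
  have : σ (((⌊T⌋ : ℤ) : 𝓞 K) : K) - T = ((⌊T⌋ - T : ℝ) : ℂ) := by simp
  rw [this, Complex.norm_real, Real.norm_eq_abs, abs_le]
  constructor <;> linarith [Int.floor_le T, Int.lt_floor_add_one T]

theorem norm_eq (x : 𝓞 K) : (absNorm (span {x}) : ℝ) = ∏ σ : K →+* ℂ, ‖σ (x : K)‖ := by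
  have h1 := Algebra.norm_eq_prod_embeddings ℚ ℂ (x : K)
  rw [← Algebra.coe_norm_int] at h1
  rw [absNorm_span_singleton, ← norm_prod,
    Fintype.prod_equiv (RingHom.equivRatAlgHom K ℂ) (fun σ : K →+* ℂ => σ (x : K))
      (fun σ : K →ₐ[ℚ] ℂ => σ (x : K)) fun _ => rfl, ← h1]
  simp

theorem norm_bl {T r : ℝ} (hT : 0 < T) (hr : r ≤ T / (2 * finrank ℚ K)) {x : 𝓞 K}
    (hx : x ∈ bl K T r) : T ^ finrank ℚ K / 2 ≤ absNorm (span {x}) ∧
      (absNorm (span {x}) : ℝ) ≤ 2 * T ^ finrank ℚ K := by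
  have hD : (1 : ℝ) ≤ finrank ℚ K := by exact_mod_cast finrank_pos
  set δ : ℝ := 1 / (2 * finrank ℚ K) with hδ
  have d0 : 0 < δ := by positivity
  have d1 : finrank ℚ K * δ = 1 / 2 := by rw [hδ]; field_simp
  have d2 : δ ≤ 1 / 2 := by nlinarith
  have hb : ∀ σ : K →+* ℂ, T * (1 + -δ) ≤ ‖σ (x : K)‖ ∧ ‖σ (x : K)‖ ≤ T * Real.exp δ := fun σ => by
    have h1 := (mem_bl.1 hx σ).trans hr
    have h2 := abs_norm_sub_norm_le (σ (x : K)) T
    rw [Complex.norm_real, Real.norm_eq_abs, abs_of_pos hT, abs_le] at h2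
    have h3 : T / (2 * finrank ℚ K) = T * δ := by rw [hδ]; ring
    have h4 := mul_le_mul_of_nonneg_left (Real.add_one_le_exp δ) hT.le
    constructor <;> linarith [h2.1, h2.2]
  rw [norm_eq]
  constructor
  · refine le_trans ?_ (prod_le_prod (fun _ _ => mul_nonneg hT.le (by linarith)) fun σ _ => (hb σ).1)
    rw [prod_const, card_univ, Embeddings.card, mul_pow]
    have := one_add_mul_le_pow (a := -δ) (by linarith) (finrank ℚ K)
    have h5 : 0 < T ^ finrank ℚ K := by positivity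
    nlinarith
  · refine (prod_le_prod (fun _ _ => norm_nonneg _) fun σ _ => (hb σ).2).trans ?_
    rw [prod_const, card_univ, Embeddings.card, mul_pow, ← Real.exp_nat_mul, d1, mul_comm]
    have : Real.exp (1 / 2) ≤ 2 := by
      rw [← Real.le_log_iff_exp_le two_pos]
      linarith [Real.log_two_gt_d9]
    gcongr

variable {ι : Type*} [Fintype ι] (b : Basis ι ℚ K) (hb : ∀ i, IsIntegral ℤ (b i)) {A : ℝ}
  (hA : ∀ i, ∀ σ : K →+* ℂ, ‖σ (b i)‖ ≤ A)
include hb hA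

omit hb in
theorem comb_le (c : ι → ℚ) {r : ℝ} (hc : ∀ i, |(c i : ℝ)| ≤ r) (σ : K →+* ℂ) :
    ‖σ (∑ i, c i • b i)‖ ≤ finrank ℚ K * (r * A) := by
  rw [map_sum, finrank_eq_card_basis b, ← nsmul_eq_mul, ← card_univ]
  refine (norm_sum_le _ _).trans (sum_le_card_nsmul _ _ _ fun i _ => ?_)
  rw [Rat.smul_def, map_mul, map_ratCast, norm_mul, Complex.norm_ratCast]
  exact mul_le_mul (hc i) (hA i σ) (norm_nonneg _) ((abs_nonneg _).trans (hc i))

theorem reps {I : Ideal (𝓞 K)} (hI : I ≠ ⊥) {m : ℕ} (hm : absNorm I < (m + 1) ^ finrank ℚ K)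
    (x : 𝓞 K) : ∃ f : 𝓞 K, x - f ∈ I ∧
      ∀ σ : K →+* ℂ, ‖σ (f : K)‖ ≤ finrank ℚ K * (m * A) * (finrank ℚ K * (1 * A)) := by
  classical
  have := fin_quot hI
  let L : (ι → ℤ) → 𝓞 K := fun c => ∑ i, (c i : 𝓞 K) * ⟨b i, hb i⟩
  have hL : ∀ c, (L c : K) = ∑ i, (c i : ℚ) • b i := fun c => by
    simp [L, Rat.smul_def]
  obtain ⟨u, v, huv, h⟩ : ∃ u v : ι → Fin (m + 1), u ≠ v ∧
      Ideal.Quotient.mk I (L fun i => (u i : ℕ)) = Ideal.Quotient.mk I (L fun i => (v i : ℕ)) := by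
    by_contra hc
    push Not at hc
    have := Nat.card_le_card_of_injective
      (fun u : ι → Fin (m + 1) => Ideal.Quotient.mk I (L fun i => (u i : ℕ)))
      fun u v h => by_contra fun hne => hc u v hne h
    rw [card_quot, Nat.card_fun, Nat.card_fin, Nat.card_eq_fintype_card,
      ← finrank_eq_card_basis b] at this
    omega
  set β := (L fun i => (u i : ℕ)) - L fun i => (v i : ℕ) with hβ
  have β1 : β ∈ I := Ideal.Quotient.eq.1 h
  have β2 : (β : K) = ∑ i, (((u i : ℕ) : ℚ) - (v i : ℕ)) • b i := by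
    refine (map_sub (algebraMap (𝓞 K) K) _ _).trans ((congrArg₂ (· - ·) (hL _) (hL _)).trans ?_)
    rw [← sum_sub_distrib]
    simp [sub_smul]
  have β3 : (β : K) ≠ 0 := fun h0 => huv (funext fun i => by
    have := Fintype.linearIndependent_iff.1 b.linearIndependent _ (β2 ▸ h0) i
    exact Fin.ext (by exact_mod_cast sub_eq_zero.1 this))
  have β4 : ∀ σ : K →+* ℂ, ‖σ (β : K)‖ ≤ finrank ℚ K * (m * A) := fun σ => by
    rw [β2]
    refine comb_le b hA _ (fun i => ?_) σ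
    have a1 : ((u i : ℕ) : ℝ) ≤ m := by exact_mod_cast Nat.lt_succ_iff.1 (u i).2
    have a2 : ((v i : ℕ) : ℝ) ≤ m := by exact_mod_cast Nat.lt_succ_iff.1 (v i).2
    have a3 : (0 : ℝ) ≤ (u i : ℕ) := Nat.cast_nonneg _
    have a4 : (0 : ℝ) ≤ (v i : ℕ) := Nat.cast_nonneg _
    push_cast
    rw [abs_le]
    constructor <;> linarith
  let q := b.repr ((x : K) / β)
  refine ⟨x - β * L fun i => ⌊q i⌋, by simpa using I.mul_mem_right _ β1, fun σ => ?_⟩
  have e : ((x - β * L fun i => ⌊q i⌋ : 𝓞 K) : K) = β * ∑ i, Int.fract (q i) • b i := by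
    have e1 : (x : K) = β * ∑ i, q i • b i := by rw [b.sum_repr, mul_div_cancel₀ _ β3]
    have e2 : ((x - β * L fun i => ⌊q i⌋ : 𝓞 K) : K) = x - β * (L fun i => ⌊q i⌋ : 𝓞 K) := rfl
    rw [e2, hL]
    refine (congrArg (· - _) e1).trans ?_
    rw [← mul_sub, ← sum_sub_distrib]
    simp only [Int.fract, sub_smul]
  rw [e, map_mul, norm_mul]
  refine mul_le_mul (β4 σ) (comb_le b hA _ (fun i => ?_) σ) (norm_nonneg _)
    ((norm_nonneg _).trans (β4 σ))
  rw [abs_of_nonneg (by exact_mod_cast Int.fract_nonneg _)]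
  exact_mod_cast (Int.fract_lt_one _).le

omit b hb hA in
open scoped Classical in
theorem sandwich {I : Ideal (𝓞 K)} (hI : I ≠ ⊥) {c : ℝ}
    (h : ∀ x : 𝓞 K, ∃ f : 𝓞 K, x - f ∈ I ∧ ∀ σ : K →+* ℂ, ‖σ (f : K)‖ ≤ c) (T r : ℝ) :
    #(bl K T (r - c)) ≤ #{x ∈ bl K T r | x ∈ I} * absNorm I ∧
      #{x ∈ bl K T r | x ∈ I} * absNorm I ≤ #(bl K T (r + c)) := by
  have := fin_quot hI
  let := Fintype.ofFinite (𝓞 K ⧸ I)
  have hs : ∀ k : 𝓞 K ⧸ I, ∃ f : 𝓞 K, Ideal.Quotient.mk I f = k ∧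
      ∀ σ : K →+* ℂ, ‖σ (f : K)‖ ≤ c := fun k => by
    obtain ⟨x, rfl⟩ := Ideal.Quotient.mk_surjective k
    obtain ⟨f, h1, h2⟩ := h x
    exact ⟨f, (Ideal.Quotient.eq.2 h1).symm, h2⟩
  choose s h1 h2 using hs
  rw [← card_quot, Nat.card_eq_fintype_card, ← card_univ, ← card_product]
  constructor
  · refine card_le_card_of_injOn (fun y => (y - s (Ideal.Quotient.mk I y), Ideal.Quotient.mk I y))
      (fun y hy => ?_) fun y _ y' _ e => ?_
    · refine mem_coe.2 (mem_product.2 ⟨mem_filter.2 ⟨mem_bl.2 fun σ => ?_,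
        Ideal.Quotient.eq.1 (h1 _).symm⟩, mem_univ _⟩)
      have a := mem_bl.1 hy σ
      have a2 := norm_sub_le (σ (y : K) - T) (σ (s (Ideal.Quotient.mk I y) : K))
      rw [sub_right_comm, ← map_sub] at a2
      simp only [map_sub] at a2 ⊢
      linarith [h2 (Ideal.Quotient.mk I y) σ]
    · simp only [Prod.mk.injEq] at e
      have := e.1
      rwa [e.2, sub_left_inj] at this
  · refine card_le_card_of_injOn (fun z => z.1 + s z.2) (fun z hz => ?_) fun z hz z' hz' e => ?_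
    · refine mem_coe.2 (mem_bl.2 fun σ => ?_)
      have a := mem_bl.1 (mem_filter.1 (mem_product.1 hz).1).1 σ
      have a2 := norm_add_le (σ (z.1 : K) - T) (σ (s z.2 : K))
      rw [sub_add_eq_add_sub] at a2
      simp only [map_add]
      linarith [h2 z.2 σ]
    · have a := congrArg (Ideal.Quotient.mk I) e
      simp only [map_add, h1,
        Ideal.Quotient.eq_zero_iff_mem.2 (mem_filter.1 (mem_product.1 hz).1).2,
        Ideal.Quotient.eq_zero_iff_mem.2 (mem_filter.1 (mem_product.1 hz').1).2, zero_add] at a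
      refine Prod.ext ?_ a
      simp only [a] at e
      exact add_right_cancel e

end Pool.Agent.Lib.MP_dd5d2d_nt.Rate
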