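import Pool.Agent.Lib.MP_dd5d2d_nt.R2
import Pool.Agent.Shared.BrunSieve

/-! A uniform upper bound for the number of prime ideals. -/

namespace Pool.Agent.Lib.MP_dd5d2d_nt.Rate

open Finset NumberField Ideal Module Pool.Agent.Shared.PrimeZeta

variable {K : Type*} [Field K] [NumberField K]

open scoped Classical

/-- The nonzero ideals of norm at most `z`. -/
noncomputable def Id (K : Type*) [Field K] [NumberField K] (z : ℝ) : Finset (Ideal (𝓞 K)) :=
  (Icc 1 ⌊z⌋₊).biUnion (idl K)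

theorem mem_Id {z : ℝ} {I : Ideal (𝓞 K)} : I ∈ Id K z ↔ I ≠ ⊥ ∧ (absNorm I : ℝ) ≤ z := by
  simp only [Id, mem_biUnion, mem_Icc, mem_idl, exists_eq_right', Ne, ← absNorm_eq_zero_iff]
  constructor
  · rintro ⟨h1, h2⟩
    exact ⟨by omega, (Nat.le_floor_iff' (by omega)).1 h2⟩
  · rintro ⟨h1, h2⟩
    exact ⟨by omega, Nat.le_floor h2⟩

/-- The prime ideals of norm at most `z`. -/
noncomputable def Pr (K : Type*) [Field K] [NumberField K] (z : ℝ) : Finset (Ideal (𝓞 K)) :=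
  (Id K z).filter IsMaximal

/-- Sets of prime ideals with small product. -/
noncomputable def Sm (K : Type*) [Field K] [NumberField K] (z : ℝ) :
    Finset (Finset (Ideal (𝓞 K))) :=
  (Pr K z).powerset.filter fun S => ∏ q ∈ S, (absNorm q : ℝ) ≤ z

theorem norm_pos {I : Ideal (𝓞 K)} (h : I ≠ ⊥) : (1 : ℝ) ≤ absNorm I := by
  exact_mod_cast Nat.pos_of_ne_zero fun h0 => h (absNorm_eq_zero_iff.1 h0)

theorem prod_dvd {S : Finset (Ideal (𝓞 K))} (hS : ∀ q ∈ S, q.IsMaximal) {I : Ideal (𝓞 K)}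
    (h : ∀ q ∈ S, q ∣ I) : ∏ q ∈ S, q ∣ I :=
  Finset.prod_dvd_of_coprime (fun P hP Q hQ hne => by
    have := hS P hP
    have := hS Q hQ
    exact isCoprime_of_isMaximal hne) h

theorem norm_le_of_dvd {I J : Ideal (𝓞 K)} (h : I ∣ J) (hJ : J ≠ ⊥) :
    (absNorm I : ℝ) ≤ absNorm J := by
  exact_mod_cast Nat.le_of_dvd (Nat.pos_of_ne_zero fun h0 => hJ (absNorm_eq_zero_iff.1 h0))
    (map_dvd absNorm h)

theorem G_ge (z : ℝ) : ∑ I ∈ Id K z, (absNorm I : ℝ)⁻¹ ≤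
    ∑ S ∈ Sm K z, ∏ q ∈ S, (absNorm q : ℝ)⁻¹ / (1 - (absNorm q : ℝ)⁻¹) := by
  have hd : ∀ I, ∏ q ∈ (Pr K z).filter (I ≤ ·), q ∣ I := fun I =>
    prod_dvd (fun q hq => (mem_filter.1 (mem_filter.1 hq).1).2)
      fun q hq => dvd_iff_le.2 (mem_filter.1 hq).2
  rw [← sum_fiberwise_of_maps_to (g := fun I => (Pr K z).filter (I ≤ ·)) (t := Sm K z)
    fun I hI => mem_filter.2 ⟨mem_powerset.2 (filter_subset _ _), by
      have := norm_le_of_dvd (hd I) (mem_Id.1 hI).1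
      rw [map_prod, Nat.cast_prod] at this
      exact this.trans (mem_Id.1 hI).2⟩]
  refine sum_le_sum fun S hS => ?_
  choose J hJ using hd
  have hJ' : ∀ I ∈ (Id K z).filter fun I => (Pr K z).filter (I ≤ ·) = S, I = (∏ q ∈ S, q) * J I :=
    fun I hI => (mem_filter.1 hI).2 ▸ hJ I
  have inj : Set.InjOn J ((Id K z).filter fun I => (Pr K z).filter (I ≤ ·) = S) :=
    fun I hI I' hI' h => by rw [hJ' I hI, hJ' I' hI', h]
  have h1 := sum_le_prod_inv le_rfl S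
    (fun q hq => (mem_filter.1 (mem_powerset.1 (mem_filter.1 hS).1 hq)).2)
    (((Id K z).filter fun I => (Pr K z).filter (I ≤ ·) = S).image J) (fun I' hI' h0 => by
      obtain ⟨I, hI, rfl⟩ := mem_image.1 hI'
      apply (mem_Id.1 (mem_filter.1 hI).1).1
      rw [hJ' I hI, h0, Ideal.mul_bot]) (fun I' hI' Q hQ hle => by
      obtain ⟨I, hI, rfl⟩ := mem_image.1 hI'
      have a : I ≤ Q := by
        rw [hJ' I hI]
        exact Ideal.mul_le_right.trans hle
      have a0 := mem_Id.1 (mem_filter.1 hI).1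
      rw [← (mem_filter.1 hI).2]
      exact mem_filter.2 ⟨mem_filter.2 ⟨mem_Id.2 ⟨fun h => a0.1 (le_bot_iff.1 (h ▸ a)),
        (norm_le_of_dvd (dvd_iff_le.2 a) a0.1).trans a0.2⟩, hQ⟩, a⟩)
  rw [sum_image inj] at h1
  simp only [Real.rpow_neg_one] at h1
  simp only [div_eq_mul_inv, prod_mul_distrib]
  refine le_trans (le_of_eq ?_) (mul_le_mul_of_nonneg_left h1 (by positivity))
  rw [mul_sum]
  refine sum_congr rfl fun I hI => ?_
  conv_lhs => rw [hJ' I hI]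
  rw [map_mul, map_prod, Nat.cast_mul, Nat.cast_prod, mul_inv, prod_inv_distrib]

theorem sum_g {z : ℝ} {n : ℕ} (h : z ≤ 2 ^ (n + 1)) : ∑ q ∈ Pr K z, (absNorm q : ℝ)⁻¹ ≤
    finrank ℚ K * (1 / 2 + 4 * (harmonic n : ℝ)) := by
  rw [← sum_fiberwise_of_maps_to (g := fun P : Ideal (𝓞 K) => (absNorm P).minFac)
    (t := (range (2 ^ (n + 1) + 1)).filter Nat.Prime) fun P hP => by
      have a := mem_filter.1 hP
      have a1 := (mem_Id.1 a.1).2.trans h
      have a2 : absNorm P ≤ 2 ^ (n + 1) := by exact_mod_cast a1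
      have a3 := Nat.minFac_le (n := absNorm P) (by linarith [two_le_absNorm P a.2])
      exact mem_filter.2 ⟨mem_range.2 (by omega), (pr_spec P a.2).1⟩]
  refine le_trans ?_ (mul_le_mul_of_nonneg_left (Shared.BrunSieve.sum_inv_primes_le n)
    (Nat.cast_nonneg _))
  rw [mul_sum]
  refine sum_le_sum fun p hp => ?_
  refine (sum_le_card_nsmul _ _ (p : ℝ)⁻¹ fun P hP => ?_).trans ?_
  · have a := mem_filter.1 hP
    refine inv_anti₀ (by exact_mod_cast (mem_filter.1 hp).2.pos) ?_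
    rw [← a.2]
    exact_mod_cast Nat.minFac_le (by linarith [two_le_absNorm P (mem_filter.1 a.1).2])
  · rw [nsmul_eq_mul, ← RingOfIntegers.rank]
    gcongr
    exact card_le_finrank _ p (fun P hP => (mem_filter.1 (mem_filter.1 hP).1).2)
      fun P hP => (mem_filter.1 hP).2

theorem prod_union_le {ι : Type*} [DecidableEq ι] (f : ι → ℝ) {S T V : Finset ι} (hV : V ⊆ S ∪ T)
    (h : ∀ q ∈ S ∪ T, 1 ≤ f q) {z : ℝ} (hS : ∏ q ∈ S, f q ≤ z) (hT : ∏ q ∈ T, f q ≤ z) :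
    ∏ q ∈ V, f q ≤ z * z := by
  have a1 := prod_le_prod_of_subset_of_one_le hV (fun q hq => zero_le_one.trans (h q (hV hq)))
    fun q hq _ => h q hq
  have a2 : 1 ≤ ∏ q ∈ S ∩ T, f q :=
    Finset.one_le_prod fun q hq => h q (mem_union_left _ (mem_inter.1 hq).1)
  have a3 : 1 ≤ ∏ q ∈ S ∪ T, f q := Finset.one_le_prod h
  have a4 : 1 ≤ ∏ q ∈ T, f q := Finset.one_le_prod fun q hq => h q (mem_union_right _ hq)
  have a5 := mul_le_mul hS hT (by linarith) (by
    linarith [Finset.one_le_prod (f := f) fun q hq => h q (mem_union_left T hq)])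
  rw [← prod_union_inter] at a5
  nlinarith


theorem core (X : Finset (𝓞 K)) {M ε y z t : ℝ} (hM : 0 < M) (hε : 0 ≤ ε) (hz : 1 ≤ z)
    (hy : z ^ 3 ≤ y) (ht : 0 < t) (htz : 2 * t ≤ z)
    (hE : ε * Real.exp (12 * ∑ q ∈ Pr K z, (absNorm q : ℝ)⁻¹) ≤ 1)
    (h1 : ∀ I : Ideal (𝓞 K), I ≠ ⊥ → (absNorm I : ℝ) ≤ 2 * y →
      M ≤ #{x ∈ X | x ∈ I} * (absNorm I : ℝ) ∧ #{x ∈ X | x ∈ I} * (absNorm I : ℝ) ≤ (1 + ε) * M)
    (h2 : ∀ x ∈ X, t * y / 2 ≤ absNorm (span {x}) ∧ (absNorm (span {x}) : ℝ) ≤ 2 * (t * y)) :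
    (#{p ∈ Pr K (2 * y) | y < absNorm p} : ℝ) *
      ∑ S ∈ Sm K z, ∏ q ∈ S, (absNorm q : ℝ)⁻¹ / (1 - (absNorm q : ℝ)⁻¹) ≤
      4 * y * ∑ b ∈ Id K z with t / 4 ≤ absNorm b ∧ absNorm b < 2 * t, (absNorm b : ℝ)⁻¹ := by
  set G := ∑ S ∈ Sm K z, ∏ q ∈ S, (absNorm q : ℝ)⁻¹ / (1 - (absNorm q : ℝ)⁻¹) with hG
  set W := (Id K z).filter fun b => t / 4 ≤ absNorm b ∧ absNorm b < 2 * t with hW
  have zy : z ≤ y := (le_self_pow₀ hz (by norm_num)).trans hy
  have y0 : 0 < y := by linarith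
  have g2 : ∀ q ∈ Pr K z, (absNorm q : ℝ)⁻¹ ≤ 1 / 2 := fun q hq => by
    rw [one_div]
    exact inv_anti₀ two_pos (by exact_mod_cast two_le_absNorm q (mem_filter.1 hq).2)
  have sub : ∀ S ∈ Sm K z, S ⊆ Pr K z := fun S hS => mem_powerset.1 (mem_filter.1 hS).1
  have e0 : (∅ : Finset (Ideal (𝓞 K))) ∈ Sm K z := by simpa [Sm] using hz
  have G0 : 0 < G := by
    have := single_le_sum (f := fun S : Finset (Ideal (𝓞 K)) =>
      ∏ q ∈ S, (absNorm q : ℝ)⁻¹ / (1 - (absNorm q : ℝ)⁻¹)) (fun S hS => prod_nonneg fun q hq =>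
        div_nonneg (by positivity) (by linarith [g2 q (sub S hS hq)])) e0
    exact lt_of_lt_of_le (by simp) this
  have s1 : ∀ b ∈ W, (#{x ∈ X | x ∈ b ∧ ∀ q ∈ Pr K z, x ∉ b * q} : ℝ) ≤
      2 * M * (absNorm b : ℝ)⁻¹ / G := fun b hb => by
    have b0 := mem_Id.1 (mem_filter.1 hb).1
    have b1 := norm_pos b0.1
    have := sieve (X.filter (· ∈ b)) (fun q x => x ∈ b * q) (fun q => (absNorm q : ℝ)⁻¹) (Pr K z)
      (fun q _ => by positivity) g2 (Sm K z) sub e0 (M := M * (absNorm b : ℝ)⁻¹)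
      (ε := ε * (M * (absNorm b : ℝ)⁻¹)) (by positivity) (fun S hS T hT V hV => by
        have hm : ∀ q ∈ S ∪ T, q ∈ Pr K z := union_subset (sub S hS) (sub T hT)
        have n1 : ∀ q ∈ S ∪ T, (1 : ℝ) ≤ absNorm q := fun q hq =>
          norm_pos (mem_Id.1 (mem_filter.1 (hm q hq)).1).1
        have e1 : (X.filter (· ∈ b)).filter (fun x => ∀ q ∈ V, x ∈ b * q) =
            X.filter (· ∈ b * ∏ q ∈ V, q) := by
          rw [filter_filter]
          refine filter_congr fun x _ => ?_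
          simp only [← dvd_span_singleton]
          constructor
          · rintro ⟨⟨J, hJ⟩, h⟩
            rw [hJ] at h ⊢
            exact mul_dvd_mul_left b (prod_dvd (fun q hq => (mem_filter.1 (hm q (hV hq))).2)
              fun q hq => (mul_dvd_mul_iff_left b0.1).1 (h q hq))
          · intro h
            exact ⟨(dvd_mul_right _ _).trans h,
              fun q hq => (mul_dvd_mul_left b (dvd_prod_of_mem (fun q => q) hq)).trans h⟩
        have n2 : ∏ q ∈ V, (absNorm q : ℝ) ≤ z * z :=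
          prod_union_le (fun q => (absNorm q : ℝ)) hV n1 (mem_filter.1 hS).2 (mem_filter.1 hT).2
        have n3 : 0 < ∏ q ∈ V, (absNorm q : ℝ) :=
          prod_pos fun q hq => zero_lt_one.trans_le (n1 q (hV hq))
        have n4 : (absNorm (b * ∏ q ∈ V, q) : ℝ) = absNorm b * ∏ q ∈ V, (absNorm q : ℝ) := by
          rw [map_mul, map_prod, Nat.cast_mul, Nat.cast_prod]
        have n5 : (0 : ℝ) < absNorm (b * ∏ q ∈ V, q) :=
          n4 ▸ mul_pos (zero_lt_one.trans_le b1) n3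
        obtain ⟨a1, a2⟩ := h1 (b * ∏ q ∈ V, q) (fun h0 => by
          rw [h0, absNorm_bot, Nat.cast_zero] at n5
          exact lt_irrefl _ n5) (by
          have := mul_le_mul b0.2 n2 n3.le (by linarith)
          rw [n4]
          linarith [show z ^ 3 = z * (z * z) by ring])
        rw [e1, prod_inv_distrib, mul_assoc, mul_assoc, mul_assoc, ← mul_inv, ← n4, abs_le]
        rw [← le_div_iff₀ n5] at a2
        rw [← div_le_iff₀ n5] at a1
        simp only [div_eq_mul_inv] at a1 a2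
        have n6 : 0 ≤ ε * (M * (absNorm (b * ∏ q ∈ V, q) : ℝ)⁻¹) :=
          mul_nonneg hε (mul_nonneg hM.le (inv_nonneg.2 n5.le))
        constructor <;> linarith)
    rw [filter_filter] at this
    refine this.trans (div_le_div_of_nonneg_right ?_ G0.le)
    have n7 : 0 ≤ M * (absNorm b : ℝ)⁻¹ := by positivity
    nlinarith
  have s2 : ∑ p ∈ Pr K (2 * y) with y < absNorm p, #{x ∈ X | x ∈ p} ≤
      ∑ b ∈ W, #{x ∈ X | x ∈ b ∧ ∀ q ∈ Pr K z, x ∉ b * q} := by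
    simp only [card_filter]
    rw [sum_comm, sum_comm (s := W)]
    refine sum_le_sum fun x hx => ?_
    rw [← card_filter, ← card_filter]
    obtain ⟨x1, x2⟩ := h2 x hx
    have x0 : span {x} ≠ ⊥ := fun h0 => by
      rw [h0, absNorm_bot] at x1
      nlinarith [mul_pos ht y0]
    have ex : ∀ p : Ideal (𝓞 K), x ∈ p → ∃ J, span {x} = p * J := fun p h => dvd_span_singleton.2 h
    choose! J hJ using ex
    refine card_le_card_of_injOn J (fun p hp => ?_) fun p hp p' hp' e => ?_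
    · obtain ⟨hp1, hp2⟩ := mem_filter.1 hp
      obtain ⟨hp3, hp4⟩ := mem_filter.1 hp1
      obtain ⟨hp5, hp6⟩ := mem_filter.1 hp3
      have e := hJ p hp2
      have J0 : J p ≠ ⊥ := fun h0 => x0 (by rw [e, h0, Ideal.mul_bot])
      have J1 := norm_pos J0
      rw [e, map_mul, Nat.cast_mul] at x1 x2
      have J2 : (absNorm (J p) : ℝ) < 2 * t := by nlinarith
      refine mem_coe.2 (mem_filter.2 ⟨mem_filter.2 ⟨mem_Id.2 ⟨J0, by linarith⟩, ?_, J2⟩,
        dvd_span_singleton.1 (e ▸ dvd_mul_left _ _), fun q hq hxq => ?_⟩)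
      · nlinarith [(mem_Id.1 hp5).2]
      · rw [← dvd_span_singleton, e, mul_comm p, mul_dvd_mul_iff_left J0] at hxq
        have := hp6.eq_of_le (mem_filter.1 hq).2.ne_top (dvd_iff_le.1 hxq)
        linarith [(mem_Id.1 (mem_filter.1 hq).1).2, this ▸ hp4]
    · have e1 := hJ p (mem_filter.1 hp).2
      have e2 := hJ p' (mem_filter.1 hp').2
      rw [← e] at e2
      exact mul_right_cancel₀ (fun h0 => x0 (by rw [e1, h0, mul_zero, zero_eq_bot]))
        (e1.symm.trans e2)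
  have s3 : (#{p ∈ Pr K (2 * y) | y < absNorm p} : ℝ) * (M / (2 * y)) ≤
      ∑ p ∈ Pr K (2 * y) with y < absNorm p, (#{x ∈ X | x ∈ p} : ℝ) := by
    rw [← nsmul_eq_mul]
    refine card_nsmul_le_sum _ _ _ fun p hp => ?_
    have a := mem_Id.1 (mem_filter.1 (mem_filter.1 hp).1).1
    rw [div_le_iff₀ (by linarith)]
    exact (h1 p a.1 a.2).1.trans (mul_le_mul_of_nonneg_left a.2 (Nat.cast_nonneg _))
  have s4 : ∑ p ∈ Pr K (2 * y) with y < absNorm p, (#{x ∈ X | x ∈ p} : ℝ) ≤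
      ∑ b ∈ W, (#{x ∈ X | x ∈ b ∧ ∀ q ∈ Pr K z, x ∉ b * q} : ℝ) := by exact_mod_cast s2
  have s5 := s3.trans (s4.trans (sum_le_sum s1))
  rw [← sum_div, ← mul_sum, le_div_iff₀ G0, mul_right_comm, ← mul_div_assoc,
    div_le_iff₀ (by linarith)] at s5
  refine le_of_mul_le_mul_right ?_ hM
  linarith

end Pool.Agent.Lib.MP_dd5d2d_nt.Rate
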