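import Pool.Agent.Lib.MP_dd5d2d_nt.R3

/-! The choice of the parameters. -/

namespace Pool.Agent.Lib.MP_dd5d2d_nt.Rate

open Finset NumberField Ideal Module Pool.Agent.Shared.PrimeZeta

theorem pigeon (N : ℕ → ℝ) {ε : ℝ} (hε : 0 ≤ ε) (h0 : 1 ≤ N 0) {n : ℕ} (h : N n < (1 + ε) ^ n) :
    ∃ k < n, N (k + 1) ≤ (1 + ε) * N k := by
  by_contra hc
  push Not at hc
  have : ∀ k ≤ n, (1 + ε) ^ k ≤ N k := by
    intro k
    induction k with
    | zero => simpa using h0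
    | succ k ih =>
      intro hk
      rw [pow_succ']
      exact (mul_le_mul_of_nonneg_left (ih (by omega)) (by linarith)).trans (hc k hk).le
  linarith [this n le_rfl]

theorem par1 {s D : ℝ} {d : ℕ} (hd : D = d) (hs : 5000 ≤ s) (h1 : 1 ≤ D) (hD : D ≤ s) :
    16 * D ^ 3 * (4 ^ d) ^ 2 * (2 * D + 4 * s ^ 4 + 2) ≤ Real.exp (s ^ 4 / (16 * D)) ∧
      204 * s ^ 2 ≤ s ^ 4 / (16 * D) := by
  have a1 : s ^ 3 / 16 ≤ s ^ 4 / (16 * D) := by
    rw [div_le_div_iff₀ (by norm_num) (by positivity)]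
    nlinarith [mul_le_mul_of_nonneg_left hD (by positivity : 0 ≤ 16 * s ^ 3)]
  have a2 : 204 * s ^ 2 ≤ s ^ 3 / 16 := by nlinarith
  refine ⟨?_, a2.trans a1⟩
  have b1 : s ≤ Real.exp s := by linarith [Real.add_one_le_exp s]
  have b2 : ((4 : ℝ) ^ d) ^ 2 ≤ Real.exp s ^ 3 := by
    have : (16 : ℝ) ≤ Real.exp 3 := by
      have := Real.exp_one_gt_d9
      rw [show (3 : ℝ) = (3 : ℕ) * 1 by norm_num, Real.exp_nat_mul]
      nlinarith [pow_le_pow_left₀ (by norm_num : (0 : ℝ) ≤ 2.7) (by linarith : 2.7 ≤ Real.exp 1) 3]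
    rw [← pow_mul, mul_comm, pow_mul, ← Real.exp_nat_mul]
    refine (pow_le_pow_left₀ (by norm_num) (by norm_num; exact this) d).trans ?_
    rw [← Real.exp_nat_mul, ← hd]
    exact Real.exp_le_exp.2 (by push_cast; linarith)
  have b3 : s ≤ s ^ 4 := le_self_pow₀ (by linarith) (by norm_num)
  have b4 : D ^ 3 ≤ Real.exp s ^ 3 := pow_le_pow_left₀ (by linarith) (hD.trans b1) 3
  have b5 : s ^ 4 ≤ Real.exp s ^ 4 := pow_le_pow_left₀ (by linarith) b1 4
  calc _ ≤ 16 * Real.exp s ^ 3 * Real.exp s ^ 3 * (8 * Real.exp s ^ 4) := by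
        gcongr
        linarith
    _ = 128 * Real.exp s ^ 10 := by ring
    _ ≤ Real.exp s * Real.exp s ^ 10 := by gcongr; linarith
    _ = Real.exp (11 * s) := by rw [← pow_succ', ← Real.exp_nat_mul]; norm_num
    _ ≤ _ := Real.exp_le_exp.2 (by nlinarith)

variable {K : Type*} [Field K] [NumberField K]

open scoped Classical

theorem err_le {s : ℝ} (hs : 5000 ≤ s) (hD : (finrank ℚ K : ℝ) ≤ s) :
    12 * ∑ q ∈ Pr K (Real.exp (s ^ 4 / 4)), (absNorm q : ℝ)⁻¹ ≤ 204 * s ^ 2 := by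
  have a1 := Nat.le_ceil (s ^ 4)
  have a2 := Nat.ceil_lt_add_one (show 0 ≤ s ^ 4 by positivity)
  have a3 : Real.exp (s ^ 4 / 4) ≤ 2 ^ (⌈s ^ 4⌉₊ + 1) := by
    rw [← Real.exp_log two_pos, ← Real.exp_nat_mul]
    refine Real.exp_le_exp.2 ?_
    push_cast
    nlinarith [Real.log_two_gt_d9, show 0 ≤ s ^ 4 by positivity]
  have a4 := harmonic_le_one_add_log ⌈s ^ 4⌉₊
  have a5 : Real.log ⌈s ^ 4⌉₊ ≤ 4 * s := by
    rw [Real.log_le_iff_le_exp (lt_of_lt_of_le (by positivity) a1),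
      show 4 * s = (4 : ℕ) * s by norm_num, Real.exp_nat_mul]
    refine le_trans ?_ (pow_le_pow_left₀ (by linarith) (Real.add_one_le_exp s) 4)
    nlinarith [show 0 ≤ s ^ 3 by positivity, show 0 ≤ s ^ 2 by positivity]
  have a6 := (sum_g (K := K) a3).trans (mul_le_mul hD (show _ ≤ 17 * s by linarith) (by
    have : (0 : ℝ) ≤ harmonic ⌈s ^ 4⌉₊ := by
      exact_mod_cast Finset.sum_nonneg fun _ _ => by positivity
    linarith) (by linarith))
  nlinarith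

theorem exists_scale (w z : ℝ) (hw : 0 < w) {J : ℕ} (hJ : 0 < J) : ∃ j < J,
    J * ∑ b ∈ Id K z with w * 8 ^ j / 4 ≤ absNorm b ∧ absNorm b < 2 * (w * 8 ^ j),
      (absNorm b : ℝ)⁻¹ ≤ ∑ b ∈ Id K z, (absNorm b : ℝ)⁻¹ := by
  obtain ⟨j, hj, h⟩ := exists_le_of_sum_le (nonempty_range_iff.2 hJ.ne')
    (f := fun j => J * ∑ b ∈ Id K z with w * 8 ^ j / 4 ≤ absNorm b ∧ absNorm b < 2 * (w * 8 ^ j),
      (absNorm b : ℝ)⁻¹) (g := fun _ => ∑ b ∈ Id K z, (absNorm b : ℝ)⁻¹) (by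
      rw [← mul_sum, sum_const, card_range, nsmul_eq_mul, ← sum_biUnion]
      · exact mul_le_mul_of_nonneg_left (sum_le_sum_of_subset_of_nonneg
          (biUnion_subset.2 fun _ _ => filter_subset _ _) fun _ _ _ => by positivity)
          (Nat.cast_nonneg _)
      · have key : ∀ i j : ℕ, i < j → ∀ a : ℝ, a < 2 * (w * 8 ^ i) → w * 8 ^ j / 4 ≤ a → False := by
          intro i j hij a h1 h2
          have := mul_le_mul_of_nonneg_left
            (pow_le_pow_right₀ (by norm_num : (1 : ℝ) ≤ 8) (Nat.succ_le_of_lt hij)) hw.le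
          rw [pow_succ] at this
          linarith
        intro i _ j _ hij
        refine disjoint_left.2 fun b h1 h2 => ?_
        rcases lt_or_gt_of_ne hij with h | h
        · exact key i j h _ (mem_filter.1 h1).2.2 (mem_filter.1 h2).2.1
        · exact key j i h _ (mem_filter.1 h2).2.2 (mem_filter.1 h1).2.1)
  exact ⟨j, mem_range.1 hj, h⟩

theorem exists_ball {ι : Type*} [Fintype ι] (b : Basis ι ℚ K) (hb : ∀ i, IsIntegral ℤ (b i))
    (hA : ∀ i, ∀ σ : K →+* ℂ, ‖σ (b i)‖ ≤ 4 ^ finrank ℚ K) {s : ℝ} (hs : 5000 ≤ s)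
    (hD : (finrank ℚ K : ℝ) ≤ s) {a : ℝ} (h1 : 9 * s ^ 4 / 8 ≤ a) (h2 : a ≤ 10 * s ^ 4 / 8) :
    ∃ (X : Finset (𝓞 K)) (M : ℝ), 0 < M ∧
      (∀ I : Ideal (𝓞 K), I ≠ ⊥ → (absNorm I : ℝ) ≤ 2 * Real.exp (s ^ 4) →
        M ≤ #{x ∈ X | x ∈ I} * (absNorm I : ℝ) ∧ #{x ∈ X | x ∈ I} * (absNorm I : ℝ) ≤
          (1 + (Real.exp (s ^ 4 / (16 * finrank ℚ K)))⁻¹) * M) ∧
      ∀ x ∈ X, Real.exp a / 2 ≤ absNorm (span {x}) ∧
        (absNorm (span {x}) : ℝ) ≤ 2 * Real.exp a := by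
  have d0 : 0 < finrank ℚ K := finrank_pos
  obtain ⟨D, hd⟩ : ∃ D : ℝ, D = finrank ℚ K := ⟨_, rfl⟩
  have D1 : 1 ≤ D := by rw [hd]; exact_mod_cast d0
  rw [← hd] at hD ⊢
  obtain ⟨H1, -⟩ := par1 hd hs D1 hD
  set A : ℝ := 4 ^ finrank ℚ K with hA'
  have A1 : 1 ≤ A := one_le_pow₀ (by norm_num)
  have s0 : 0 < s ^ 4 := by positivity
  set v := Real.exp (s ^ 4 / (16 * D)) with hv
  have v1 : 1 ≤ v := Real.one_le_exp (by positivity)
  set T := Real.exp (a / D) with hT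
  have T0 : 0 < T := Real.exp_pos _
  have T1 : T ^ finrank ℚ K = Real.exp a := by
    rw [hT, ← Real.exp_nat_mul, ← hd, mul_div_cancel₀ _ (by linarith)]
  have T2 : v ^ 18 ≤ T := by
    rw [hv, ← Real.exp_nat_mul]
    refine Real.exp_le_exp.2 ?_
    rw [← mul_div_assoc, div_le_div_iff₀ (by positivity) (by positivity)]
    push_cast
    nlinarith
  have v2 : (v ^ 16) ^ finrank ℚ K = Real.exp (s ^ 4) := by
    rw [hv, ← Real.exp_nat_mul, ← Real.exp_nat_mul, ← hd]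
    congr 1
    field_simp
    norm_num
  set c := 2 * D ^ 2 * A ^ 2 * v ^ 16 with hc
  have c0 : 0 < c := by positivity
  have rp : ∀ I : Ideal (𝓞 K), I ≠ ⊥ → (absNorm I : ℝ) ≤ 2 * Real.exp (s ^ 4) → ∀ x : 𝓞 K,
      ∃ f : 𝓞 K, x - f ∈ I ∧ ∀ σ : K →+* ℂ, ‖σ (f : K)‖ ≤ c := fun I hI h x => by
    have a1 : absNorm I < (⌊2 * v ^ 16⌋₊ + 1) ^ finrank ℚ K := by
      have a2 := pow_lt_pow_left₀ (Nat.lt_floor_add_one (2 * v ^ 16)) (by positivity) d0.ne'
      rw [mul_pow, v2] at a2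
      have a3 := mul_le_mul_of_nonneg_right (le_self_pow₀ one_le_two d0.ne' : (2 : ℝ) ≤ _)
        (Real.exp_pos (s ^ 4)).le
      exact_mod_cast (h.trans a3).trans_lt a2
    obtain ⟨f, f1, f2⟩ := reps b hb hA hI a1 x
    refine ⟨f, f1, fun σ => (f2 σ).trans ?_⟩
    rw [← hd]
    calc _ ≤ D * (2 * v ^ 16 * A) * (D * (1 * A)) := by
          gcongr
          exact Nat.floor_le (by positivity)
      _ = c := by ring
  have B0 : 1 ≤ D ^ 3 * A ^ 2 := one_le_mul_of_one_le_of_one_le (one_le_pow₀ D1) (one_le_pow₀ A1)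
  have T3 : 1 ≤ T / (4 * D) := by
    rw [le_div_iff₀ (by positivity)]
    have := (le_self_pow₀ v1 (by norm_num)).trans T2
    nlinarith
  have n1 := Nat.floor_le (show 0 ≤ T / (8 * D * c) by positivity)
  have n2 := Nat.lt_floor_add_one (T / (8 * D * c))
  set n := ⌊T / (8 * D * c)⌋₊ with hn
  have n3 : T / (4 * D) + 2 * n * c ≤ T / (2 * D) := by
    rw [le_div_iff₀ (by positivity)] at n1
    rw [← le_sub_iff_add_le', show T / (2 * D) - T / (4 * D) = T / (4 * D) by ring,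
      le_div_iff₀ (by positivity)]
    linarith
  have n4 : v * (2 * D + 4 * s ^ 4 + 2) ≤ T / (8 * D * c) := by
    rw [le_div_iff₀ (by positivity)]
    refine le_trans ?_ T2
    calc _ = v ^ 17 * (16 * D ^ 3 * A ^ 2 * (2 * D + 4 * s ^ 4 + 2)) := by ring
      _ ≤ v ^ 17 * v := by gcongr
      _ = _ := by ring
  have e0 : 0 ≤ v⁻¹ := by positivity
  obtain ⟨k, hk, hN⟩ := pigeon (fun k => #(bl K T (T / (4 * D) + 2 * k * c))) e0 (n := n) (by
      simpa using bl_nonempty T T3) (by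
      have a1 := card_bl_le (K := K) T (T / (4 * D) + 2 * n * c) (m := ⌊T⌋₊ + 1) (by omega) (by
        have a2 : T / (2 * D) ≤ T / 2 := by gcongr; linarith
        push_cast
        linarith [Nat.lt_floor_add_one T])
      have a3 : ((⌊T⌋₊ + 1 : ℕ) : ℝ) ≤ Real.exp 1 * T := by
        have a4 : T / (4 * D) ≤ T := div_le_self T0.le (by linarith)
        push_cast
        nlinarith [Nat.floor_le T0.le, Real.exp_one_gt_d9]
      have a5 : Real.exp (v⁻¹ / 2) ≤ 1 + v⁻¹ := by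
        rw [← Real.le_log_iff_exp_le (by linarith)]
        refine le_trans ?_ (Real.one_sub_inv_le_log_of_pos (by linarith))
        have : v⁻¹ ≤ 1 := inv_le_one_of_one_le₀ v1
        rw [le_sub_comm, inv_le_iff_one_le_mul₀ (by linarith)]
        nlinarith
      refine lt_of_lt_of_le ?_ (pow_le_pow_left₀ (Real.exp_pos _).le a5 n)
      have a6 := (Nat.cast_le (α := ℝ)).2 a1
      rw [Nat.cast_pow] at a6
      refine (a6.trans (pow_le_pow_left₀ (Nat.cast_nonneg _) a3 _)).trans_lt ?_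
      rw [mul_pow, T1, ← Real.exp_nat_mul, ← Real.exp_nat_mul, ← Real.exp_add, ← hd,
        Real.exp_lt_exp, ← mul_div_assoc, ← div_eq_mul_inv, lt_div_iff₀ two_pos,
        lt_div_iff₀ (by linarith)]
      nlinarith)
  have k1 : (k : ℝ) + 1 ≤ n := by exact_mod_cast hk
  have k0 : (0 : ℝ) ≤ k := Nat.cast_nonneg k
  refine ⟨bl K T (T / (4 * D) + 2 * k * c + c), #(bl K T (T / (4 * D) + 2 * k * c)), ?_,
    fun I hI h => ?_, fun x hx => ?_⟩
  · exact_mod_cast (bl_nonempty T (by nlinarith)).card_pos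
  · obtain ⟨a1, a2⟩ := sandwich hI (rp I hI h) T (T / (4 * D) + 2 * k * c + c)
    rw [add_sub_cancel_right] at a1
    have a3 := (Nat.cast_le (α := ℝ)).2 a2
    rw [Nat.cast_mul] at a3
    refine ⟨by exact_mod_cast a1, a3.trans (le_trans (le_of_eq ?_) hN)⟩
    push_cast
    congr 3
    ring
  · rw [← T1]
    exact norm_bl T0 (by rw [← hd]; nlinarith) hx

theorem bt {ι : Type*} [Fintype ι] (b : Basis ι ℚ K) (hb : ∀ i, IsIntegral ℤ (b i))
    (hA : ∀ i, ∀ σ : K →+* ℂ, ‖σ (b i)‖ ≤ 4 ^ finrank ℚ K) {s : ℝ} (hs : 5000 ≤ s)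
    (hD : (finrank ℚ K : ℝ) ≤ s) :
    (#{p ∈ Pr K (2 * Real.exp (s ^ 4)) | Real.exp (s ^ 4) < absNorm p} : ℝ) ≤
      136 * Real.exp (s ^ 4) / s ^ 4 := by
  have s1 : s ≤ s ^ 4 := le_self_pow₀ (by linarith) (by norm_num)
  have J1 := Nat.floor_le (show 0 ≤ s ^ 4 / 17 by positivity)
  have J2 := Nat.lt_floor_add_one (s ^ 4 / 17)
  set J := ⌊s ^ 4 / 17⌋₊ with hJ
  have J0 : (0 : ℝ) < J := by linarith
  obtain ⟨j, hj, hW⟩ := exists_scale (K := K) (Real.exp (s ^ 4 / 8)) (Real.exp (s ^ 4 / 4))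
    (Real.exp_pos _) (J := J) (by exact_mod_cast J0)
  have j1 : (j : ℝ) + 1 ≤ J := by exact_mod_cast hj
  have j0 : (0 : ℝ) ≤ j := Nat.cast_nonneg j
  have l1 := Real.log_two_gt_d9
  have l2 := Real.log_two_lt_d9
  have e1 : (8 : ℝ) ^ j = Real.exp (j * (3 * Real.log 2)) := by
    rw [Real.exp_nat_mul, show 3 * Real.log 2 = (3 : ℕ) * Real.log 2 by norm_num, Real.exp_nat_mul,
      Real.exp_log two_pos]
    norm_num
  obtain ⟨X, M, hM, h1, h2⟩ := exists_ball b hb hA hs hD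
    (a := s ^ 4 / 8 + j * (3 * Real.log 2) + s ^ 4) (by nlinarith) (by nlinarith)
  rw [Real.exp_add, Real.exp_add, ← e1] at h2
  have h3 := core X hM (by positivity) (z := Real.exp (s ^ 4 / 4))
    (Real.one_le_exp (by positivity)) (by
      rw [← Real.exp_nat_mul]
      exact Real.exp_le_exp.2 (by push_cast; linarith)) (by positivity) (by
      rw [e1, ← Real.exp_add, ← Real.exp_log two_pos, ← Real.exp_add, Real.log_exp]
      exact Real.exp_le_exp.2 (by nlinarith)) (by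
      rw [inv_mul_le_one₀ (Real.exp_pos _)]
      exact Real.exp_le_exp.2 ((err_le hs hD).trans (par1 rfl hs
        (by exact_mod_cast (finrank_pos : 0 < finrank ℚ K)) hD).2)) h1 h2
  have h4 := G_ge (K := K) (Real.exp (s ^ 4 / 4))
  have h5 : 1 ≤ ∑ b ∈ Id K (Real.exp (s ^ 4 / 4)), (absNorm b : ℝ)⁻¹ := by
    have := single_le_sum (f := fun b : Ideal (𝓞 K) => (absNorm b : ℝ)⁻¹) (fun _ _ => by positivity)
      (mem_Id.2 ⟨top_ne_bot, by simpa using Real.one_le_exp (show 0 ≤ s ^ 4 / 4 by positivity)⟩ :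
        ⊤ ∈ Id K (Real.exp (s ^ 4 / 4)))
    simpa using this
  have h6 := mul_le_mul_of_nonneg_left (hW.trans h4) (by positivity : 0 ≤ 4 * Real.exp (s ^ 4))
  have h7 := mul_le_mul_of_nonneg_left h3 J0.le
  generalize (#{p ∈ Pr K (2 * Real.exp (s ^ 4)) | Real.exp (s ^ 4) < absNorm p}) = c at h7 ⊢
  have h8 : J * (c : ℝ) ≤ 4 * Real.exp (s ^ 4) :=
    le_of_mul_le_mul_right (by linarith) (by linarith : 0 < ∑ S ∈ Sm K (Real.exp (s ^ 4 / 4)),
      ∏ q ∈ S, (absNorm q : ℝ)⁻¹ / (1 - (absNorm q : ℝ)⁻¹))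
  rw [le_div_iff₀ (by linarith)]
  nlinarith [Nat.cast_nonneg (α := ℝ) c]

end Pool.Agent.Lib.MP_dd5d2d_nt.Rate
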