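import Pool.Agent.Lib.MP_dd5d2d_nt.R4
import Pool.Agent.Lib.MP_dd5d2d_nt.Tail4

/-! Elements with many fixed points are covered by subgroups of small index. -/

namespace Pool.Agent.Lib.MP_dd5d2d_nt.Rate

open Finset NumberField Module

theorem exists_basis {K : Type} [Field K] [NumberField K] (S : Set K)
    (hS : ∀ s ∈ S, IsIntegral ℤ s ∧ ∀ σ : K →+* ℂ, ‖σ s‖ ≤ 4)
    (hgen : ∀ V : Submodule ℚ K, 1 ∈ V → (∀ s ∈ S, ∀ v ∈ V, s * v ∈ V) → V = ⊤) :
    ∃ (ι : Type) (_ : Fintype ι) (b : Basis ι ℚ K), (∀ i, IsIntegral ℤ (b i)) ∧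
      ∀ i, ∀ σ : K →+* ℂ, ‖σ (b i)‖ ≤ 4 ^ finrank ℚ K := by
  let M : ℕ → Set K := fun k => {x | IsIntegral ℤ x ∧ ∀ σ : K →+* ℂ, ‖σ x‖ ≤ 4 ^ k}
  have mono : ∀ k, Submodule.span ℚ (M k) ≤ Submodule.span ℚ (M (k + 1)) := fun k =>
    Submodule.span_mono fun x hx => ⟨hx.1, fun σ => (hx.2 σ).trans
      (pow_le_pow_right₀ (by norm_num) k.le_succ)⟩
  have key : ∀ k, Submodule.span ℚ (M k) = ⊤ ∨ k ≤ finrank ℚ (Submodule.span ℚ (M k)) := by
    intro k
    induction k with
    | zero => exact Or.inr (Nat.zero_le _)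
    | succ k ih =>
      rcases ih with h | h
      · exact Or.inl (top_le_iff.1 (h ▸ mono k))
      rcases (mono k).lt_or_eq with h' | h'
      · exact Or.inr (h.trans_lt (Submodule.finrank_lt_finrank_of_lt h'))
      refine Or.inl (h' ▸ hgen _ (Submodule.subset_span ⟨isIntegral_one, fun σ => by
        rw [map_one, norm_one]; exact one_le_pow₀ (by norm_num)⟩) fun s hs v hv => ?_)
      induction hv using Submodule.span_induction with
      | mem x hx =>
        refine h' ▸ Submodule.subset_span ⟨(hS s hs).1.mul hx.1, fun σ => ?_⟩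
        rw [map_mul, norm_mul, pow_succ']
        exact mul_le_mul ((hS s hs).2 σ) (hx.2 σ) (norm_nonneg _) (by norm_num)
      | zero => simp
      | add x y _ _ h1 h2 => rw [mul_add]; exact add_mem h1 h2
      | smul a x _ h1 => rw [mul_smul_comm]; exact Submodule.smul_mem _ _ h1
  have top : ⊤ ≤ Submodule.span ℚ (M (finrank ℚ K)) := by
    rcases key (finrank ℚ K) with h | h
    · exact h.ge
    · exact (Submodule.eq_top_of_finrank_eq (le_antisymm (Submodule.finrank_le _) h)).ge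
  exact ⟨_, FiniteDimensional.fintypeBasisIndex (Basis.ofSpan top), Basis.ofSpan top,
    fun i => (Basis.ofSpan_subset top ⟨i, rfl⟩).1, fun i => (Basis.ofSpan_subset top ⟨i, rfl⟩).2⟩

variable {L : Type} [Field L] {G : Type} [Group G] [MulSemiringAction G L]

theorem pm {τ : G} {w : L} (h : τ • bf w = bf w) : τ • w = w ∨ τ • w = -w := by
  rw [smul_bf] at h
  exact sq_eq_sq_iff_eq_or_eq_neg.1 (by simpa [bf] using h)

theorem index_step [Finite G] (H : Subgroup G) (T : Finset L) (h : ∀ t ∈ T, ∀ τ ∈ H, τ • t = t) :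
    (H ⊓ fixingSubgroup G {w | bf w ∈ T}).index ≤ 2 ^ #T * H.index := by
  classical
  induction T using Finset.induction_on with
  | empty => simp
  | insert t T ht ih =>
    have ih := ih fun t ht => h t (mem_insert_of_mem ht)
    rw [card_insert_of_notMem ht, pow_succ', mul_assoc]
    set H' := H ⊓ fixingSubgroup G {w | bf w ∈ T}
    by_cases c : ∃ w₀, bf w₀ = t
    · obtain ⟨w₀, h0⟩ := c
      have a1 : H' ⊓ MulAction.stabilizer G w₀ ≤
          H ⊓ fixingSubgroup G {w | bf w ∈ insert t T} := fun τ hτ => by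
        refine ⟨hτ.1.1, (mem_fixingSubgroup_iff G).2 fun w hw => ?_⟩
        rcases mem_insert.1 hw with e | e
        · have e2 : τ • w₀ = w₀ := hτ.2
          rcases sq_eq_sq_iff_eq_or_eq_neg.1 (show w ^ 2 = w₀ ^ 2 by
            simpa [bf] using e.trans h0.symm) with rfl | rfl
          · exact e2
          · rw [smul_neg, e2]
        · exact (mem_fixingSubgroup_iff G).1 hτ.1.2 w e
      refine (Subgroup.index_antitone a1).trans ?_
      rw [← Subgroup.relIndex_mul_index (inf_le_left : H' ⊓ _ ≤ H'), Subgroup.inf_relIndex_left]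
      refine Nat.mul_le_mul ?_ ih
      have a2 : (MulAction.stabilizer G w₀).relIndex H' = (MulAction.stabilizer H' w₀).index := rfl
      rw [a2, MulAction.index_stabilizer]
      refine (Set.ncard_le_ncard (t := {w₀, -w₀}) ?_).trans
        ((Set.ncard_insert_le _ _).trans (by simp))
      rintro _ ⟨τ, rfl⟩
      exact pm (τ := τ.1) (h0 ▸ h t (mem_insert_self _ _) τ.1 τ.2.1)
    · have a1 : H' ≤ H ⊓ fixingSubgroup G {w | bf w ∈ insert t T} := fun τ hτ =>
        ⟨hτ.1, (mem_fixingSubgroup_iff G).2 fun w hw => (mem_fixingSubgroup_iff G).1 hτ.2 w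
          ((mem_insert.1 hw).resolve_left fun e => c ⟨w, e⟩)⟩
      exact (Subgroup.index_antitone a1).trans (ih.trans (by omega))

/-- Children of the fixed nodes of level below `m`. -/
def Ch (σ : G) (m : ℕ) : Set L := {w | ∃ j < m, bf^[j] (bf w) = 1 ∧ σ • bf w = bf w}

/-- Fixed nodes of level at most `m`. -/
def Fx (σ : G) (m : ℕ) : Set L := {t | ∃ j ≤ m, bf^[j] t = 1 ∧ σ • t = t}

/-- Generators of the field attached to the explored part of the tree. -/
def Gn (σ : G) (m : ℕ) : Set L :=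
  Fx σ m ∪ {s | ∃ w ∈ Ch σ m, ∃ w' ∈ Ch σ m, σ • w ≠ w ∧ σ • w' ≠ w' ∧ s = w * w'}

/-- Elements with the same fixed nodes up to level `m`. -/
def Cl (L : Type) [Field L] [MulSemiringAction G L] (σ : G) (m : ℕ) : Set G :=
  {τ | ∀ j ≤ m, ∀ t : L, bf^[j] t = 1 → (τ • t = t ↔ σ • t = t)}

theorem fix_of_ch {σ τ : G} {m j : ℕ} (h : ∀ w ∈ (Ch σ m : Set L), τ • w = w) (hj : j ≤ m) {t : L}
    (h1 : bf^[j] t = 1) (h2 : σ • t = t) : τ • t = t := by
  cases j with
  | zero => rw [show t = 1 from h1, smul_one]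
  | succ j => exact h t ⟨j, hj, h1, by rw [smul_bf, h2]⟩

theorem index_ch [Finite G] (σ : G) (m : ℕ) :
    (fixingSubgroup G (Ch σ m : Set L)).index ≤ 2 ^ ∑ j ∈ range m, fixc j (1 : L) σ := by
  classical
  induction m with
  | zero => simp [Ch]
  | succ m ih =>
    have := index_step (fixingSubgroup G (Ch σ m : Set L)) ((lev m (1 : L)).filter fun t => σ • t = t)
      fun t ht τ hτ => fix_of_ch ((mem_fixingSubgroup_iff G).1 hτ) le_rfl
        (mem_lev.1 (mem_filter.1 ht).1) (mem_filter.1 ht).2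
    rw [sum_range_succ, pow_add, mul_comm]
    refine (Subgroup.index_antitone fun τ hτ => ?_).trans (this.trans (Nat.mul_le_mul ?_ ih))
    · refine (mem_fixingSubgroup_iff G).2 ?_
      rintro w ⟨j, hj, h1, h2⟩
      rcases (Nat.lt_succ_iff.1 hj).lt_or_eq with e | rfl
      · exact (mem_fixingSubgroup_iff G).1 hτ.1 w ⟨j, e, h1, h2⟩
      · exact (mem_fixingSubgroup_iff G).1 hτ.2 w (mem_filter.2 ⟨mem_lev.2 h1, h2⟩)
    · rw [fixc]

theorem index_gn [Finite G] (σ : G) (m : ℕ) :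
    (fixingSubgroup G (Gn σ m : Set L)).index ≤ 2 ^ ∑ j ∈ range m, fixc j (1 : L) σ := by
  refine (Subgroup.index_antitone fun τ hτ => ?_).trans (index_ch σ m)
  have h := (mem_fixingSubgroup_iff G).1 hτ
  refine (mem_fixingSubgroup_iff G).2 ?_
  rintro s (⟨j, hj, h1, h2⟩ | ⟨w, hw, w', hw', -, -, rfl⟩)
  · exact fix_of_ch h hj h1 h2
  · rw [smul_mul', h w hw, h w' hw']

theorem cl_sub {σ τ : G} {m : ℕ} (h : τ ∈ Cl L σ m) : τ ∈ fixingSubgroup G (Gn σ m : Set L) := by
  have key : ∀ w ∈ (Ch σ m : Set L), σ • w ≠ w → τ • w = -w := by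
    rintro w ⟨j, hj, h1, h2⟩ h3
    exact (pm ((h j hj.le _ h1).2 h2)).resolve_left fun e => h3 ((h (j + 1) hj w h1).1 e)
  refine (mem_fixingSubgroup_iff G).2 ?_
  rintro s (⟨j, hj, h1, h2⟩ | ⟨w, hw, w', hw', h1, h2, rfl⟩)
  · exact (h j hj s h1).2 h2
  · rw [smul_mul', key w hw h1, key w' hw' h2, neg_mul_neg]

theorem mem_cl {σ τ : G} {m : ℕ} (h1 : ∀ t ∈ (Fx σ m : Set L), τ • t = t)
    (h2 : ∀ w ∈ (Ch σ m : Set L), σ • w ≠ w → τ • w ≠ w) : τ ∈ Cl L σ m := by
  intro j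
  induction j with
  | zero => rintro - t rfl; simp
  | succ j ih =>
    refine fun hj t ht => ⟨fun e => by_contra fun c => h2 t ⟨j, hj, ht, ?_⟩ c e,
      fun e => h1 t ⟨_, hj, ht, e⟩⟩
    exact (ih (by omega) _ ht).1 (by rw [smul_bf, e])

theorem card_gn [Finite G] (σ : G) (m : ℕ) :
    Nat.card (fixingSubgroup G (Gn σ m : Set L)) ≤ 2 * (Cl L σ m).ncard := by
  have sub : (fixingSubgroup G (Gn σ m : Set L) : Set G) ⊆
      Cl L σ m ∪ (fun τ => τ * σ⁻¹) '' Cl L σ m := by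
    intro τ hτ
    have h := (mem_fixingSubgroup_iff G).1 hτ
    by_cases c : ∀ w ∈ (Ch σ m : Set L), σ • w ≠ w → τ • w ≠ w
    · exact Or.inl (mem_cl (fun t ht => h t (Or.inl ht)) c)
    push Not at c
    obtain ⟨w₀, h0, h1, h2⟩ := c
    refine Or.inr ⟨τ * σ, mem_cl (fun t ht => ?_) fun w hw h3 => ?_, by simp⟩
    · rw [mul_smul, ht.choose_spec.2.2, h t (Or.inl ht)]
    · have h4 := h _ (Or.inr ⟨w, hw, w₀, h0, h3, h1, rfl⟩)
      rw [smul_mul', h2] at h4
      have h5 := mul_right_cancel₀ (by rintro rfl; exact h1 (smul_zero _)) h4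
      have h6 := (pm hw.choose_spec.2.2).resolve_left h3
      rwa [mul_smul, h6, smul_neg, h5, ← h6]
  have := Set.ncard_le_ncard sub
  refine this.trans ((Set.ncard_union_le _ _).trans ?_)
  have := Set.ncard_image_le (s := Cl L σ m) (f := fun τ => τ * σ⁻¹)
  omega

theorem fixc_cl {σ τ : G} {m j : ℕ} (h : τ ∈ Cl L σ m) (hj : j ≤ m) :
    fixc j (1 : L) τ = fixc j (1 : L) σ := by
  classical
  unfold fixc
  congr 1
  ext t
  simp only [mem_filter, mem_lev]
  exact and_congr_right fun ht => h j hj t ht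

/-- The level at which the exploration stops. -/
noncomputable def stop (L : Type) [Field L] [MulSemiringAction G L] (B : ℕ) (σ : G) : ℕ :=
  sInf {m | B < 2 + ∑ j ∈ range (m + 1), fixc j (1 : L) σ}

theorem sum_stop (B : ℕ) (σ : G) : ∑ j ∈ range (stop L B σ), fixc j (1 : L) σ ≤ B := by
  rcases h : stop L B σ with _ | m
  · simp
  · have := Nat.notMem_of_lt_sInf (show m < stop L B σ by omega)
    simp only [Set.mem_ofPred_eq] at this
    omega

open scoped Classical in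
theorem cover [Fintype G] {B N : ℕ} {g : G} (hg : B < 2 + ∑ j ∈ range (N + 1), fixc j (1 : L) g) :
    (1 : ℝ) ≤ ∑ σ : G with B < 2 + ∑ j ∈ range (N + 1), fixc j (1 : L) σ,
      if g ∈ fixingSubgroup G (Gn σ (stop L B σ) : Set L) then
        ((Cl L σ (stop L B σ)).ncard : ℝ)⁻¹ else 0 := by
  have m1 : stop L B g ≤ N := Nat.sInf_le hg
  have m2 : B < 2 + ∑ j ∈ range (stop L B g + 1), fixc j (1 : L) g := Nat.sInf_mem (s := {m | B < 2 +
    ∑ j ∈ range (m + 1), fixc j (1 : L) g}) ⟨N, hg⟩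
  have e : ∀ σ ∈ Cl L g (stop L B g), ∀ m ≤ stop L B g, ∑ j ∈ range (m + 1), fixc j (1 : L) σ =
      ∑ j ∈ range (m + 1), fixc j (1 : L) g := fun σ hσ m hm =>
    sum_congr rfl fun j hj => fixc_cl hσ (by have := mem_range.1 hj; omega)
  have st : ∀ σ ∈ Cl L g (stop L B g), stop L B σ = stop L B g := fun σ hσ => by
    have a1 : B < 2 + ∑ j ∈ range (stop L B g + 1), fixc j (1 : L) σ := by rwa [e σ hσ _ le_rfl]
    have a2 : stop L B σ ≤ stop L B g := Nat.sInf_le a1
    have a3 : B < 2 + ∑ j ∈ range (stop L B σ + 1), fixc j (1 : L) σ := Nat.sInf_mem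
      (s := {m | B < 2 + ∑ j ∈ range (m + 1), fixc j (1 : L) σ}) ⟨_, a1⟩
    exact le_antisymm a2 (Nat.sInf_le (by rwa [e σ hσ _ a2] at a3))
  have ce : ∀ σ ∈ Cl L g (stop L B g), Cl L σ (stop L B g) = Cl L g (stop L B g) := fun σ hσ => by
    ext τ
    exact forall₂_congr fun j hj => forall₂_congr fun t ht => by rw [hσ j hj t ht]
  have g0 : g ∈ Cl L g (stop L B g) := fun _ _ _ _ => Iff.rfl
  have c0 : (0 : ℝ) < (Cl L g (stop L B g)).ncard := by
    exact_mod_cast (Set.ncard_pos (Set.toFinite _)).2 ⟨g, g0⟩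
  refine le_trans (le_of_eq ?_) (sum_le_sum_of_subset_of_nonneg
    (s := (Cl L g (stop L B g)).toFinset) (fun σ hσ => ?_) fun _ _ _ => by positivity)
  · rw [sum_congr rfl (g := fun _ => ((Cl L g (stop L B g)).ncard : ℝ)⁻¹) fun σ hσ => by
      have hσ := Set.mem_toFinset.1 hσ
      rw [st σ hσ, if_pos (cl_sub (ce σ hσ ▸ g0)), ce σ hσ], sum_const, nsmul_eq_mul,
      ← Set.ncard_eq_toFinset_card', mul_inv_cancel₀ c0.ne']
  · refine mem_filter.2 ⟨mem_univ _, m2.trans_le ?_⟩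
    rw [← e σ (Set.mem_toFinset.1 hσ) _ le_rfl]
    exact Nat.add_le_add_left (sum_le_sum_of_subset (range_subset_range.2 (by omega))) 2

end Pool.Agent.Lib.MP_dd5d2d_nt.Rate
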