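import Pool.Agent.Lib.MP_dd5d2d_nt.R5

/-! Primes with a large tree give prime ideals of degree one in small fields. -/

namespace Pool.Agent.Lib.MP_dd5d2d_nt.Rate

open Finset NumberField Module Tail
open Pool.Agent.Shared.PrimeZeta Pool.Agent.Shared.FrobeniusDensity

section sep

variable {R : Type} [CommRing R] {P : Ideal R}

theorem node_notMem (hP : P.IsPrime) (h2 : (2 : R) ∉ P) {j : ℕ} {t : R} (ht : bf^[j] t = 1) :
    t ∉ P := fun h => by
  have a1 := map_iter (Ideal.Quotient.mk P) j t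
  rw [ht, Ideal.Quotient.eq_zero_iff_mem.2 h] at a1
  have a2 : bf^[j] (0 : R ⧸ P) = 0 ∨ bf^[j] (0 : R ⧸ P) = -1 := by
    clear a1 ht
    induction j with
    | zero => exact Or.inl rfl
    | succ j ih =>
      rw [Function.iterate_succ_apply']
      rcases ih with e | e <;> simp [e, bf]
  rcases a2 with e | e <;> rw [e] at a1
  · exact hP.ne_top ((Ideal.eq_top_iff_one _).2 (Ideal.Quotient.eq_zero_iff_mem.1 a1))
  · refine h2 (Ideal.Quotient.eq_zero_iff_mem.1 ?_)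
    rw [map_one] at a1
    rw [map_ofNat]
    linear_combination a1

theorem eq_of_sq [IsDomain R] (hP : P.IsPrime) (h2 : (2 : R) ∉ P) {a b : R} (h : a ^ 2 = b ^ 2)
    (hb : b ∉ P) (hab : a - b ∈ P) : a = b := by
  refine (sq_eq_sq_iff_eq_or_eq_neg.1 h).resolve_right fun e => ?_
  rw [e, show -b - b = -(2 * b) by ring, neg_mem_iff] at hab
  exact (hP.mem_or_mem hab).elim h2 hb

theorem node_sep [IsDomain R] (hP : P.IsPrime) (h2 : (2 : R) ∉ P) (j : ℕ) : ∀ t t' : R,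
    bf^[j] t = 1 → bf^[j] t' = 1 → t - t' ∈ P → t = t' := by
  induction j with
  | zero => rintro t t' rfl rfl -; rfl
  | succ j ih =>
    intro t t' h h' e
    have := ih (bf t) (bf t') h h' (by
      rw [show bf t - bf t' = (t - t') * (t + t') by simp only [bf]; ring]
      exact P.mul_mem_right _ e)
    exact eq_of_sq hP h2 (by simpa [bf] using this) (node_notMem hP h2 h') e

end sep

theorem norm_node (j : ℕ) : ∀ z : ℂ, bf^[j] z = 1 → ‖z‖ ≤ 2 := by
  induction j with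
  | zero => rintro z rfl; simp
  | succ j ih =>
    intro z h
    have a1 := ih (bf z) h
    have a2 := norm_add_le (bf z) 1
    rw [show bf z + 1 = z ^ 2 by simp [bf], norm_pow, norm_one] at a2
    nlinarith [norm_nonneg z]

theorem two_notMem {N p : ℕ} (hp : p.Prime) (h2 : p ≠ 2) {P : Ideal (𝓞 (Kf N))} (hP : P.IsPrime)
    (hpP : (p : 𝓞 (Kf N)) ∈ P) : (2 : 𝓞 (Kf N)) ∉ P := fun h =>
  hP.ne_top ((Ideal.eq_top_iff_one _).2 (one_mem_of_coprime
    ((Nat.coprime_primes hp Nat.prime_two).2 h2) hpP (by exact_mod_cast h)))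

theorem smul_node {N j : ℕ} (g : Gal N) {t : 𝓞 (Kf N)} (h : bf^[j] t = 1) :
    bf^[j] (g • t) = 1 := by
  have := map_iter (MulSemiringAction.toRingHom _ (𝓞 (Kf N)) g) j t
  rw [h, map_one] at this
  exact this.symm

theorem frob_le {N p : ℕ} [hp : Fact p.Prime] (h2 : p ≠ 2) {φ : Gal N} (h : IsFrob p φ) {j : ℕ}
    (hj : j ≤ N) : (lev j (1 : ZMod p)).card ≤ fixc j (1 : Kf N) φ := by
  classical
  obtain ⟨P, hP, hpP, hφ⟩ := h
  have hP0 : P ≠ ⊥ := by
    rintro rfl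
    exact hp.out.ne_zero (by simpa using hpP)
  have hM := hP.isMaximal hP0
  let _ := Ideal.Quotient.field P
  let r := Ideal.Quotient.mk P
  have : CharP (𝓞 (Kf N) ⧸ P) p := (CharP.charP_iff_prime_eq_zero hp.out).2 (by
    rw [← map_natCast r]; exact Ideal.Quotient.eq_zero_iff_mem.2 hpP)
  let ι := ZMod.castHom (dvd_refl p) (𝓞 (Kf N) ⧸ P)
  have fr : ∀ t : 𝓞 (Kf N), r (φ • t) = r t ^ p := fun t => by
    rw [← map_pow]; exact Ideal.Quotient.eq.2 (hφ t)
  have ex : ∀ a : ZMod p, bf^[j] a = 1 → ∃ t : 𝓞 (Kf N), bf^[j] t = 1 ∧ r t = ι a := fun a ha =>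
    lift_level r j hj (ι a) (by rw [← map_iter, ha, map_one])
  choose! g hg using ex
  rw [fixc]
  refine card_le_card_of_injOn (fun a => (g a : Kf N)) (fun a ha => ?_) fun a ha b hb e => ?_
  · obtain ⟨g1, g2⟩ := hg a (mem_lev.1 ha)
    simp only [coe_filter, Set.mem_ofPred_eq]
    refine ⟨mem_lev.2 (by rw [← co, g1]; rfl), ?_⟩
    have : φ • g a = g a := node_sep hP (two_notMem hp.out h2 hP hpP) j _ _ (smul_node φ g1) g1
      (Ideal.Quotient.eq.1 ((fr _).trans (by rw [g2, ← map_pow, ZMod.pow_card])))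
    exact congrArg (fun z : 𝓞 (Kf N) => (z : Kf N)) this
  · apply ι.injective
    rw [← (hg a (mem_lev.1 ha)).2, ← (hg b (mem_lev.1 hb)).2, RingOfIntegers.ext e]

/-- The field attached to the explored part of the tree. -/
noncomputable abbrev Kx {N : ℕ} (σ : Gal N) (m : ℕ) : IntermediateField ℚ (Kf N) :=
  IntermediateField.adjoin ℚ (Gn σ m)

theorem fix_Kx {N : ℕ} (σ : Gal N) (m : ℕ) :
    (Kx σ m).fixingSubgroup = fixingSubgroup (Gal N) (Gn σ m : Set (Kf N)) := by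
  refine le_antisymm (fun τ hτ => (mem_fixingSubgroup_iff _).2 fun s hs =>
    (IntermediateField.mem_fixingSubgroup_iff _ τ).1 hτ s (IntermediateField.subset_adjoin _ _ hs))
    ((IntermediateField.le_iff_le _ _).1 (IntermediateField.adjoin_le_iff.2 fun s hs => ?_))
  exact (IntermediateField.mem_fixedField_iff _ _).2 fun τ hτ => (mem_fixingSubgroup_iff _).1 hτ s hs

theorem int_gn {N : ℕ} {σ : Gal N} {m : ℕ} {s : Kf N} (h : s ∈ Gn σ m) : IsIntegral ℤ s := by
  rcases h with ⟨j, -, h1, -⟩ | ⟨w, ⟨j, -, h1, -⟩, w', ⟨j', -, h2, -⟩, -, -, rfl⟩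
  · exact integral_level j s h1
  · exact (integral_level (j + 1) w h1).mul (integral_level (j' + 1) w' h2)

theorem basis_Kx {N : ℕ} (σ : Gal N) (m : ℕ) :
    ∃ (ι : Type) (_ : Fintype ι) (b : Basis ι ℚ (Kx σ m)), (∀ i, IsIntegral ℤ (b i)) ∧
      ∀ i, ∀ ψ : Kx σ m →+* ℂ, ‖ψ (b i)‖ ≤ 4 ^ finrank ℚ (Kx σ m) := by
  refine exists_basis {s : Kx σ m | (s : Kf N) ∈ Gn σ m} (fun s hs => ⟨?_, fun ψ => ?_⟩)
    fun V h1 h => ?_
  · exact (isIntegral_algebraMap_iff (algebraMap (Kx σ m) (Kf N)).injective).1 (int_gn hs)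
  · let := ψ.toAlgebra
    let χ : Kf N →ₐ[Kx σ m] ℂ := IsAlgClosed.lift
    have e : ψ s = χ (s : Kf N) := (χ.commutes s).symm
    have nd : ∀ j (t : Kf N), bf^[j] t = 1 → ‖χ t‖ ≤ 2 := fun j t ht =>
      norm_node j _ ((map_iter χ.toRingHom j t).symm.trans (by rw [ht, map_one]))
    rw [e]
    rcases hs with ⟨j, -, h1, -⟩ | ⟨w, ⟨j, -, h1, -⟩, w', ⟨j', -, h2, -⟩, -, -, e⟩
    · linarith [nd j s h1]
    · rw [e, map_mul, norm_mul]
      nlinarith [nd (j + 1) w h1, nd (j' + 1) w' h2, norm_nonneg (χ w), norm_nonneg (χ w')]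
  · have key : ∀ x ∈ Algebra.adjoin ℚ (Gn σ m : Set (Kf N)), ∀ y : Kx σ m, (y : Kf N) = x →
        ∀ v ∈ V, y * v ∈ V := by
      have sub : ∀ x ∈ Algebra.adjoin ℚ (Gn σ m : Set (Kf N)), x ∈ Kx σ m := fun x hx =>
        IntermediateField.algebra_adjoin_le_adjoin _ _ hx
      intro x hx
      induction hx using Algebra.adjoin_induction with
      | mem x hx => exact fun y e => h y (e ▸ hx : (y : Kf N) ∈ Gn σ m)
      | algebraMap r =>
        intro y e v hv
        rw [show y = algebraMap ℚ _ r from Subtype.ext e, ← Algebra.smul_def]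
        exact V.smul_mem _ hv
      | add x x' hx hx' a a' =>
        intro y e v hv
        rw [show y = ⟨x, sub x hx⟩ + ⟨x', sub x' hx'⟩ from Subtype.ext e, add_mul]
        exact add_mem (a _ rfl v hv) (a' _ rfl v hv)
      | mul x x' hx hx' a a' =>
        intro y e v hv
        rw [show y = ⟨x, sub x hx⟩ * ⟨x', sub x' hx'⟩ from Subtype.ext e, mul_assoc]
        exact a _ rfl _ (a' _ rfl v hv)
    refine top_le_iff.1 fun y _ => ?_
    have := key y (by
      rw [← IntermediateField.adjoin_toSubalgebra_of_isAlgebraic fun x _ =>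
        Algebra.IsAlgebraic.isAlgebraic x]
      exact y.2) y rfl 1 h1
    rwa [mul_one] at this

open scoped Classical in
theorem count_le {N p : ℕ} (hp : p.Prime) (h2 : p ≠ 2) {φ : Gal N} (h : IsFrob p φ) (σ : Gal N)
    (m : ℕ) : #{g : Gal N | g⁻¹ * φ * g ∈ fixingSubgroup (Gal N) (Gn σ m : Set (Kf N))} ≤
      Nat.card (fixingSubgroup (Gal N) (Gn σ m : Set (Kf N))) * nI (Kx σ m) p := by
  obtain ⟨P, hP, hpP, hφ⟩ := h
  have t2 := two_notMem hp h2 hP hpP
  set H := fixingSubgroup (Gal N) (Gn σ m : Set (Kf N)) with hH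
  let j : 𝓞 (Kx σ m) →+* 𝓞 (Kf N) := algebraMap _ _
  have jH : ∀ h ∈ H, ∀ x, h • j x = j x := fun h hh x => RingOfIntegers.ext
    ((IntermediateField.mem_fixingSubgroup_iff _ h).1 (fix_Kx σ m ▸ hh) _ (x : Kx σ m).2)
  have sep : ∀ g g' : Gal N, (∀ x, g • j x - g' • j x ∈ P) → g⁻¹ * g' ∈ H := by
    intro g g' hg
    have a0 : ∀ s : 𝓞 (Kf N), (s : Kf N) ∈ Gn σ m → g • s - g' • s ∈ P := fun s hs =>
      hg ⟨⟨s, IntermediateField.subset_adjoin _ _ hs⟩,
        (isIntegral_algebraMap_iff (algebraMap (Kx σ m) (Kf N)).injective).1 (int_gn hs)⟩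
    have a1 : ∀ t : 𝓞 (Kf N), (t : Kf N) ∈ Fx σ m → g • t = g' • t := by
      intro t ht
      obtain ⟨i, -, h1, -⟩ := id ht
      have h3 : bf^[i] t = 1 := RingOfIntegers.ext ((co i t).trans h1)
      exact node_sep hP t2 i _ _ (smul_node g h3) (smul_node g' h3) (a0 t (Or.inl ht))
    have a2 : ∀ w : 𝓞 (Kf N), (w : Kf N) ∈ Ch σ m → (g • w) ^ 2 = (g' • w) ^ 2 ∧ g' • w ∉ P := by
      rintro w ⟨i, hi, h1, h3⟩
      have h4 := a1 (bf w) ⟨i, hi.le, h1, h3⟩
      have h5 : bf^[i + 1] w = 1 := RingOfIntegers.ext ((co (i + 1) w).trans h1)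
      refine ⟨?_, node_notMem hP t2 (smul_node g' h5)⟩
      simpa [bf, smul_sub, smul_pow'] using h4
    refine (mem_fixingSubgroup_iff _).2 fun s hs => ?_
    rw [mul_smul, inv_smul_eq_iff]
    obtain ⟨u, rfl⟩ : ∃ u : 𝓞 (Kf N), (u : Kf N) = s := ⟨⟨s, int_gn hs⟩, rfl⟩
    refine congrArg (fun z : 𝓞 (Kf N) => (z : Kf N)) (show g' • u = g • u from Eq.symm ?_)
    rcases id hs with h1 | ⟨w, hw, w', hw', -, -, e⟩
    · exact a1 _ h1
    · obtain ⟨v, rfl⟩ : ∃ v : 𝓞 (Kf N), (v : Kf N) = w :=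
        ⟨⟨w, integral_level (hw.choose + 1) w hw.choose_spec.2.1⟩, rfl⟩
      obtain ⟨v', rfl⟩ : ∃ v : 𝓞 (Kf N), (v : Kf N) = w' :=
        ⟨⟨w', integral_level (hw'.choose + 1) w' hw'.choose_spec.2.1⟩, rfl⟩
      have e' : u = v * v' := RingOfIntegers.ext e
      refine eq_of_sq hP t2 ?_ ?_ (a0 _ hs)
      · rw [e', smul_mul', smul_mul', mul_pow, mul_pow, (a2 v hw).1, (a2 v' hw').1]
      · rw [e', smul_mul']
        exact fun c => (hP.mem_or_mem c).elim (a2 v hw).2 (a2 v' hw').2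
  let Q : Gal N → Ideal (𝓞 (Kx σ m)) := fun g =>
    (P.comap (MulSemiringAction.toRingHom (Gal N) (𝓞 (Kf N)) g)).comap j
  have memQ : ∀ g x, x ∈ Q g ↔ g • j x ∈ P := fun g x => Iff.rfl
  have hQ : ∀ g, (Q g).IsPrime := fun g => inferInstance
  have smul_int : ∀ (g : Gal N) (n : ℤ), g • (n : 𝓞 (Kf N)) = n := fun g n =>
    map_intCast (MulSemiringAction.toRingHom (Gal N) (𝓞 (Kf N)) g) n
  have smul_nat : ∀ (g : Gal N) (n : ℕ), g • (n : 𝓞 (Kf N)) = n := fun g n =>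
    map_natCast (MulSemiringAction.toRingHom (Gal N) (𝓞 (Kf N)) g) n
  rw [← card_idl]
  refine card_le_mul_card_image_of_maps_to (f := Q) (fun g hg => ?_) _ fun I hI => ?_
  · have hg : g⁻¹ * φ * g ∈ H := by simpa using hg
    refine mem_idl.2 (absNorm_eq_of_pow (hQ g) hp ?_ fun x => ?_)
    · rw [memQ, map_natCast, smul_nat]; exact hpP
    · have a1 := jH _ hg x
      rw [mul_smul, mul_smul, inv_smul_eq_iff] at a1
      have a2 := hφ (g • j x)
      rw [a1] at a2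
      rw [memQ, map_sub, map_pow, smul_sub, smul_pow', ← neg_sub]
      exact P.neg_mem a2
  · rcases eq_empty_or_nonempty (filter (fun g => Q g = I) {g : Gal N | g⁻¹ * φ * g ∈ H}) with
      e | ⟨g₀, h0⟩
    · rw [e]; exact Nat.zero_le _
    rw [Nat.card_eq_fintype_card, Fintype.card_subtype]
    refine card_le_card_of_injOn (fun g => g₀⁻¹ * g) (fun g hg => ?_) fun a _ b _ e =>
      mul_left_cancel e
    refine mem_coe.2 (mem_filter.2 ⟨mem_univ _, sep _ _ fun x => ?_⟩)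
    obtain ⟨n, hn⟩ := exists_int_of_absNorm hp (mem_idl.1 hI) x
    have b1 := (memQ g _).1 ((mem_filter.1 hg).2 ▸ hn)
    have b2 := (memQ g₀ _).1 ((mem_filter.1 h0).2 ▸ hn)
    rw [map_sub, smul_sub, map_intCast, smul_int] at b1 b2
    simpa using P.sub_mem b2 b1

end Pool.Agent.Lib.MP_dd5d2d_nt.Rate
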