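import Pool.Agent.Lib.MP_dd5d2d_nt.R6

/-! Counting the primes with a large tree. -/

namespace Pool.Agent.Lib.MP_dd5d2d_nt.Rate

open Finset NumberField Module Tail
open Pool.Agent.Shared.PrimeZeta Pool.Agent.Shared.FrobeniusDensity

open scoped Classical

theorem one_prime {N B p : ℕ} (hN : B ≤ N) (hp : p.Prime) (h2 : 2 < p)
    (h : B < {a : ZMod p | ∃ k, bf^[k] a = 0}.ncard) : (Fintype.card (Gal N) : ℝ) ≤
      ∑ σ : Gal N with B < tot N σ, 2 * (nI (Kx σ (stop (Kf N) B σ)) p : ℝ) := by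
  have : Fact p.Prime := ⟨hp⟩
  have : Fact (2 < p) := ⟨h2⟩
  obtain ⟨φ, hφ⟩ := exists_isFrob (K := Kf N) hp
  have a1 : B < 2 + ∑ j ∈ range (N + 1), fixc j (1 : Kf N) φ :=
    ((reach_card (ZMod.neg_one_ne_one (n := p)).symm hN).1 h).trans_le (Nat.add_le_add_left
      (sum_le_sum fun j hj => frob_le h2.ne' hφ (Nat.lt_succ_iff.1 (mem_range.1 hj))) 2)
  have a2 := sum_le_sum fun g (_ : g ∈ univ) => cover (L := Kf N) (B := B) (N := N)
    (g := g⁻¹ * φ * g) (by simpa only [fixc_conj] using a1)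
  rw [sum_const, card_univ, nsmul_eq_mul, mul_one, sum_comm] at a2
  refine a2.trans (sum_le_sum fun σ _ => ?_)
  rw [← sum_filter, sum_const, nsmul_eq_mul]
  have a3 := (count_le hp h2.ne' hφ σ (stop (Kf N) B σ)).trans
    (Nat.mul_le_mul_right _ (card_gn σ (stop (Kf N) B σ)))
  have a4 : (0 : ℝ) < (Cl (Kf N) σ (stop (Kf N) B σ)).ncard := by
    have : σ ∈ Cl (Kf N) σ (stop (Kf N) B σ) := fun _ _ _ _ => Iff.rfl
    exact_mod_cast (Set.ncard_pos (Set.toFinite _)).2 ⟨σ, this⟩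
  rw [mul_inv_le_iff₀ a4, mul_right_comm]
  exact_mod_cast a3

theorem dyadic {B : ℕ} (hB : 1 ≤ B) {s : ℝ} (hs : 5000 ≤ s) (hBs : 2 ^ B ≤ s) (Q : Finset ℕ)
    (hQ : ∀ p ∈ Q, p.Prime ∧ Real.exp (s ^ 4) < p ∧ p ≤ 2 * Real.exp (s ^ 4) ∧
      B < {a : ZMod p | ∃ k, bf^[k] a = 0}.ncard) :
    (#Q : ℝ) ≤ 115328 * Real.exp (s ^ 4) / (√B * s ^ 4) := by
  obtain ⟨N, hN, -, u⟩ := prop_bounds hB
  have G0 : (0 : ℝ) < Fintype.card (Gal N) := by exact_mod_cast Fintype.card_pos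
  have a1 := card_nsmul_le_sum Q _ _ fun p hp => one_prime hN (hQ p hp).1 (by
    have b1 : s ≤ s ^ 4 := le_self_pow₀ (by linarith) (by norm_num)
    have b2 : (2 : ℝ) < p := by linarith [Real.add_one_le_exp (s ^ 4), (hQ p hp).2.1]
    exact_mod_cast b2) (hQ p hp).2.2.2
  rw [sum_comm, nsmul_eq_mul] at a1
  have a2 : ∀ σ : Gal N, ∑ p ∈ Q, 2 * (nI (Kx σ (stop (Kf N) B σ)) p : ℝ) ≤
      2 * (136 * Real.exp (s ^ 4) / s ^ 4) := fun σ => by
    obtain ⟨ι, _, b, h1, h2⟩ := basis_Kx σ (stop (Kf N) B σ)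
    have b1 : finrank ℚ (Kx σ (stop (Kf N) B σ)) ≤ 2 ^ B := by
      rw [IntermediateField.finrank_eq_fixingSubgroup_index, fix_Kx]
      exact (index_gn σ _).trans (Nat.pow_le_pow_right two_pos (sum_stop B σ))
    rw [← mul_sum]
    refine mul_le_mul_of_nonneg_left (le_trans ?_ (bt b h1 h2 hs
      (le_trans (by exact_mod_cast b1) hBs))) two_pos.le
    have b2 := sum_biUnion_idl (L := Kx σ (stop (Kf N) B σ)) Q fun _ => 1
    simp only [mul_one, sum_const, nsmul_eq_mul] at b2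
    rw [← b2, Nat.cast_le]
    refine card_le_card fun I hI => ?_
    obtain ⟨p, hp, e⟩ := mem_biUnion.1 hI
    have e := mem_idl.1 e
    obtain ⟨c1, c2, c3, -⟩ := hQ p hp
    have c4 : I ≠ ⊥ := by
      rintro rfl
      exact c1.ne_zero (by rw [← e, Ideal.absNorm_bot])
    exact mem_filter.2 ⟨mem_filter.2 ⟨mem_Id.2 ⟨c4, e ▸ c3⟩,
      (Ideal.isPrime_of_irreducible_absNorm (e ▸ c1)).isMaximal c4⟩, e ▸ c2⟩
  have a3 := a1.trans (sum_le_card_nsmul _ _ _ fun σ _ => a2 σ)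
  rw [nsmul_eq_mul] at a3
  rw [div_le_iff₀ G0] at u
  refine le_of_mul_le_mul_right (a3.trans ((mul_le_mul_of_nonneg_right u
    (by positivity)).trans (le_of_eq ?_))) G0
  ring

/-- The primes up to `x` with a large tree. -/
noncomputable def big (B : ℕ) (x : ℝ) : Finset ℕ :=
  (range (⌊x⌋₊ + 1)).filter fun p => p.Prime ∧ B < {a : ZMod p | ∃ k, bf^[k] a = 0}.ncard

theorem big_le {B : ℕ} (hB : 1 ≤ B) {l x : ℝ} (hl : 5000 ^ 4 ≤ l) (hBl : (2 ^ B) ^ 4 ≤ l) (k : ℕ)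
    (h : Real.exp l ≤ x / 2 ^ k) :
    (#(big B x) : ℝ) ≤ #(big B (x / 2 ^ k)) + 115328 * (x - x / 2 ^ k) / (√B * l) := by
  induction k with
  | zero => simp
  | succ k ih =>
    have e : x / 2 ^ k = 2 * (x / 2 ^ (k + 1)) := by rw [pow_succ]; field_simp
    set y := x / 2 ^ (k + 1)
    have y0 := (Real.exp_pos l).trans_le h
    have l0 : 0 < l := lt_of_lt_of_le (by norm_num) hl
    have y1 : l ≤ Real.log y := (Real.le_log_iff_exp_le y0).2 h
    obtain ⟨s, s0, hs⟩ : ∃ s : ℝ, 0 ≤ s ∧ s ^ 4 = Real.log y :=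
      ⟨_, Real.rpow_nonneg (l0.le.trans y1) _,
        Real.rpow_inv_natCast_pow (l0.le.trans y1) (by norm_num)⟩
    have a1 := dyadic hB (s := s) (le_of_pow_le_pow_left₀ (by norm_num) s0 (hs ▸ hl.trans y1))
      (le_of_pow_le_pow_left₀ (by norm_num) s0 (hs ▸ hBl.trans y1)) (big B (2 * y) \ big B y)
      fun p hp => by
        obtain ⟨b1, b2⟩ := mem_sdiff.1 hp
        obtain ⟨b3, b4⟩ := mem_filter.1 b1
        rw [hs, Real.exp_log y0]
        refine ⟨b4.1, lt_of_not_ge fun c => b2 (mem_filter.2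
          ⟨mem_range.2 (Nat.lt_succ_of_le (Nat.le_floor c)), b4⟩), ?_, b4.2⟩
        exact (Nat.le_floor_iff (by linarith)).1 (Nat.lt_succ_iff.1 (mem_range.1 b3))
    rw [hs, Real.exp_log y0] at a1
    have a2 : (#(big B (2 * y)) : ℝ) ≤ #(big B (2 * y) \ big B y) + #(big B y) := by
      exact_mod_cast card_le_card_sdiff_add_card
    have B0 : 0 < √(B : ℝ) := Real.sqrt_pos.2 (by exact_mod_cast hB)
    have a3 : 115328 * y / (√B * Real.log y) ≤ 115328 * y / (√B * l) := by gcongr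
    have a4 := ih (by linarith)
    rw [e] at a4
    have a5 : 115328 * (x - y) / (√B * l) =
        115328 * (x - 2 * y) / (√B * l) + 115328 * y / (√B * l) := by ring
    linarith

theorem card_big (B : ℕ) {x : ℝ} (hx : 0 ≤ x) : (#(big B x) : ℝ) ≤ x + 1 := by
  have : #(big B x) ≤ ⌊x⌋₊ + 1 := (card_filter_le _ _).trans (card_range _).le
  have h := (Nat.cast_le (α := ℝ)).2 this
  push_cast at h
  linarith [Nat.floor_le hx]

theorem uniform {B : ℕ} (hB : 1 ≤ B) {x : ℝ} (hx : 0 < x) (hl : 2 * 5000 ^ 4 ≤ Real.log x)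
    (hBl : 2 * (2 ^ B) ^ 4 ≤ Real.log x) :
    (#(big B x) : ℝ) ≤ 2 * √x + 1 + 230656 * x / (√B * Real.log x) := by
  have e : Real.exp (Real.log x / 2) = √x := by
    rw [Real.sqrt_eq_rpow, Real.rpow_def_of_pos hx]
    congr 1
    ring
  have r1 : 1 ≤ √x := e ▸ Real.one_le_exp (by linarith)
  have r2 : √x * √x = x := Real.mul_self_sqrt hx.le
  obtain ⟨k, k1, k2⟩ := exists_nat_pow_near r1 one_lt_two
  have a1 := big_le hB (l := Real.log x / 2) (x := x) (by linarith) (by linarith) k (by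
    rw [e, le_div_iff₀ (by positivity)]
    nlinarith)
  have a2 := card_big B (x := x / 2 ^ k) (by positivity)
  have a3 : x / 2 ^ k ≤ 2 * √x := by
    rw [div_le_iff₀ (by positivity)]
    rw [pow_succ] at k2
    nlinarith
  have B0 : 0 < √(B : ℝ) := Real.sqrt_pos.2 (by exact_mod_cast hB)
  have l0 : 0 < Real.log x := by linarith
  have a4 : 115328 * (x - x / 2 ^ k) / (√B * (Real.log x / 2)) ≤
      115328 * x / (√B * (Real.log x / 2)) := by
    gcongr
    exact sub_le_self _ (by positivity)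
  have a5 : 115328 * x / (√B * (Real.log x / 2)) = 230656 * x / (√B * Real.log x) := by
    field_simp
    norm_num
  linarith

open Filter Asymptotics in
theorem rate {δ : ℝ} (hδ : 0 < δ) :
    (fun x : ℝ => ({p : ℕ | p.Prime ∧ (p : ℝ) ≤ x ∧ δ * Real.log (Real.log p) ≤
      {a : ZMod p | ∃ k, bf^[k] a = 0}.ncard}.ncard : ℝ)) =O[atTop]
      fun x : ℝ => x / (Real.log x * √(Real.log (Real.log x))) := by
  obtain ⟨η, η0, η1, η2⟩ : ∃ η : ℝ, 0 < η ∧ η ≤ δ / 2 ∧ η ≤ 1 / 8 :=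
    ⟨min (δ / 2) (1 / 8), by positivity, min_le_left _ _, min_le_right _ _⟩
  refine IsBigO.of_bound (40 + 230656 / √(η / 2)) ?_
  filter_upwards [eventually_gt_atTop 0,
    Real.tendsto_log_atTop.eventually_ge_atTop (2 * 5000 ^ 4),
    (Real.tendsto_log_atTop.comp Real.tendsto_log_atTop).eventually_ge_atTop (2 / η)]
    with x hx h1 h2
  set l := Real.log x with hl
  have h2 : 2 / η ≤ Real.log l := h2
  have l0 : 0 < l := by linarith
  have h3 : 16 ≤ Real.log l := le_trans (by rw [le_div_iff₀ η0]; linarith) h2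
  rw [div_le_iff₀ η0] at h2
  have B1 := Nat.floor_le (show 0 ≤ η * Real.log l by positivity)
  have B2 := Nat.lt_floor_add_one (η * Real.log l)
  set B := ⌊η * Real.log l⌋₊
  have B3 : (1 : ℝ) ≤ B := by linarith
  have l2 := Real.log_two_lt_d9
  have a1 := uniform (B := B) (by exact_mod_cast B3) hx h1 (by
    rw [← Real.exp_log two_pos, ← Real.exp_nat_mul, ← Real.exp_nat_mul, ← Real.exp_add,
      ← Real.le_log_iff_exp_le l0]
    push_cast
    nlinarith [Real.log_two_gt_d9])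
  have e : Real.exp (l / 2) = √x := by
    rw [Real.sqrt_eq_rpow, Real.rpow_def_of_pos hx]
    congr 1
    ring
  have r1 : 1 ≤ √x := e ▸ Real.one_le_exp (by linarith)
  have sub : {p : ℕ | p.Prime ∧ (p : ℝ) ≤ x ∧ δ * Real.log (Real.log p) ≤
      {a : ZMod p | ∃ k, bf^[k] a = 0}.ncard} ⊆ ↑(range (⌊√x⌋₊ + 1) ∪ big B x) := by
    rintro p ⟨p1, p2, p3⟩
    rw [mem_coe, mem_union]
    by_cases c : (p : ℝ) ≤ √x
    · exact Or.inl (mem_range.2 (Nat.lt_succ_of_le (Nat.le_floor c)))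
    refine Or.inr (mem_filter.2 ⟨mem_range.2 (Nat.lt_succ_of_le (Nat.le_floor p2)), p1, ?_⟩)
    have b1 : l / 2 ≤ Real.log p :=
      (Real.le_log_iff_exp_le (by linarith)).2 (e ▸ (not_le.1 c).le)
    have b2 := Real.log_le_log (by positivity) b1
    rw [Real.log_div l0.ne' two_ne_zero] at b2
    have b3 : (B : ℝ) < {a : ZMod p | ∃ k, bf^[k] a = 0}.ncard := by nlinarith
    exact_mod_cast b3
  have a2 := Set.ncard_le_ncard sub (Finset.finite_toSet _)
  rw [Set.ncard_coe_finset] at a2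
  have a3 := (Nat.cast_le (α := ℝ)).2 (a2.trans (card_union_le _ _))
  rw [card_range] at a3
  push_cast at a3
  have m0 : 0 < √(Real.log l) := Real.sqrt_pos.2 (by linarith)
  have a4 : √x ≤ 8 * (x / (l * √(Real.log l))) := by
    have b1 : √(Real.log l) ≤ l := Real.sqrt_le_iff.2 ⟨l0.le, by
      nlinarith [Real.log_le_self l0.le]⟩
    have b2 := Real.quadratic_le_exp_of_nonneg (show 0 ≤ l / 2 by linarith)
    rw [← mul_div_assoc, le_div_iff₀ (by positivity)]
    rw [e] at b2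
    have b3 : l * √(Real.log l) ≤ 8 * √x := by nlinarith
    nlinarith [Real.mul_self_sqrt hx.le]
  have a5 : 230656 * x / (√B * l) ≤ 230656 / √(η / 2) * (x / (l * √(Real.log l))) := by
    rw [div_mul_div_comm, mul_left_comm, ← Real.sqrt_mul (by positivity), mul_comm l]
    gcongr
    linarith
  rw [Real.norm_of_nonneg (Nat.cast_nonneg _), Real.norm_of_nonneg (by positivity)]
  linarith [Nat.floor_le (Real.sqrt_nonneg x)]

end Pool.Agent.Lib.MP_dd5d2d_nt.Rate
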