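import Mathlib
import Pool.Agent.Lib.MP_dd5d2d_nt.Tail4

set_option autoImplicit false

namespace Pool.Agent.Lib.MP_dd5d2d_nt.TailCor

open Filter Topology

/-- The residues modulo `p` whose forward orbit under `x ↦ x ^ 2 - 1` contains `0`. -/
def Sbar (p : ℕ) : Set (ZMod p) := {a | ∃ k : ℕ, (fun x : ZMod p => x ^ 2 - 1)^[k] a = 0}

/-- The sum of `p ^ (-s)` over the primes `p` in `S`. -/
noncomputable def primeZeta (S : Set ℕ) (s : ℝ) : ℝ :=
  ∑' p : {p : ℕ // p.Prime ∧ p ∈ S}, ((p : ℕ) : ℝ) ^ (-s)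

/-- The primes in `S` have Dirichlet density `δ`. -/
def HasDirichletDensity (S : Set ℕ) (δ : ℝ) : Prop :=
  Tendsto (fun s : ℝ => primeZeta S s / primeZeta Set.univ s) (𝓝[>] 1) (𝓝 δ)

open Pool.Agent.Lib.MP_dd5d2d_nt Pool.Agent.Shared.PrimeZeta Pool.Agent.Shared.FrobeniusDensity

open scoped Classical in
theorem primeZeta_eq (S : Set ℕ) (s : ℝ) :
    primeZeta S s = psum (fun p => if p ∈ S then 1 else 0) s := by
  have := tsum_subtype {p : ℕ | p.Prime ∧ p ∈ S} fun p : ℕ => (p : ℝ) ^ (-s)
  refine this.trans (tsum_congr fun p => ?_)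
  by_cases h1 : p.Prime <;> by_cases h2 : p ∈ S <;> simp [Set.indicator, h1, h2]

open scoped Classical in
theorem of_lim {S : Set ℕ} {δ : ℝ} (l : Lim (fun p => if p ∈ S then 1 else 0) δ) :
    HasDirichletDensity S δ := by
  have := Tendsto.div l lim_one one_ne_zero
  rw [div_one] at this
  refine this.congr' ?_
  filter_upwards [tendsto_log.eventually_gt_atTop 0] with s hl
  simp only [Pi.div_apply, primeZeta_eq, Set.mem_univ, if_true]
  rw [div_div_div_cancel_right₀ hl.ne']

open scoped Classical in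
theorem tail' {B : ℕ} (hB : 1 ≤ B) : ∃ δ : ℝ,
    Lim (fun p => if p ∈ {p | B < (Sbar p).ncard} then 1 else 0) δ ∧
      1 / 4096 / √B ≤ δ ∧ δ ≤ 424 / √B := by
  obtain ⟨δ, l, h⟩ := Tail.tail hB
  exact ⟨δ, by convert l; rfl, h⟩

/-- The primes for which more than `B` residues reach `0` have a Dirichlet density, of exact order
`B ^ (-1 / 2)`. -/
theorem tail_law : ∃ c C : ℝ, 0 < c ∧ ∀ B : ℕ, 1 ≤ B → ∃ δ : ℝ,
    HasDirichletDensity {p | B < (Sbar p).ncard} δ ∧ c / √B ≤ δ ∧ δ ≤ C / √B := by
  refine ⟨1 / 4096, 424, by norm_num, fun B hB => ?_⟩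
  obtain ⟨δ, l, h⟩ := tail' hB
  exact ⟨δ, of_lim (by convert l), h⟩

/-- A set of primes along which the number of residues that reach `0` tends to infinity has
Dirichlet density zero. -/
theorem density_zero (S : Set ℕ) (hS : ∀ B : ℕ, {p ∈ S | p.Prime ∧ (Sbar p).ncard ≤ B}.Finite) :
    HasDirichletDensity S 0 := by
  classical
  have bd : ∀ (q : ℕ → Prop) [DecidablePred q], Bdd fun p => if q p then 1 else 0 := fun q _ =>
    ⟨1, fun p _ => by dsimp only; split_ifs <;> simp⟩
  refine of_lim ?_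
  rw [Lim, tendsto_order]
  constructor
  · intro a ha
    filter_upwards [tendsto_log.eventually_gt_atTop 0] with s hl
    refine ha.trans_le (div_nonneg (tsum_nonneg fun n => ?_) hl.le)
    positivity
  intro ε hε
  have t0 : Tendsto (fun B : ℕ => 424 / √(B : ℝ)) atTop (𝓝 0) :=
    tendsto_const_nhds.div_atTop (Real.tendsto_sqrt_atTop.comp tendsto_natCast_atTop_atTop)
  obtain ⟨B, h1, h2⟩ := ((t0.eventually_lt_const hε).and (eventually_ge_atTop 1)).exists
  obtain ⟨δ, l, -, u⟩ := tail' h2
  have z : Lim (fun p => if p ∈ S ∧ (Sbar p).ncard ≤ B then 1 else 0) 0 := by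
    apply lim_zero
    have := (hS B).eventually_cofinite_notMem
    rw [Nat.cofinite_eq_atTop] at this
    filter_upwards [this] with p hp hpp
    exact if_neg fun h => hp ⟨h.1, hpp, h.2⟩
  have l' := Lim.add (bd _) (bd _) l z
  rw [add_zero] at l'
  filter_upwards [l'.eventually_lt_const (u.trans_lt h1), self_mem_nhdsWithin,
    tendsto_log.eventually_gt_atTop 0] with s h hs hl
  refine lt_of_le_of_lt ?_ h
  gcongr
  refine psum_mono (bd _) ((bd _).add (bd _)) (fun p _ => ?_) hs
  by_cases c1 : p ∈ S <;> by_cases c2 : B < (Sbar p).ncard <;> simp [c1, c2, not_le.2, not_lt.1]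

/-- The primes for which every residue reaches `0` have Dirichlet density zero. -/
theorem density_Q : HasDirichletDensity {p | p.Prime ∧ Sbar p = Set.univ} 0 := by
  refine density_zero _ fun B => (Set.finite_le_nat B).subset ?_
  rintro p ⟨⟨hp, h⟩, -, h'⟩
  have : Fact p.Prime := ⟨hp⟩
  rwa [h, Set.ncard_univ, Nat.card_zmod] at h'

/-- The primes dividing a term of the orbit of `n ≥ 2` have Dirichlet density zero. -/
theorem density_P (n : ℤ) (hn : 2 ≤ n) :
    HasDirichletDensity {p | ∃ k : ℕ, (p : ℤ) ∣ (fun x : ℤ => x ^ 2 - 1)^[k] n} 0 := by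
  classical
  refine density_zero _ fun B => ?_
  refine (Set.finite_le_nat ((Finset.range (B + 1)).sup fun k => (bf^[k] n).toNat)).subset ?_
  rintro p ⟨hk, hp, hB⟩
  have : Fact p.Prime := ⟨hp⟩
  have hk : ∃ k, bf^[k] (n : ZMod p) = 0 := by
    obtain ⟨k, hk⟩ := hk
    refine ⟨k, ?_⟩
    have := map_iter (Int.castRingHom (ZMod p)) k n
    simp only [eq_intCast] at this
    rw [← this]
    exact (ZMod.intCast_zmod_eq_zero_iff_dvd _ _).2 hk
  have h1 := Nat.find_spec hk
  have h2 : Nat.find hk ≤ B := by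
    have inj : Set.InjOn (fun j => bf^[j] (n : ZMod p)) (Finset.range (Nat.find hk)) := by
      have key : ∀ i j, i < j → j < Nat.find hk → bf^[i] (n : ZMod p) ≠ bf^[j] (n : ZMod p) := by
        intro i j hij hj e
        refine Nat.find_min hk (m := Nat.find hk - j + i) (by omega) ?_
        rw [Function.iterate_add_apply, e, ← Function.iterate_add_apply,
          Nat.sub_add_cancel hj.le, h1]
      intro i hi j hj e
      rcases lt_trichotomy i j with h | h | h
      · exact (key i j h (by simpa using hj) e).elim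
      · exact h
      · exact (key j i h (by simpa using hi) e.symm).elim
    have := Set.ncard_le_ncard_of_injOn (t := Sbar p) _ (fun j hj => ?_) inj (Set.toFinite _)
    · rw [Set.ncard_coe_finset, Finset.card_range] at this
      omega
    · refine ⟨Nat.find hk - j, ?_⟩
      have hj : j < Nat.find hk := by simpa using hj
      show bf^[Nat.find hk - j] (bf^[j] (n : ZMod p)) = 0
      rw [← Function.iterate_add_apply, Nat.sub_add_cancel hj.le, h1]
  have h3 : (p : ℤ) ∣ bf^[Nat.find hk] n := by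
    have := map_iter (Int.castRingHom (ZMod p)) (Nat.find hk) n
    simp only [eq_intCast] at this
    exact (ZMod.intCast_zmod_eq_zero_iff_dvd _ _).1 (this.trans h1)
  have h4 := two_le_iter hn (Nat.find hk)
  have h5 := Int.le_of_dvd (by omega) h3
  have h6 := Finset.le_sup (f := fun k => (bf^[k] n).toNat)
    (Finset.mem_range.2 (Nat.lt_succ_of_le h2))
  exact le_trans (by omega) h6

end Pool.Agent.Lib.MP_dd5d2d_nt.TailCor
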